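import Mathlib

namespace SolGeom

open Real Filter

/-- Logarithmic terms are eventually dominated by linear ones. -/
theorem ev_log (b ε : ℝ) (hb : 0 < b) (hε : 0 < ε) : ∀ᶠ L in atTop, log (1 + b * L) ≤ ε * L := by
  have h1 : Tendsto (fun L : ℝ => 1 + b * L) atTop atTop :=
    tendsto_atTop_add_const_left _ _ (tendsto_id.const_mul_atTop hb)
  have h2 := (Real.isLittleO_log_id_atTop.comp_tendsto h1).def (c := ε / (2 * b)) (by positivity)
  filter_upwards [h2, eventually_ge_atTop (0 : ℝ), eventually_ge_atTop (1 / b)] with L hL hL0 hL1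
  simp only [Function.comp_apply, id_eq, Real.norm_eq_abs] at hL
  have h3 : 0 ≤ 1 + b * L := by positivity
  rw [abs_of_nonneg h3] at hL
  have h4 := (le_abs_self _).trans hL
  refine h4.trans ?_
  have h5 : 1 ≤ b * L := by
    rw [div_le_iff₀ hb] at hL1; linarith
  calc ε / (2 * b) * (1 + b * L) ≤ ε / (2 * b) * (b * L + b * L) := by gcongr
    _ = ε * L := by field_simp; ring

theorem ev_const (a ε : ℝ) (hε : 0 < ε) : ∀ᶠ L in atTop, a ≤ ε * L := by
  filter_upwards [eventually_ge_atTop (a / ε)] with L hL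
  rw [div_le_iff₀ hε] at hL
  linarith

theorem ev_aff (a p b ε : ℝ) (hb : 0 < b) (hε : 0 < ε) :
    ∀ᶠ L in atTop, a + p * log (1 + b * L) ≤ ε * L := by
  filter_upwards [ev_log b (ε / (2 * (|p| + 1))) hb (by positivity), ev_const a (ε / 2) (by positivity),
    eventually_ge_atTop (0 : ℝ)] with L h1 h2 h3
  have h4 : 0 ≤ log (1 + b * L) := Real.log_nonneg (by nlinarith)
  have h5 : p * log (1 + b * L) ≤ |p| * log (1 + b * L) := by
    apply mul_le_mul_of_nonneg_right (le_abs_self p) h4
  have h6 : |p| * log (1 + b * L) ≤ |p| * (ε / (2 * (|p| + 1)) * L) := by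
    apply mul_le_mul_of_nonneg_left h1 (abs_nonneg p)
  have h7 : |p| * (ε / (2 * (|p| + 1)) * L) ≤ ε / 2 * L := by
    have h8 : |p| * (ε / (2 * (|p| + 1))) ≤ ε / 2 := by
      have := abs_nonneg p
      rw [mul_div_assoc', div_le_div_iff₀ (by positivity) (by norm_num)]
      nlinarith
    nlinarith
  linarith

end SolGeom
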