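import Mathlib

namespace SolGeom

open Real Set MeasureTheory

/-- Averaging: if weighted closed intervals have total weighted length less than that of
`[u, v]`, some point of `[u, v]` has covering weight less than one. -/
theorem exists_light_point {ι : Type*} (s : Finset ι) (a r w : ι → ℝ)
    (hr : ∀ i ∈ s, 0 ≤ r i) (hw : ∀ i ∈ s, 0 ≤ w i) {u v : ℝ} (huv : u ≤ v)
    (h : ∑ i ∈ s, 2 * r i * w i < v - u) :
    ∃ x ∈ Icc u v, ∑ i ∈ s with |a i - x| ≤ r i, w i < 1 := by
  classical
  by_contra hcon
  push Not at hcon
  set f : ι → ℝ → ℝ := fun i => (Icc (a i - r i) (a i + r i)).indicator (fun _ => w i) with hf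
  have hint : ∀ i ∈ s, Integrable (f i) volume := by
    intro i _
    rw [hf]
    apply (integrable_indicator_iff measurableSet_Icc).mpr
    exact integrableOn_const (by simp [Real.volume_Icc])
  have hf0 : ∀ i ∈ s, ∀ x, 0 ≤ f i x := by
    intro i hi x
    exact Set.indicator_nonneg (fun _ _ => hw i hi) x
  have h1 : ∀ x ∈ Icc u v, (1 : ℝ) ≤ ∑ i ∈ s, f i x := by
    intro x hx
    refine (hcon x hx).trans (le_of_eq ?_)
    rw [Finset.sum_filter]
    apply Finset.sum_congr rfl
    intro i _
    simp only [hf, Set.indicator_apply]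
    congr 1
    rw [mem_Icc, abs_le]
    apply propext
    constructor
    · rintro ⟨h1, h2⟩; constructor <;> linarith
    · rintro ⟨h1, h2⟩; constructor <;> linarith
  have hsum : Integrable (fun x => ∑ i ∈ s, f i x) volume := integrable_finset_sum s hint
  have h2 : ∫ x in Icc u v, (1 : ℝ) ≤ ∫ x in Icc u v, ∑ i ∈ s, f i x := by
    apply setIntegral_mono_on
    · exact integrableOn_const (by simp [Real.volume_Icc])
    · exact hsum.integrableOn
    · exact measurableSet_Icc
    · exact h1
  have h3 : ∫ x in Icc u v, ∑ i ∈ s, f i x ≤ ∫ x, ∑ i ∈ s, f i x := by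
    apply setIntegral_le_integral hsum
    exact Filter.Eventually.of_forall (fun x => Finset.sum_nonneg (fun i hi => hf0 i hi x))
  rw [integral_finset_sum s hint] at h3
  have h4 : ∀ i ∈ s, ∫ x, f i x = 2 * r i * w i := by
    intro i hi
    simp only [hf]
    rw [integral_indicator_const _ measurableSet_Icc]
    rw [Measure.real, Real.volume_Icc, ENNReal.toReal_ofReal (by linarith [hr i hi])]
    rw [smul_eq_mul]; ring
  rw [Finset.sum_congr rfl h4] at h3
  have h5 : ∫ x in Icc u v, (1 : ℝ) = v - u := by
    rw [setIntegral_const, Measure.real, Real.volume_Icc, ENNReal.toReal_ofReal (by linarith)]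
    simp
  linarith

end SolGeom
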