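import Pool.Agent.H28.Sol.Cells

namespace SolGeom

open Real Set
open scoped MatrixGroups

/-- Fermi coordinates about the imaginary axis. -/
noncomputable def P₀ (s r : ℝ) : UpperHalfPlane :=
  UpperHalfPlane.mk ⟨exp s * (sinh r / cosh r), exp s / cosh r⟩
    (by have := Real.cosh_pos r; positivity)

@[simp] theorem P₀_re (s r : ℝ) : (P₀ s r).re = exp s * (sinh r / cosh r) := rfl
@[simp] theorem P₀_im (s r : ℝ) : (P₀ s r).im = exp s / cosh r := rfl

theorem cosh_dist_P₀ (s r s' r' : ℝ) : cosh (dist (P₀ s r) (P₀ s' r')) =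
    cosh (s - s') * cosh r * cosh r' - sinh r * sinh r' := by
  rw [cosh_dist_eq, P₀_re, P₀_im, P₀_re, P₀_im]
  have h1 := Real.cosh_pos r
  have h2 := Real.cosh_pos r'
  have h3 := Real.exp_pos s
  have h4 := Real.exp_pos s'
  have h5 : sinh r ^ 2 = cosh r ^ 2 - 1 := by rw [Real.cosh_sq]; ring
  have h6 : sinh r' ^ 2 = cosh r' ^ 2 - 1 := by rw [Real.cosh_sq]; ring
  have h7 : cosh (s - s') = (exp s / exp s' + exp s' / exp s) / 2 := by
    rw [Real.cosh_eq, neg_sub, Real.exp_sub, Real.exp_sub]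
  rw [h7]
  field_simp
  ring_nf
  rw [h5, h6]
  ring

theorem exists_P₀ (w : UpperHalfPlane) : ∃ s r, w = P₀ s r := by
  have him := w.im_pos
  refine ⟨log √(w.re ^ 2 + w.im ^ 2), arsinh (w.re / w.im), ?_⟩
  have h1 : 0 < w.re ^ 2 + w.im ^ 2 := by positivity
  have h2 : 0 < √(w.re ^ 2 + w.im ^ 2) := Real.sqrt_pos.mpr h1
  have h3 : √(1 + (w.re / w.im) ^ 2) = √(w.re ^ 2 + w.im ^ 2) / w.im := by
    have : 1 + (w.re / w.im) ^ 2 = (w.re ^ 2 + w.im ^ 2) / w.im ^ 2 := by
      field_simp; ring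
    rw [this, Real.sqrt_div h1.le, Real.sqrt_sq him.le]
  apply UpperHalfPlane.ext_re_im
  · rw [P₀_re, Real.exp_log h2, Real.sinh_arsinh, Real.cosh_arsinh, h3]
    field_simp
  · rw [P₀_im, Real.exp_log h2, Real.cosh_arsinh, h3]
    field_simp

/-- Rotation about `i` which moves `w` to the imaginary axis. -/
theorem exists_rotation (w : UpperHalfPlane) : ∃ g : SL(2, ℝ), g • UpperHalfPlane.I =
    UpperHalfPlane.I ∧ (g • w).re = 0 := by
  set u : ℂ := ⟨w.re ^ 2 + w.im ^ 2 - 1, 2 * w.re⟩ with hu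
  set α := Complex.arg u with hα
  set c := Real.cos (α / 2) with hc
  set s := Real.sin (α / 2) with hs
  have hcs : c ^ 2 + s ^ 2 = 1 := Real.cos_sq_add_sin_sq _
  have h1 : ‖u‖ * Real.cos α = w.re ^ 2 + w.im ^ 2 - 1 := Complex.norm_mul_cos_arg u
  have h2 : ‖u‖ * Real.sin α = 2 * w.re := Complex.norm_mul_sin_arg u
  have h3 : Real.cos α = c ^ 2 - s ^ 2 := by
    have : α = 2 * (α / 2) := by ring
    rw [this, Real.cos_two_mul']
  have h4 : Real.sin α = 2 * s * c := by
    have : α = 2 * (α / 2) := by ring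
    rw [this, Real.sin_two_mul]
  have key : c * s * (1 - (w.re ^ 2 + w.im ^ 2)) + (c ^ 2 - s ^ 2) * w.re = 0 := by
    have h5 : 2 * (c * s * (1 - (w.re ^ 2 + w.im ^ 2)) + (c ^ 2 - s ^ 2) * w.re) = 0 := by
      calc 2 * (c * s * (1 - (w.re ^ 2 + w.im ^ 2)) + (c ^ 2 - s ^ 2) * w.re)
          = Real.sin α * (-(w.re ^ 2 + w.im ^ 2 - 1)) + Real.cos α * (2 * w.re) := by
            rw [h3, h4]; ring
        _ = 0 := by rw [← h1, ← h2]; ring
    linarith
  have hdet : Matrix.det !![c, s; -s, c] = 1 := by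
    rw [Matrix.det_fin_two_of]; linarith
  refine ⟨⟨!![c, s; -s, c], hdet⟩, ?_, ?_⟩
  · apply UpperHalfPlane.ext
    rw [UpperHalfPlane.coe_specialLinearGroup_apply]
    simp
    rw [div_eq_iff]
    · ring_nf
      simp
    · intro h0
      have hre := congrArg Complex.re h0
      have him := congrArg Complex.im h0
      simp at hre him
      rw [hre, him] at hcs
      norm_num at hcs
  · rw [← UpperHalfPlane.coe_re, UpperHalfPlane.coe_specialLinearGroup_apply]
    simp
    rw [Complex.div_re]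
    simp
    rw [← add_div, div_eq_zero_iff]
    left
    linear_combination key

/-- Fermi coordinates about the geodesic through two points. -/
theorem exists_fermi (za zb : UpperHalfPlane) : ∃ P : ℝ → ℝ → UpperHalfPlane,
    P 0 0 = za ∧ P (dist za zb) 0 = zb ∧
    (∀ s r s' r', cosh (dist (P s r) (P s' r')) =
      cosh (s - s') * cosh r * cosh r' - sinh r * sinh r') ∧
    (∀ z, ∃ s r, z = P s r) := by
  obtain ⟨g₁, hg₁⟩ := MulAction.exists_smul_eq SL(2, ℝ) UpperHalfPlane.I za
  obtain ⟨k, hk1, hk2⟩ := exists_rotation (g₁⁻¹ • zb)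
  set w' := k • (g₁⁻¹ • zb) with hw'
  have hI : P₀ 0 0 = UpperHalfPlane.I := by
    apply UpperHalfPlane.ext_re_im
    · simp
    · simp
  set g := g₁ * k⁻¹ with hg
  have hgI : g • UpperHalfPlane.I = za := by
    rw [hg, mul_smul]
    have : k⁻¹ • UpperHalfPlane.I = UpperHalfPlane.I := by
      rw [inv_smul_eq_iff, hk1]
    rw [this, hg₁]
  have hgw : g • w' = zb := by
    rw [hg, hw', mul_smul, inv_smul_smul, smul_inv_smul]
  have hdist : dist za zb = dist UpperHalfPlane.I w' := by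
    rw [← hgI, ← hgw, dist_smul]
  have hlog : dist za zb = |log w'.im| := by
    rw [hdist, UpperHalfPlane.dist_of_re_eq (by rw [hk2]; simp)]
    simp [Real.dist_eq]
  have hP : w' = P₀ (log w'.im) 0 := by
    apply UpperHalfPlane.ext_re_im
    · rw [hk2]; simp
    · rw [P₀_im, Real.exp_log w'.im_pos]; simp
  have hsurj : ∀ z, ∃ s r, z = g • P₀ s r := by
    intro z
    obtain ⟨s, r, h⟩ := exists_P₀ (g⁻¹ • z)
    exact ⟨s, r, by rw [← h, smul_inv_smul]⟩
  rcases le_total 0 (log w'.im) with h0 | h0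
  · rw [abs_of_nonneg h0] at hlog
    refine ⟨fun s r => g • P₀ s r, ?_, ?_, ?_, hsurj⟩
    · simp only; rw [hI, hgI]
    · simp only; rw [hlog, ← hP, hgw]
    · intro s r s' r'
      rw [dist_smul, cosh_dist_P₀]
  · rw [abs_of_nonpos h0] at hlog
    refine ⟨fun s r => g • P₀ (-s) r, ?_, ?_, ?_, ?_⟩
    · simp only; rw [neg_zero, hI, hgI]
    · simp only; rw [hlog, neg_neg, ← hP, hgw]
    · intro s r s' r'
      rw [dist_smul, cosh_dist_P₀]
      congr 2
      rw [← Real.cosh_neg]; ring_nf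
    · intro z
      obtain ⟨s, r, h⟩ := hsurj z
      exact ⟨-s, r, by simp only; rw [neg_neg]; exact h⟩

section Fermi

variable {P : ℝ → ℝ → UpperHalfPlane}
  (hP : ∀ s r s' r', cosh (dist (P s r) (P s' r')) =
      cosh (s - s') * cosh r * cosh r' - sinh r * sinh r')

include hP

theorem fermi_abs_r_le (s r s' r' : ℝ) : |r - r'| ≤ dist (P s r) (P s' r') := by
  have h1 : cosh (r - r') ≤ cosh (dist (P s r) (P s' r')) := by
    rw [hP, Real.cosh_sub]
    have h2 := Real.one_le_cosh (s - s')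
    have h3 := mul_pos (Real.cosh_pos r) (Real.cosh_pos r')
    nlinarith
  rw [Real.cosh_le_cosh, abs_of_nonneg (dist_nonneg : 0 ≤ dist (P s r) (P s' r'))] at h1
  exact h1

theorem fermi_dist_same_s (s r r' : ℝ) : dist (P s r) (P s r') = |r - r'| := by
  have h1 : cosh (dist (P s r) (P s r')) = cosh (r - r') := by
    rw [hP, sub_self, Real.cosh_zero, Real.cosh_sub]; ring
  have h2 := (Real.cosh_le_cosh.mp h1.le)
  have h3 := (Real.cosh_le_cosh.mp h1.ge)
  rw [abs_of_nonneg dist_nonneg] at h2 h3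
  exact le_antisymm h2 h3

theorem fermi_dist_zero (s s' : ℝ) : dist (P s 0) (P s' 0) = |s - s'| := by
  have h1 : cosh (dist (P s 0) (P s' 0)) = cosh (s - s') := by
    rw [hP]; simp
  have h2 := (Real.cosh_le_cosh.mp h1.le)
  have h3 := (Real.cosh_le_cosh.mp h1.ge)
  rw [abs_of_nonneg dist_nonneg] at h2 h3
  exact le_antisymm h2 h3

/-- The horizontal grid steps are short if the spacing is small. -/
theorem fermi_small_step (R : ℝ) (hR : 0 ≤ R) : ∃ δ > 0, ∀ s s' r, |s - s'| ≤ δ → |r| ≤ R →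
    dist (P s r) (P s' r) ≤ 1 := by
  have hcont : Filter.Tendsto (fun δ : ℝ => (cosh δ - 1) * cosh R ^ 2) (nhds 0) (nhds 0) := by
    have : Continuous (fun δ : ℝ => (cosh δ - 1) * cosh R ^ 2) := by fun_prop
    have h := this.tendsto 0
    simpa using h
  have hev := hcont.eventually (gt_mem_nhds (show (0 : ℝ) < 1 / 2 by norm_num))
  obtain ⟨ε, hε, hball⟩ := Metric.eventually_nhds_iff.mp hev
  refine ⟨ε / 2, by positivity, ?_⟩
  intro s s' r hs hr
  have h1 : (cosh (ε / 2) - 1) * cosh R ^ 2 < 1 / 2 := by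
    apply hball
    rw [dist_zero_right, Real.norm_eq_abs, abs_of_pos (by positivity)]
    linarith
  have h2 : cosh (s - s') ≤ cosh (ε / 2) := by
    rw [Real.cosh_le_cosh, abs_of_pos (show 0 < ε / 2 by positivity)]
    exact hs
  have h3 : cosh r ≤ cosh R := by
    rw [Real.cosh_le_cosh, abs_of_nonneg hR]
    exact hr
  have h4 : cosh (dist (P s r) (P s' r)) ≤ cosh 1 := by
    have h5 : cosh (dist (P s r) (P s' r)) = 1 + (cosh (s - s') - 1) * cosh r ^ 2 := by
      rw [hP]
      have : sinh r ^ 2 = cosh r ^ 2 - 1 := by rw [Real.cosh_sq]; ring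
      linear_combination -this
    rw [h5]
    have h6 : (cosh (s - s') - 1) * cosh r ^ 2 ≤ (cosh (ε / 2) - 1) * cosh R ^ 2 := by
      have h7 := Real.one_le_cosh (s - s')
      have h8 := Real.cosh_pos r
      have h9 : 0 ≤ cosh (ε / 2) - 1 := by linarith
      gcongr
    have := three_halves_le_cosh_one
    linarith
  rw [Real.cosh_le_cosh, abs_of_nonneg dist_nonneg, abs_of_nonneg zero_le_one] at h4
  exact h4

end Fermi

/-- Any two points are joined by a chain of unit steps. -/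
theorem exists_chain (z w : UpperHalfPlane) : ∃ u : ℕ → UpperHalfPlane, u 0 = z ∧
    (∀ n : ℕ, dist z w ≤ n → u n = w) ∧ (∀ i, dist (u i) (u (i + 1)) ≤ 1) ∧
    (∀ i, dist z (u i) ≤ dist z w) := by
  obtain ⟨P, h0, h1, hP, _⟩ := exists_fermi z w
  refine ⟨fun i => P (min (i : ℝ) (dist z w)) 0, ?_, ?_, ?_, ?_⟩
  · simp only [Nat.cast_zero]
    rw [min_eq_left dist_nonneg, h0]
  · intro n hn
    simp only
    rw [min_eq_right hn, h1]
  · intro i
    rw [fermi_dist_zero hP]
    push_cast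
    rw [abs_le]
    have hd : 0 ≤ dist z w := dist_nonneg
    rcases le_total (i : ℝ) (dist z w) with h | h
    · rw [min_eq_left h]
      rcases le_total ((i : ℝ) + 1) (dist z w) with h' | h'
      · rw [min_eq_left h']; constructor <;> linarith
      · rw [min_eq_right h']; constructor <;> linarith
    · rw [min_eq_right h, min_eq_right (by linarith)]; constructor <;> linarith
  · intro i
    have : dist z (P (min (i : ℝ) (dist z w)) 0) = |0 - min (i : ℝ) (dist z w)| := by
      conv_lhs => rw [← h0]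
      rw [fermi_dist_zero hP, h0]
    rw [this, zero_sub, abs_neg, abs_of_nonneg (by positivity)]
    exact min_le_right _ _

end SolGeom
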