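import Pool.Agent.H28.Sol.Growth
import Pool.Agent.H28.Sol.Geo

namespace SolGeom

namespace Data

open Real Set Filter

variable (S : Data)

/-- Counting cells at height about `H'` in a region of controlled size. -/
theorem count_region (Q : Finset Cell) (H' n X₀ Y₀ : ℝ) (hn : 1 ≤ n)
    (hh : ∀ q ∈ Q, H' ≤ S.hc q ∧ S.hc q ≤ H' + 2 * S.K)
    (hx : ∀ q ∈ Q, |S.xc q - X₀| ≤ n * S.A * exp (-S.m₀))
    (hy : ∀ q ∈ Q, |S.yc q - Y₀| ≤ n * S.A * exp (H' + 2 * S.K)) :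
    (Q.card : ℝ) ≤ (2 * n * S.A * exp (H' - S.m₀) + 2) * Phi (S.rD n) := by
  have hA := S.A_pos
  have hA1 := S.one_le_A
  have h1 := xbox Q S.xc X₀ (n * S.A * exp (-S.m₀)) (exp (-H')) (S.rD n) (by positivity)
    (Real.exp_pos _) (S.rD_nonneg (by linarith)) hx (by
      intro c hc c' hc' hd
      have y1 := hy c hc
      have y2 := hy c' hc'
      have hyy : |S.y (pt c) - S.y (pt c')| ≤ (2 * n * S.A) * exp (H' + 2 * S.K) := by
        calc |S.y (pt c) - S.y (pt c')| = |S.yc c - S.yc c'| := rfl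
          _ ≤ |S.yc c - Y₀| + |Y₀ - S.yc c'| := abs_sub_le _ _ _
          _ ≤ n * S.A * exp (H' + 2 * S.K) + n * S.A * exp (H' + 2 * S.K) := by
              rw [abs_sub_comm Y₀]; linarith
          _ = _ := by ring
      have hN1 : 1 ≤ 2 * n * S.A := by nlinarith
      have h2 := S.dist_le (pt c) (pt c') H' (H' + 2 * S.K) (2 * n * S.A) (hh c hc).1 (hh c' hc').1
        (hh c hc).2 (hh c' hc').2 (by linarith) (by
          refine hd.trans ?_
          have := Real.exp_pos (-H')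
          nlinarith) hyy
      refine h2.trans (le_of_eq ?_)
      unfold rD; ring)
  refine h1.trans (le_of_eq ?_)
  congr 1
  congr 1
  rw [sub_eq_add_neg H', Real.exp_add, Real.exp_neg H']
  field_simp

theorem two_rD (n : ℝ) : 2 * S.rD n = 2 * (S.K * (4 * S.K + 1)) + 8 * S.K * log (1 + (2 * S.A) * n) := by
  unfold rD
  have : 1 + 2 * n * S.A = 1 + 2 * S.A * n := by ring
  rw [this]; ring

/-- The leaves below a cell in a ball about a low cell. -/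
theorem leaf_region {c₀ c q : Cell} {H' R n : ℝ} (hd : dist (pt c₀) (pt c) ≤ R)
    (hR : S.hc c₀ + S.K * (R + 1) < H') (hq : q ∈ S.Leaves c H')
    (hn : R + 1 + (8 * S.K * (H' - S.m₀) + S.C₂ + 1) ≤ n) :
    (H' ≤ S.hc q ∧ S.hc q ≤ H' + 2 * S.K) ∧ |S.xc q - S.xc c₀| ≤ n * S.A * exp (-S.m₀) ∧
    |S.yc q - S.yc c₀| ≤ n * S.A * exp (H' + 2 * S.K) := by
  have hK := S.K_pos
  have hA := S.A_pos
  obtain ⟨u, hu0, hu1, hu2, hu3⟩ := exists_chain (pt c₀) (pt c)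
  obtain ⟨n₁, hn₁⟩ : ∃ n₁ : ℕ, n₁ = ⌈dist (pt c₀) (pt c)⌉₊ := ⟨_, rfl⟩
  have hn1a : dist (pt c₀) (pt c) ≤ n₁ := by rw [hn₁]; exact Nat.le_ceil _
  have hn1b : (n₁ : ℝ) ≤ R + 1 := by
    have : (n₁ : ℝ) < dist (pt c₀) (pt c) + 1 := by rw [hn₁]; exact Nat.ceil_lt_add_one dist_nonneg
    linarith
  have hun := hu1 n₁ hn1a
  have hlt : ∀ z, dist (pt c₀) z ≤ R → S.h z < H' := by
    intro z hz
    have h1 := abs_le.mp (S.hlip (pt c₀) z)
    have h2 : S.K * (dist (pt c₀) z + 1) ≤ S.K * (R + 1) := by gcongr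
    have h3 : S.h (pt c₀) = S.hc c₀ := rfl
    linarith [h1.1]
  have hcH : S.hc c < H' := hlt _ hd
  have hx1 := S.chain_x u n₁ (fun i _ => hu2 i) S.m₀ (fun i _ => S.floor _)
  have hy1 := S.chain_y u n₁ (fun i _ => hu2 i) (H' + 2 * S.K) (fun i _ => by
    have := hlt (u i) ((hu3 i).trans hd); linarith)
  rw [hu0, hun] at hx1 hy1
  have hqH := S.leaf_height_le hq hcH
  obtain ⟨m, hm1, hm2, hm3⟩ := hq
  have hmD := S.leaf_depth hm3 S.m₀ (fun _ _ _ => S.floor_c _) ((S.floor_c c).trans hcH.le)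
  have hx2 := S.path_x q m S.m₀ (fun _ _ => S.floor_c _)
  have hy2 := S.path_y q m (H' + 2 * S.K) (by
    intro i hi
    rcases Nat.eq_zero_or_pos i with h | h
    · subst h; exact hqH.le
    · linarith [hm3 i h hi.le])
  rw [hm1] at hx2 hy2
  have hsum : (n₁ : ℝ) + m ≤ n := by linarith
  refine ⟨⟨hm2, hqH.le⟩, ?_, ?_⟩
  · calc |S.xc q - S.xc c₀| ≤ |S.xc q - S.xc c| + |S.xc c - S.xc c₀| := abs_sub_le _ _ _
      _ ≤ m * S.A * exp (-S.m₀) + n₁ * S.A * exp (-S.m₀) := by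
          rw [abs_sub_comm (S.xc c)]
          exact add_le_add hx2 hx1
      _ = (n₁ + m) * (S.A * exp (-S.m₀)) := by ring
      _ ≤ n * (S.A * exp (-S.m₀)) := by gcongr
      _ = _ := by ring
  · calc |S.yc q - S.yc c₀| ≤ |S.yc q - S.yc c| + |S.yc c - S.yc c₀| := abs_sub_le _ _ _
      _ ≤ m * S.A * exp (H' + 2 * S.K) + n₁ * S.A * exp (H' + 2 * S.K) := by
          rw [abs_sub_comm (S.yc c)]
          exact add_le_add hy2 hy1
      _ = (n₁ + m) * (S.A * exp (H' + 2 * S.K)) := by ring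
      _ ≤ n * (S.A * exp (H' + 2 * S.K)) := by gcongr
      _ = _ := by ring

/-- The sum of `e^{-h}` over a ball about a low cell. -/
theorem ball_sum (C₀ ε : ℝ) (hC₀ : 0 < C₀) (hε : 0 < ε) : ∀ᶠ L in atTop, ∀ c₀ : Cell,
    S.hc c₀ ≤ S.m₀ + 2 * S.K + 1 → ∀ F : Finset Cell,
    (∀ c ∈ F, dist (pt c₀) (pt c) ≤ C₀ * L) →
    ∑ c ∈ F, exp (-S.hc c) ≤ exp (-S.m₀ + ε * L) := by
  classical
  have hK := S.K_pos
  have hA := S.A_pos
  have hA1 := S.one_le_A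
  have hC₂ := S.C₂_nonneg
  obtain ⟨C₁, hC₁⟩ : ∃ C₁, C₁ = S.K * C₀ + 1 := ⟨_, rfl⟩
  have hC₁0 : 0 < C₁ := by rw [hC₁]; positivity
  obtain ⟨C₃, hC₃⟩ : ∃ C₃, C₃ = C₀ + 8 * S.K * C₁ + 1 := ⟨_, rfl⟩
  have hC₃0 : 0 < C₃ := by rw [hC₃]; positivity
  obtain ⟨ε₀, hε₀⟩ : ∃ ε₀, ε₀ = ε / (4 * C₁) := ⟨_, rfl⟩
  have hε₀0 : 0 < ε₀ := by rw [hε₀]; positivity
  have hε₀C : ε₀ * C₁ = ε / 4 := by rw [hε₀]; field_simp
  obtain ⟨κ, hκ⟩ : ∃ κ, κ = max 0 (1 - ε₀) := ⟨_, rfl⟩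
  have hκ0 : 0 ≤ κ := by rw [hκ]; exact le_max_left _ _
  have hκε : 1 - κ ≤ ε₀ := by rw [hκ]; linarith [le_max_right 0 (1 - ε₀)]
  have hκ1 : κ < 1 := by rw [hκ]; exact max_lt one_pos (by linarith)
  obtain ⟨c₁, hc₁, hG⟩ := S.growth κ hκ1
  filter_upwards [eventually_gt_atTop (3 * S.K + 1), eventually_ge_atTop (S.C₂ + 2),
    eventually_ge_atTop (1 / (C₃ * S.A)), eventually_ge_atTop (1 / C₃),
    ev_aff (log (80 * S.A / c₁)) 1 (4 * C₀) (ε / 4) (by positivity) (by positivity),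
    ev_log C₃ (ε / 4) hC₃0 (by positivity),
    ev_aff (2 * (S.K * (4 * S.K + 1))) (8 * S.K) (2 * S.A * C₃) (ε / 4) (by positivity)
      (by positivity)] with L l1 l2 l3 l3' l4 l5 l6
  intro c₀ hc₀ F hF
  have hL0 : 0 < L := by linarith
  obtain ⟨H', hH'⟩ : ∃ H', H' = S.m₀ + C₁ * L := ⟨_, rfl⟩
  have hR : S.hc c₀ + S.K * (C₀ * L + 1) < H' := by
    rw [hH', hC₁]; linarith
  have hn : C₀ * L + 1 + (8 * S.K * (H' - S.m₀) + S.C₂ + 1) ≤ C₃ * L := by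
    rw [hH', hC₃]; linarith
  have hn1 : 1 ≤ C₃ * L := by
    rw [div_le_iff₀ hC₃0] at l3'; linarith
  have hFlt : ∀ c ∈ F, S.hc c < H' := by
    intro c hc
    have h1 := abs_le.mp (S.hlip (pt c₀) (pt c))
    have h2 : S.K * (dist (pt c₀) (pt c) + 1) ≤ S.K * (C₀ * L + 1) := by
      have := hF c hc
      gcongr
    have h3 : S.h (pt c₀) = S.hc c₀ := rfl
    have h4 : S.h (pt c) = S.hc c := rfl
    linarith [h1.1]
  obtain ⟨Q, hQ⟩ : ∃ Q : Finset Cell, Q = F.biUnion (fun c => S.lv c H') := ⟨_, rfl⟩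
  have hQmem : ∀ q ∈ Q, ∃ c ∈ F, q ∈ S.Leaves c H' := by
    intro q hq
    rw [hQ, Finset.mem_biUnion] at hq
    obtain ⟨c, hc, hq⟩ := hq
    exact ⟨c, hc, by simpa using hq⟩
  have hQcard : (Q.card : ℝ) ≤ (2 * (C₃ * L) * S.A * exp (H' - S.m₀) + 2) * Phi (S.rD (C₃ * L)) := by
    apply S.count_region Q H' (C₃ * L) (S.xc c₀) (S.yc c₀) hn1
    · intro q hq
      obtain ⟨c, hc, hq⟩ := hQmem q hq
      exact (S.leaf_region (hF c hc) hR hq hn).1
    · intro q hq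
      obtain ⟨c, hc, hq⟩ := hQmem q hq
      exact (S.leaf_region (hF c hc) hR hq hn).2.1
    · intro q hq
      obtain ⟨c, hc, hq⟩ := hQmem q hq
      exact (S.leaf_region (hF c hc) hR hq hn).2.2
  have hsumN : ∑ c ∈ F, (S.N c H' : ℝ) ≤ (4 * C₀ * L + 1) * Q.card := by
    have h1 := S.sum_N_level_le F Q H' (Finset.Icc (c₀.1 - ⌊2 * C₀ * L⌋) (c₀.1 + ⌊2 * C₀ * L⌋)) (by
      intro c hc
      have h2 := (level_diff_le c₀ c).trans (hF c hc)
      have h3 : |((c₀.1 : ℝ) - c.1)| ≤ 2 * C₀ * L := by linarith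
      rw [abs_le] at h3
      have h4 : c₀.1 - c.1 ≤ ⌊2 * C₀ * L⌋ := by rw [Int.le_floor]; push_cast; linarith [h3.2]
      have h5 : c.1 - c₀.1 ≤ ⌊2 * C₀ * L⌋ := by rw [Int.le_floor]; push_cast; linarith [h3.1]
      rw [Finset.mem_Icc]
      constructor <;> omega) (by
      intro c hc q hq
      rw [hQ]
      simp only [Finset.coe_biUnion, Set.mem_iUnion]
      exact ⟨c, hc, by simpa using hq⟩)
    refine h1.trans ?_
    have h13 : (0 : ℤ) ≤ ⌊2 * C₀ * L⌋ := Int.floor_nonneg.mpr (by positivity)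
    have h14 : (((Finset.Icc (c₀.1 - ⌊2 * C₀ * L⌋) (c₀.1 + ⌊2 * C₀ * L⌋)).card : ℤ) : ℝ)
        ≤ 4 * C₀ * L + 1 := by
      rw [Int.card_Icc, Int.toNat_of_nonneg (by omega)]
      push_cast
      have := Int.floor_le (2 * C₀ * L)
      linarith
    have h15 : ((Finset.Icc (c₀.1 - ⌊2 * C₀ * L⌋) (c₀.1 + ⌊2 * C₀ * L⌋)).card : ℝ)
        ≤ 4 * C₀ * L + 1 := by exact_mod_cast h14
    gcongr
  have hterm : ∀ c ∈ F, exp (-S.hc c) ≤ (c₁⁻¹ * exp (-((1 - κ) * S.m₀) - κ * H')) * S.N c H' := by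
    intro c hc
    have h5 := hG.apply hκ0 hc₁ c H' (S.hc c) le_rfl (hFlt c hc).le
    have h7 := S.floor_c c
    calc exp (-S.hc c) ≤ exp (-((1 - κ) * S.m₀) - κ * H') * exp (κ * (H' - S.hc c)) := by
          rw [← Real.exp_add]
          apply Real.exp_le_exp.mpr
          have h8 : (1 - κ) * S.m₀ ≤ (1 - κ) * S.hc c := by
            have : 0 ≤ 1 - κ := by linarith
            gcongr
          linarith
      _ = (c₁⁻¹ * exp (-((1 - κ) * S.m₀) - κ * H')) * (c₁ * exp (κ * (H' - S.hc c))) := by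
          field_simp
      _ ≤ _ := by gcongr
  have hbig : 2 * (C₃ * L) * S.A * exp (H' - S.m₀) + 2 ≤ 4 * (C₃ * L) * S.A * exp (C₁ * L) := by
    have h1 : H' - S.m₀ = C₁ * L := by rw [hH']; ring
    have h2 : 1 ≤ exp (C₁ * L) := Real.one_le_exp (by positivity)
    have h3 : 1 ≤ (C₃ * L) * S.A := by
      have : 1 * 1 ≤ (C₃ * L) * S.A := mul_le_mul hn1 hA1 zero_le_one (by linarith)
      linarith
    have h4 : 1 * 1 ≤ ((C₃ * L) * S.A) * exp (C₁ * L) :=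
      mul_le_mul h3 h2 zero_le_one (by linarith)
    rw [h1]; linarith
  calc ∑ c ∈ F, exp (-S.hc c)
      ≤ ∑ c ∈ F, (c₁⁻¹ * exp (-((1 - κ) * S.m₀) - κ * H')) * S.N c H' := Finset.sum_le_sum hterm
    _ = (c₁⁻¹ * exp (-((1 - κ) * S.m₀) - κ * H')) * ∑ c ∈ F, (S.N c H' : ℝ) := by
        rw [← Finset.mul_sum]
    _ ≤ (c₁⁻¹ * exp (-((1 - κ) * S.m₀) - κ * H')) * ((4 * C₀ * L + 1) *
          ((4 * (C₃ * L) * S.A * exp (C₁ * L)) * Phi (S.rD (C₃ * L)))) := by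
        have hP := Phi_pos (S.rD (C₃ * L))
        gcongr
        refine hsumN.trans ?_
        gcongr
        refine hQcard.trans ?_
        gcongr
    _ = exp (log (80 * S.A / c₁) + 1 * log (1 + 4 * C₀ * L) + log (C₃ * L) + 2 * S.rD (C₃ * L)
          + C₁ * L + (-((1 - κ) * S.m₀) - κ * H')) := by
        rw [Real.exp_add, Real.exp_add, Real.exp_add, Real.exp_add, Real.exp_add, one_mul,
          Real.exp_log (by positivity), Real.exp_log (by positivity), Real.exp_log (by positivity)]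
        unfold Phi
        field_simp
        ring
    _ ≤ exp (-S.m₀ + ε * L) := by
        apply Real.exp_le_exp.mpr
        rw [S.two_rD]
        have h1 : C₁ * L + (-((1 - κ) * S.m₀) - κ * H') = -S.m₀ + (1 - κ) * (C₁ * L) := by
          rw [hH']; ring
        have h2 : (1 - κ) * (C₁ * L) ≤ ε / 4 * L := by
          calc (1 - κ) * (C₁ * L) ≤ ε₀ * (C₁ * L) := by gcongr
            _ = (ε₀ * C₁) * L := by ring
            _ = ε / 4 * L := by rw [hε₀C]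
        have h3 : log (C₃ * L) ≤ log (1 + C₃ * L) := Real.log_le_log (by positivity) (by linarith)
        have h4 : 1 + 2 * S.A * (C₃ * L) = 1 + 2 * S.A * C₃ * L := by ring
        rw [h4]
        linarith

end Data

end SolGeom
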