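import Pool.Agent.H28.Sol.Defs

namespace SolGeom

open Real Set MeasureTheory intervalIntegral

theorem speed_cont {a b c : ℝ → ℝ} (ha : ContDiff ℝ 1 a) (hb : ContDiff ℝ 1 b)
    (hc : ContDiff ℝ 1 c) :
    Continuous (fun s => √(Real.exp (2 * c s) * (deriv a s) ^ 2
    + Real.exp (-(2 * c s)) * (deriv b s) ^ 2 + (deriv c s) ^ 2)) := by
  have h1 := ha.continuous_deriv le_rfl
  have h2 := hb.continuous_deriv le_rfl
  have h3 := hc.continuous_deriv le_rfl
  have h4 := hc.continuous
  fun_prop

theorem curve_bounds {a b c : ℝ → ℝ} (ha : ContDiff ℝ 1 a) (hb : ContDiff ℝ 1 b)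
    (hc : ContDiff ℝ 1 c) :
    0 ≤ curveLength a b c ∧ |c 1 - c 0| ≤ curveLength a b c ∧
    |a 1 - a 0| ≤ curveLength a b c * exp (curveLength a b c) * exp (-(c 0)) ∧
    |b 1 - b 0| ≤ curveLength a b c * exp (curveLength a b c) * exp (c 0) := by
  set g : ℝ → ℝ := (fun s => √(Real.exp (2 * c s) * (deriv a s) ^ 2
    + Real.exp (-(2 * c s)) * (deriv b s) ^ 2 + (deriv c s) ^ 2)) with hg
  have hgc : Continuous g := speed_cont ha hb hc
  have hg0 : ∀ s, 0 ≤ g s := fun s => Real.sqrt_nonneg _
  have hL : curveLength a b c = ∫ s in (0:ℝ)..1, g s := rfl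
  have hint : ∀ u v, IntervalIntegrable g volume u v := fun u v => hgc.intervalIntegrable u v
  have hc' : ∀ s, |deriv c s| ≤ g s := by
    intro s
    apply Real.abs_le_sqrt
    have := Real.exp_pos (2 * c s)
    have := Real.exp_pos (-(2 * c s))
    nlinarith [mul_nonneg (Real.exp_pos (2 * c s)).le (sq_nonneg (deriv a s)),
      mul_nonneg (Real.exp_pos (-(2 * c s))).le (sq_nonneg (deriv b s))]
  have ha' : ∀ s, |deriv a s| ≤ exp (-(c s)) * g s := by
    intro s
    have h1 : |exp (c s) * deriv a s| ≤ g s := by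
      apply Real.abs_le_sqrt
      have : (exp (c s) * deriv a s)^2 = exp (2 * c s) * (deriv a s)^2 := by
        rw [mul_pow, two_mul, Real.exp_add]; ring
      rw [this]
      nlinarith [mul_nonneg (Real.exp_pos (-(2 * c s))).le (sq_nonneg (deriv b s)),
        sq_nonneg (deriv c s)]
    rw [abs_mul, abs_of_pos (Real.exp_pos _)] at h1
    have h2 : |deriv a s| = exp (-(c s)) * (exp (c s) * |deriv a s|) := by
      rw [← mul_assoc, ← Real.exp_add]; simp
    rw [h2]
    exact mul_le_mul_of_nonneg_left h1 (Real.exp_pos _).le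
  have hb' : ∀ s, |deriv b s| ≤ exp (c s) * g s := by
    intro s
    have h1 : |exp (-(c s)) * deriv b s| ≤ g s := by
      apply Real.abs_le_sqrt
      have : (exp (-(c s)) * deriv b s)^2 = exp (-(2 * c s)) * (deriv b s)^2 := by
        rw [mul_pow, two_mul, neg_add, Real.exp_add]; ring
      rw [this]
      nlinarith [mul_nonneg (Real.exp_pos ((2 * c s))).le (sq_nonneg (deriv a s)),
        sq_nonneg (deriv c s)]
    rw [abs_mul, abs_of_pos (Real.exp_pos _)] at h1
    have h2 : |deriv b s| = exp ((c s)) * (exp (-(c s)) * |deriv b s|) := by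
      rw [← mul_assoc, ← Real.exp_add]; simp
    rw [h2]
    exact mul_le_mul_of_nonneg_left h1 (Real.exp_pos _).le
  have hLs : ∀ s ∈ Set.Icc (0:ℝ) 1, |c s - c 0| ≤ curveLength a b c := by
    intro s hs
    have h1 : ∫ u in (0:ℝ)..s, deriv c u = c s - c 0 := by
      apply integral_deriv_eq_sub
      · intro x _
        exact (hc.differentiable one_ne_zero) x
      · exact (hc.continuous_deriv le_rfl).intervalIntegrable _ _
    rw [← h1]
    calc |∫ u in (0:ℝ)..s, deriv c u| ≤ ∫ u in (0:ℝ)..s, |deriv c u| :=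
          abs_integral_le_integral_abs hs.1
      _ ≤ ∫ u in (0:ℝ)..s, g u := by
          apply integral_mono_on hs.1
          · exact ((hc.continuous_deriv le_rfl).abs).intervalIntegrable _ _
          · exact hint _ _
          · intro x _; exact hc' x
      _ ≤ ∫ u in (0:ℝ)..1, g u := by
          apply integral_mono_interval le_rfl hs.1 hs.2
          · exact Filter.Eventually.of_forall (fun x => hg0 x)
          · exact hint _ _
  have hL0 : 0 ≤ curveLength a b c := by
    rw [hL]; exact integral_nonneg zero_le_one (fun x _ => hg0 x)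
  refine ⟨hL0, hLs 1 ⟨zero_le_one, le_rfl⟩, ?_, ?_⟩
  · have h1 : ∫ u in (0:ℝ)..1, deriv a u = a 1 - a 0 := by
      apply integral_deriv_eq_sub
      · intro x _
        exact (ha.differentiable one_ne_zero) x
      · exact (ha.continuous_deriv le_rfl).intervalIntegrable _ _
    rw [← h1]
    calc |∫ u in (0:ℝ)..1, deriv a u| ≤ ∫ u in (0:ℝ)..1, |deriv a u| :=
          abs_integral_le_integral_abs zero_le_one
      _ ≤ ∫ u in (0:ℝ)..1, (exp (curveLength a b c) * exp (-(c 0))) * g u := by
          apply integral_mono_on zero_le_one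
          · exact ((ha.continuous_deriv le_rfl).abs).intervalIntegrable _ _
          · exact (hint _ _).const_mul _
          · intro x hx
            refine (ha' x).trans ?_
            apply mul_le_mul_of_nonneg_right _ (hg0 x)
            rw [← Real.exp_add]
            apply Real.exp_le_exp.mpr
            have := abs_le.mp (hLs x hx)
            linarith [this.1]
      _ = curveLength a b c * exp (curveLength a b c) * exp (-(c 0)) := by
          rw [intervalIntegral.integral_const_mul, ← hL]; ring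
  · have h1 : ∫ u in (0:ℝ)..1, deriv b u = b 1 - b 0 := by
      apply integral_deriv_eq_sub
      · intro x _
        exact (hb.differentiable one_ne_zero) x
      · exact (hb.continuous_deriv le_rfl).intervalIntegrable _ _
    rw [← h1]
    calc |∫ u in (0:ℝ)..1, deriv b u| ≤ ∫ u in (0:ℝ)..1, |deriv b u| :=
          abs_integral_le_integral_abs zero_le_one
      _ ≤ ∫ u in (0:ℝ)..1, (exp (curveLength a b c) * exp (c 0)) * g u := by
          apply integral_mono_on zero_le_one
          · exact ((hb.continuous_deriv le_rfl).abs).intervalIntegrable _ _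
          · exact (hint _ _).const_mul _
          · intro x hx
            refine (hb' x).trans ?_
            apply mul_le_mul_of_nonneg_right _ (hg0 x)
            rw [← Real.exp_add]
            apply Real.exp_le_exp.mpr
            have := abs_le.mp (hLs x hx)
            linarith [this.2]
      _ = curveLength a b c * exp (curveLength a b c) * exp (c 0) := by
          rw [intervalIntegral.integral_const_mul, ← hL]; ring

theorem HasPath.bounds {p q : SolPt} {ℓ : ℝ} (h : HasPath p q ℓ) :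
    0 ≤ ℓ ∧ |q.t - p.t| ≤ ℓ ∧ |q.x - p.x| ≤ ℓ * exp ℓ * exp (-p.t) ∧
    |q.y - p.y| ≤ ℓ * exp ℓ * exp p.t := by
  induction h with
  | curve a b c ha hb hc => exact curve_bounds ha hb hc
  | @concat p q r ℓ₁ ℓ₂ h₁ h₂ ih₁ ih₂ =>
    obtain ⟨a0, a1, a2, a3⟩ := ih₁
    obtain ⟨b0, b1, b2, b3⟩ := ih₂
    have e1 : 1 ≤ exp ℓ₁ := Real.one_le_exp a0
    have e2 : 1 ≤ exp ℓ₂ := Real.one_le_exp b0
    refine ⟨add_nonneg a0 b0, ?_, ?_, ?_⟩
    · calc |r.t - p.t| = |(r.t - q.t) + (q.t - p.t)| := by ring_nf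
        _ ≤ |r.t - q.t| + |q.t - p.t| := abs_add_le _ _
        _ ≤ ℓ₁ + ℓ₂ := by linarith
    · have h1 : exp (-q.t) ≤ exp ℓ₁ * exp (-p.t) := by
        rw [← Real.exp_add]; apply Real.exp_le_exp.mpr
        have := abs_le.mp a1; linarith [this.1]
      have hp := Real.exp_pos (-p.t)
      calc |r.x - p.x| = |(r.x - q.x) + (q.x - p.x)| := by ring_nf
        _ ≤ |r.x - q.x| + |q.x - p.x| := abs_add_le _ _
        _ ≤ ℓ₂ * exp ℓ₂ * exp (-q.t) + ℓ₁ * exp ℓ₁ * exp (-p.t) := by linarith
        _ ≤ ℓ₂ * exp ℓ₂ * (exp ℓ₁ * exp (-p.t)) + ℓ₁ * exp ℓ₁ * exp (-p.t) := by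
            gcongr
        _ ≤ ℓ₂ * exp ℓ₂ * (exp ℓ₁ * exp (-p.t)) + ℓ₁ * (exp ℓ₁ * exp ℓ₂) * exp (-p.t) := by
            gcongr
            nlinarith
        _ = (ℓ₁ + ℓ₂) * exp (ℓ₁ + ℓ₂) * exp (-p.t) := by
            rw [Real.exp_add]; ring
    · have h1 : exp (q.t) ≤ exp ℓ₁ * exp (p.t) := by
        rw [← Real.exp_add]; apply Real.exp_le_exp.mpr
        have := abs_le.mp a1; linarith [this.2]
      have hp := Real.exp_pos (p.t)
      calc |r.y - p.y| = |(r.y - q.y) + (q.y - p.y)| := by ring_nf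
        _ ≤ |r.y - q.y| + |q.y - p.y| := abs_add_le _ _
        _ ≤ ℓ₂ * exp ℓ₂ * exp (q.t) + ℓ₁ * exp ℓ₁ * exp (p.t) := by linarith
        _ ≤ ℓ₂ * exp ℓ₂ * (exp ℓ₁ * exp (p.t)) + ℓ₁ * exp ℓ₁ * exp (p.t) := by
            gcongr
        _ ≤ ℓ₂ * exp ℓ₂ * (exp ℓ₁ * exp (p.t)) + ℓ₁ * (exp ℓ₁ * exp ℓ₂) * exp (p.t) := by
            gcongr
            nlinarith
        _ = (ℓ₁ + ℓ₂) * exp (ℓ₁ + ℓ₂) * exp (p.t) := by
            rw [Real.exp_add]; ring

theorem hasPath_vert (x y t t' : ℝ) : HasPath ⟨x, y, t⟩ ⟨x, y, t'⟩ |t' - t| := by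
  have h := HasPath.curve (fun _ => x) (fun _ => y) (fun s => t + s * (t' - t))
    (by fun_prop) (by fun_prop) (by fun_prop)
  have e1 : curveLength (fun _ => x) (fun _ => y) (fun s => t + s * (t' - t)) = |t' - t| := by
    unfold curveLength
    have hd : ∀ s, deriv (fun s => t + s * (t' - t)) s = t' - t := by
      intro s
      rw [deriv_const_add]
      simp
    simp [hd, Real.sqrt_sq_eq_abs]
  rw [e1] at h
  simpa using h

theorem hasPath_x (x x' y t : ℝ) : HasPath ⟨x, y, t⟩ ⟨x', y, t⟩ (exp t * |x' - x|) := by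
  have h := HasPath.curve (fun s => x + s * (x' - x)) (fun _ => y) (fun _ => t)
    (by fun_prop) (by fun_prop) (by fun_prop)
  have e1 : curveLength (fun s => x + s * (x' - x)) (fun _ => y) (fun _ => t)
      = exp t * |x' - x| := by
    unfold curveLength
    have hd : ∀ s, deriv (fun s => x + s * (x' - x)) s = x' - x := by
      intro s
      rw [deriv_const_add]
      simp
    have h2 : ∀ s, √(exp (2 * t) * (deriv (fun s => x + s * (x' - x)) s) ^ 2
        + exp (-(2 * t)) * (deriv (fun _ : ℝ => y) s) ^ 2 + (deriv (fun _ : ℝ => t) s) ^ 2)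
        = exp t * |x' - x| := by
      intro s
      rw [hd, deriv_const, deriv_const]
      have : exp (2 * t) * (x' - x) ^ 2 + exp (-(2 * t)) * 0 ^ 2 + 0 ^ 2
          = (exp t * (x' - x)) ^ 2 := by rw [two_mul, Real.exp_add]; ring
      rw [this, Real.sqrt_sq_eq_abs, abs_mul, abs_of_pos (Real.exp_pos _)]
    simp only [h2]
    simp
  rw [e1] at h
  simpa using h

theorem hasPath_y (x y y' t : ℝ) : HasPath ⟨x, y, t⟩ ⟨x, y', t⟩ (exp (-t) * |y' - y|) := by
  have h := HasPath.curve (fun _ => x) (fun s => y + s * (y' - y)) (fun _ => t)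
    (by fun_prop) (by fun_prop) (by fun_prop)
  have e1 : curveLength (fun _ => x) (fun s => y + s * (y' - y)) (fun _ => t)
      = exp (-t) * |y' - y| := by
    unfold curveLength
    have hd : ∀ s, deriv (fun s => y + s * (y' - y)) s = y' - y := by
      intro s
      rw [deriv_const_add]
      simp
    have h2 : ∀ s, √(exp (2 * t) * (deriv (fun _ : ℝ => x) s) ^ 2
        + exp (-(2 * t)) * (deriv (fun s => y + s * (y' - y)) s) ^ 2
        + (deriv (fun _ : ℝ => t) s) ^ 2)
        = exp (-t) * |y' - y| := by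
      intro s
      rw [hd, deriv_const, deriv_const]
      have h3 : exp (-(2 * t)) = exp (-t) ^ 2 := by rw [two_mul, neg_add, Real.exp_add]; ring
      have : exp (2 * t) * 0 ^ 2 + exp (-(2 * t)) * (y' - y) ^ 2 + 0 ^ 2
          = (exp (-t) * (y' - y)) ^ 2 := by rw [h3]; ring
      rw [this, Real.sqrt_sq_eq_abs, abs_mul, abs_of_pos (Real.exp_pos _)]
    simp only [h2]
    simp
  rw [e1] at h
  simpa using h

theorem hasPath_nonempty (p q : SolPt) : {ℓ : ℝ | HasPath p q ℓ}.Nonempty := by
  obtain ⟨x, y, t⟩ := p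
  obtain ⟨x', y', t'⟩ := q
  exact ⟨_, ((hasPath_x x x' y t).concat (hasPath_y x' y y' t)).concat (hasPath_vert x' y' t t')⟩

theorem hasPath_bddBelow (p q : SolPt) : BddBelow {ℓ : ℝ | HasPath p q ℓ} :=
  ⟨0, fun _ h => (HasPath.bounds h).1⟩

theorem solDist_le {p q : SolPt} {ℓ : ℝ} (h : HasPath p q ℓ) : solDist p q ≤ ℓ :=
  csInf_le (hasPath_bddBelow p q) h

theorem exists_path_lt {p q : SolPt} {r : ℝ} (h : solDist p q < r) :
    ∃ ℓ, HasPath p q ℓ ∧ ℓ < r := by
  obtain ⟨ℓ, h1, h2⟩ := exists_lt_of_csInf_lt (hasPath_nonempty p q) h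
  exact ⟨ℓ, h1, h2⟩

/-- Upper bound for the distance: route down, across, up, across, down, and its reverse. -/
theorem solDist_upper (p q : SolPt) (m M N : ℝ) (hm : m ≤ p.t) (hm' : m ≤ q.t)
    (hM : p.t ≤ M) (hM' : q.t ≤ M) (hN : 0 ≤ N) (hx : |p.x - q.x| ≤ N * exp (-m))
    (hy : |p.y - q.y| ≤ N * exp M) :
    solDist p q ≤ 2 * (M - m) - |p.t - q.t| + 4 * log (1 + N) + 2 := by
  obtain ⟨x, y, t⟩ := p
  obtain ⟨x', y', t'⟩ := q
  simp only at hm hm' hM hM' hx hy ⊢
  set l := log (1 + N) with hl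
  have hl0 : 0 ≤ l := Real.log_nonneg (by linarith)
  have hel : exp (-l) = (1 + N)⁻¹ := by
    rw [Real.exp_neg, Real.exp_log (by linarith)]
  have hN1 : (1 + N)⁻¹ * N ≤ 1 := by
    rw [inv_mul_le_iff₀ (by linarith)]; linarith
  have hcx : exp (m - l) * |x' - x| ≤ 1 := by
    calc exp (m - l) * |x' - x| ≤ exp (m - l) * (N * exp (-m)) := by
          rw [abs_sub_comm]; gcongr
      _ = (1 + N)⁻¹ * N := by
          rw [← hel, sub_eq_add_neg, Real.exp_add]
          have : exp m * exp (-m) = 1 := by rw [← Real.exp_add]; simp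
          linear_combination (exp (-l) * N) * this
      _ ≤ 1 := hN1
  have hcy : exp (-(M + l)) * |y' - y| ≤ 1 := by
    calc exp (-(M + l)) * |y' - y| ≤ exp (-(M + l)) * (N * exp M) := by
          rw [abs_sub_comm]; gcongr
      _ = (1 + N)⁻¹ * N := by
          rw [← hel, neg_add, Real.exp_add]
          have : exp M * exp (-M) = 1 := by rw [← Real.exp_add]; simp
          linear_combination (exp (-l) * N) * this
      _ ≤ 1 := hN1
  rcases le_total t t' with htt | htt
  · -- down, x, up, y, down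
    have h := ((((hasPath_vert x y t (m - l)).concat (hasPath_x x x' y (m - l))).concat
      (hasPath_vert x' y (m - l) (M + l))).concat (hasPath_y x' y y' (M + l))).concat
      (hasPath_vert x' y' (M + l) t')
    refine (solDist_le h).trans ?_
    rw [abs_of_nonpos (by linarith : m - l - t ≤ 0), abs_of_nonneg (by linarith : 0 ≤ M + l - (m - l)),
      abs_of_nonpos (by linarith : t' - (M + l) ≤ 0), abs_of_nonpos (by linarith : t - t' ≤ 0)]
    linarith
  · have h := ((((hasPath_vert x y t (M + l)).concat (hasPath_y x y y' (M + l))).concat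
      (hasPath_vert x y' (M + l) (m - l))).concat (hasPath_x x x' y' (m - l))).concat
      (hasPath_vert x' y' (m - l) t')
    refine (solDist_le h).trans ?_
    rw [abs_of_nonneg (by linarith : 0 ≤ M + l - t), abs_of_nonpos (by linarith : m - l - (M + l) ≤ 0),
      abs_of_nonneg (by linarith : 0 ≤ t' - (m - l)), abs_of_nonneg (by linarith : 0 ≤ t - t')]
    linarith

end SolGeom
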