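import Mathlib

namespace SolGeom

open Real Set

theorem cosh_dist_eq (z w : UpperHalfPlane) :
    cosh (dist z w) = 1 + ((z.re - w.re) ^ 2 + (z.im - w.im) ^ 2) / (2 * z.im * w.im) := by
  rw [UpperHalfPlane.cosh_dist, Complex.dist_eq, Complex.sq_norm, Complex.normSq_apply]
  simp only [Complex.sub_re, Complex.sub_im, UpperHalfPlane.coe_re, UpperHalfPlane.coe_im]
  ring_nf

theorem three_halves_le_cosh_one : (3 / 2 : ℝ) ≤ cosh 1 := by
  rw [Real.cosh_eq]
  have h1 := Real.exp_one_gt_d9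
  have h2 := Real.exp_one_lt_d9
  have h3 : exp (-1) * exp 1 = 1 := by rw [← Real.exp_add]; simp
  have h4 : (0.36 : ℝ) ≤ exp (-1) := by
    by_contra hc
    push Not at hc
    have : exp (-1) * exp 1 < 0.36 * 2.7182818286 := by
      have := Real.exp_pos (-1)
      nlinarith
    norm_num at this
    linarith
  linarith

theorem dist_le_one_of (z w : UpperHalfPlane)
    (h : (z.re - w.re) ^ 2 + (z.im - w.im) ^ 2 ≤ z.im * w.im) : dist z w ≤ 1 := by
  have h1 : cosh (dist z w) ≤ cosh 1 := by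
    rw [cosh_dist_eq]
    have hp : 0 < z.im * w.im := mul_pos z.im_pos w.im_pos
    have : ((z.re - w.re) ^ 2 + (z.im - w.im) ^ 2) / (2 * z.im * w.im) ≤ 1 / 2 := by
      rw [div_le_iff₀ (by nlinarith)]
      nlinarith
    have := three_halves_le_cosh_one
    linarith
  rw [Real.cosh_le_cosh, abs_of_nonneg dist_nonneg, abs_of_nonneg zero_le_one] at h1
  exact h1

/-- The index set of the dyadic cells. -/
abbrev Cell := ℤ × ℤ

/-- The base point of a dyadic cell. -/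
noncomputable def pt (c : Cell) : UpperHalfPlane :=
  UpperHalfPlane.mk ⟨(2 : ℝ) ^ (-c.1) * c.2, (2 : ℝ) ^ (-c.1)⟩ (by simp; positivity)

@[simp] theorem pt_re (c : Cell) : (pt c).re = (2 : ℝ) ^ (-c.1) * c.2 := rfl
@[simp] theorem pt_im (c : Cell) : (pt c).im = (2 : ℝ) ^ (-c.1) := rfl

/-- The parent of a dyadic cell. -/
def parent (c : Cell) : Cell := (c.1 - 1, c.2 / 2)

theorem dist_parent (c : Cell) : dist (pt c) (pt (parent c)) ≤ 1 := by
  apply dist_le_one_of
  simp only [pt_re, pt_im, parent]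
  set s : ℝ := (2 : ℝ) ^ (-c.1) with hs
  have hs0 : 0 < s := by positivity
  have h2 : (2 : ℝ) ^ (-(c.1 - 1)) = 2 * s := by
    rw [hs, neg_sub, sub_eq_add_neg, zpow_add₀ (by norm_num)]; simp
  rw [h2]
  have h3 : ((c.2 : ℤ) : ℝ) = 2 * ((c.2 / 2 : ℤ) : ℝ) + ((c.2 % 2 : ℤ) : ℝ) := by
    have := Int.mul_ediv_add_emod c.2 2
    exact_mod_cast this.symm
  have h4 : (0 : ℝ) ≤ ((c.2 % 2 : ℤ) : ℝ) := by exact_mod_cast Int.emod_nonneg _ (by norm_num)
  have h5 : ((c.2 % 2 : ℤ) : ℝ) ≤ 1 := by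
    have := Int.emod_lt_of_pos c.2 (show (0:ℤ) < 2 by norm_num)
    exact_mod_cast (by omega : c.2 % 2 ≤ 1)
  rw [h3]
  set u : ℝ := ((c.2 % 2 : ℤ) : ℝ)
  have : (s * (2 * ((c.2 / 2 : ℤ) : ℝ) + u) - 2 * s * ((c.2 / 2 : ℤ) : ℝ)) ^ 2 + (s - 2 * s) ^ 2
      = s ^ 2 * (u ^ 2 + 1) := by ring
  rw [this]
  have : u ^ 2 ≤ 1 := by nlinarith
  nlinarith

theorem dist_next (n k : ℤ) : dist (pt (n, k)) (pt (n, k + 1)) ≤ 1 := by
  apply dist_le_one_of
  simp only [pt_re, pt_im]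
  push_cast
  nlinarith [sq_nonneg ((2:ℝ)^(-n))]

theorem exists_cell (z : UpperHalfPlane) : ∃ c : Cell, dist (pt c) z ≤ 1 := by
  obtain ⟨n, hn1, hn2⟩ := exists_mem_Ico_zpow z.im_pos (one_lt_two : (1:ℝ) < 2)
  refine ⟨(-n, ⌊z.re / 2 ^ n⌋), ?_⟩
  apply dist_le_one_of
  simp only [pt_re, pt_im, neg_neg]
  set s : ℝ := (2 : ℝ) ^ n with hs
  have hs0 : 0 < s := by positivity
  rw [zpow_add₀ (by norm_num), zpow_one, ← hs] at hn2
  have h1 := Int.floor_le (z.re / s)
  have h2 := Int.lt_floor_add_one (z.re / s)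
  set u := z.re / s - ⌊z.re / s⌋ with hu
  have hu0 : 0 ≤ u := by linarith
  have hu1 : u ≤ 1 := by linarith
  have h3 : s * ⌊z.re / s⌋ - z.re = - (s * u) := by
    rw [hu]; field_simp; ring
  rw [h3]
  have h4 : (-(s*u))^2 ≤ s^2 := by
    have : u^2 ≤ 1 := by nlinarith
    nlinarith [sq_nonneg s]
  nlinarith

theorem log_pt_im (c : Cell) : log (pt c).im = -(c.1 * log 2) := by
  rw [pt_im, Real.log_zpow]; push_cast; ring

theorem half_le_log_two : (1 / 2 : ℝ) ≤ log 2 := by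
  have := Real.log_two_gt_d9; linarith

theorem level_le (c : Cell) (z : UpperHalfPlane) :
    |c.1 * log 2 + log z.im| ≤ dist (pt c) z := by
  have h := UpperHalfPlane.dist_log_im_le (pt c) z
  rw [log_pt_im, Real.dist_eq] at h
  rw [← abs_neg]
  convert h using 2
  ring

theorem level_diff_le (c c' : Cell) :
    |((c.1 : ℝ) - c'.1)| / 2 ≤ dist (pt c) (pt c') := by
  have h := UpperHalfPlane.dist_log_im_le (pt c) (pt c')
  rw [log_pt_im, log_pt_im, Real.dist_eq] at h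
  have h2 : |(-(c.1 * log 2) - -(c'.1 * log 2))| = |((c.1 : ℝ) - c'.1)| * log 2 := by
    rw [← abs_of_pos (show 0 < log 2 from Real.log_pos one_lt_two), ← abs_mul,
      abs_of_pos (show 0 < log 2 from Real.log_pos one_lt_two), ← abs_neg]
    ring_nf
  rw [h2] at h
  have := half_le_log_two
  have h3 := abs_nonneg ((c.1 : ℝ) - c'.1)
  nlinarith

theorem card_Icc_le (α β : ℝ) (hβ : 0 ≤ β) :
    ((Finset.Icc ⌈α - β⌉ ⌊α + β⌋).card : ℝ) ≤ 2 * β + 1 := by
  rw [Int.card_Icc]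
  have h1 := Int.floor_le (α + β)
  have h2 := Int.le_ceil (α - β)
  have h3 : (((⌊α + β⌋ + 1 - ⌈α - β⌉).toNat : ℤ) : ℝ) ≤ 2 * β + 1 := by
    rcases le_total 0 (⌊α + β⌋ + 1 - ⌈α - β⌉) with h | h
    · rw [Int.toNat_of_nonneg h]; push_cast; linarith
    · rw [Int.toNat_of_nonpos h]; push_cast; linarith
  exact_mod_cast h3

/-- A finite set containing all cells with base point within `r` of `z`. -/
noncomputable def bigBall (z : UpperHalfPlane) (r : ℝ) : Finset Cell :=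
  (Finset.Icc ⌈-log z.im / log 2 - r / log 2⌉ ⌊-log z.im / log 2 + r / log 2⌋).biUnion
    (fun n => (Finset.Icc ⌈(2:ℝ) ^ n * z.re - √2 * exp r⌉ ⌊(2:ℝ) ^ n * z.re + √2 * exp r⌋).image
      (fun k => (n, k)))

theorem mem_bigBall (z : UpperHalfPlane) (r : ℝ) (c : Cell) (hc : dist (pt c) z ≤ r) :
    c ∈ bigBall z r := by
  have hr : 0 ≤ r := dist_nonneg.trans hc
  have hl2 : 0 < log 2 := Real.log_pos one_lt_two
  have h1 := (level_le c z).trans hc
  rw [abs_le] at h1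
  rw [bigBall, Finset.mem_biUnion]
  refine ⟨c.1, ?_, ?_⟩
  · rw [Finset.mem_Icc, Int.ceil_le, Int.le_floor]
    constructor
    · rw [← sub_div, div_le_iff₀ hl2]; linarith
    · rw [← add_div, le_div_iff₀ hl2]; linarith
  · rw [Finset.mem_image]
    refine ⟨c.2, ?_, rfl⟩
    have h2 : cosh (dist (pt c) z) ≤ exp r := by
      have ha : cosh (dist (pt c) z) ≤ cosh r := by
        rw [Real.cosh_le_cosh, abs_of_nonneg dist_nonneg, abs_of_nonneg hr]; exact hc
      refine ha.trans ?_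
      rw [Real.cosh_eq]
      have : exp (-r) ≤ exp r := Real.exp_le_exp.mpr (by linarith)
      linarith
    rw [cosh_dist_eq] at h2
    simp only [pt_re, pt_im] at h2
    set s : ℝ := (2 : ℝ) ^ (-c.1) with hs
    have hs0 : 0 < s := by positivity
    have hz := z.im_pos
    have hsp : (2 : ℝ) ^ c.1 = s⁻¹ := by rw [hs, zpow_neg, inv_inv]
    -- s⁻¹ * z.im ≤ exp r
    have h3 : s⁻¹ * z.im ≤ exp r := by
      rw [← hsp, ← Real.exp_log (show (0:ℝ) < 2 ^ c.1 by positivity), ← Real.exp_log hz,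
        ← Real.exp_add, Real.log_zpow]
      exact Real.exp_le_exp.mpr h1.2
    have h4 : (s * c.2 - z.re) ^ 2 ≤ 2 * s * z.im * exp r := by
      have h5 : ((s * c.2 - z.re) ^ 2 + (s - z.im) ^ 2) / (2 * s * z.im) ≤ exp r := by linarith
      rw [div_le_iff₀ (by positivity)] at h5
      nlinarith [sq_nonneg (s - z.im)]
    have h6 : (c.2 - s⁻¹ * z.re) ^ 2 ≤ (√2 * exp r) ^ 2 := by
      have h7 : (c.2 - s⁻¹ * z.re) ^ 2 = s⁻¹ ^ 2 * (s * c.2 - z.re) ^ 2 := by
        field_simp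
      rw [h7, mul_pow, Real.sq_sqrt (by norm_num)]
      calc s⁻¹ ^ 2 * (s * c.2 - z.re) ^ 2 ≤ s⁻¹ ^ 2 * (2 * s * z.im * exp r) := by gcongr
        _ = 2 * (s⁻¹ * z.im) * exp r := by field_simp
        _ ≤ 2 * exp r * exp r := by gcongr
        _ = 2 * exp r ^ 2 := by ring
    have h8 := abs_le_of_sq_le_sq' h6 (by positivity)
    rw [Finset.mem_Icc, Int.ceil_le, Int.le_floor, hsp]
    constructor
    · linarith [h8.1]
    · linarith [h8.2]

/-- The bound for the number of cells in a ball. -/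
noncomputable def Phi (r : ℝ) : ℝ := 20 * exp (2 * r)

theorem Phi_pos (r : ℝ) : 0 < Phi r := by unfold Phi; positivity

theorem card_bigBall (z : UpperHalfPlane) (r : ℝ) (hr : 0 ≤ r) :
    ((bigBall z r).card : ℝ) ≤ Phi r := by
  have hl2 : 0 < log 2 := Real.log_pos one_lt_two
  have hle := half_le_log_two
  have hexp : 1 ≤ exp r := Real.one_le_exp hr
  have hexp2 : r + 1 ≤ exp r := Real.add_one_le_exp r
  have hs2 : √2 ≤ 3 / 2 := by
    rw [Real.sqrt_le_left (by norm_num)]; norm_num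
  calc ((bigBall z r).card : ℝ)
      ≤ ∑ n ∈ Finset.Icc ⌈-log z.im / log 2 - r / log 2⌉ ⌊-log z.im / log 2 + r / log 2⌋,
        (((Finset.Icc ⌈(2:ℝ) ^ n * z.re - √2 * exp r⌉ ⌊(2:ℝ) ^ n * z.re + √2 * exp r⌋).image
      (fun k => ((n, k) : Cell))).card : ℝ) := by
        exact_mod_cast Finset.card_biUnion_le
    _ ≤ ∑ n ∈ Finset.Icc ⌈-log z.im / log 2 - r / log 2⌉ ⌊-log z.im / log 2 + r / log 2⌋,
        (4 * exp r) := by
        apply Finset.sum_le_sum
        intro n _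
        have h1 : (((Finset.Icc ⌈(2:ℝ) ^ n * z.re - √2 * exp r⌉
            ⌊(2:ℝ) ^ n * z.re + √2 * exp r⌋).image (fun k => ((n, k) : Cell))).card : ℝ)
            ≤ ((Finset.Icc ⌈(2:ℝ) ^ n * z.re - √2 * exp r⌉
            ⌊(2:ℝ) ^ n * z.re + √2 * exp r⌋).card : ℝ) := by
          exact_mod_cast Finset.card_image_le
        have h2 := card_Icc_le ((2:ℝ) ^ n * z.re) (√2 * exp r) (by positivity)
        nlinarith
    _ = ((Finset.Icc ⌈-log z.im / log 2 - r / log 2⌉
          ⌊-log z.im / log 2 + r / log 2⌋).card : ℝ) * (4 * exp r) := by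
        rw [Finset.sum_const, nsmul_eq_mul]
    _ ≤ (2 * (r / log 2) + 1) * (4 * exp r) := by
        gcongr
        exact card_Icc_le _ _ (by positivity)
    _ ≤ (5 * exp r) * (4 * exp r) := by
        gcongr
        have : r / log 2 ≤ 2 * r := by
          rw [div_le_iff₀ hl2]; nlinarith
        linarith
    _ = Phi r := by
        unfold Phi; rw [two_mul, Real.exp_add]; ring

theorem card_ball_le (z : UpperHalfPlane) (r : ℝ) (hr : 0 ≤ r) (F : Finset Cell)
    (hF : ∀ c ∈ F, dist (pt c) z ≤ r) : (F.card : ℝ) ≤ Phi r := by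
  refine le_trans ?_ (card_bigBall z r hr)
  exact_mod_cast Finset.card_le_card (fun c hc => mem_bigBall z r c (hF c hc))

theorem finite_ball (z : UpperHalfPlane) (r : ℝ) : {c : Cell | dist (pt c) z ≤ r}.Finite :=
  (Finset.finite_toSet (bigBall z r)).subset (fun c hc => mem_bigBall z r c hc)

/-- A set of cells in a short range of values of `ξ` is small, if cells with close values of
`ξ` are close. -/
theorem xbox (S : Finset Cell) (ξ : Cell → ℝ) (x₀ X ρ r : ℝ) (hX : 0 ≤ X) (hρ : 0 < ρ)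
    (hr : 0 ≤ r) (hS : ∀ c ∈ S, |ξ c - x₀| ≤ X)
    (hd : ∀ c ∈ S, ∀ c' ∈ S, |ξ c - ξ c'| ≤ ρ → dist (pt c) (pt c') ≤ r) :
    (S.card : ℝ) ≤ (2 * X / ρ + 2) * Phi r := by
  classical
  set f : Cell → ℤ := fun c => ⌊(ξ c - x₀) / ρ⌋ with hf
  rw [Finset.card_eq_sum_card_image f S]
  push_cast
  have h1 : ∀ b ∈ S.image f, ((S.filter (fun a => f a = b)).card : ℝ) ≤ Phi r := by
    intro b hb
    obtain ⟨c, hc, rfl⟩ := Finset.mem_image.mp hb
    apply card_ball_le (pt c) r hr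
    intro c' hc'
    rw [Finset.mem_filter] at hc'
    apply hd c' hc'.1 c hc
    have h2 : |(ξ c' - x₀) / ρ - (ξ c - x₀) / ρ| < 1 := Int.abs_sub_lt_one_of_floor_eq_floor hc'.2
    rw [← sub_div, abs_div, abs_of_pos hρ, div_lt_one hρ] at h2
    have h3 : ξ c' - x₀ - (ξ c - x₀) = ξ c' - ξ c := by ring
    rw [h3] at h2
    exact h2.le
  calc ∑ b ∈ S.image f, ((S.filter (fun a => f a = b)).card : ℝ)
      ≤ ∑ b ∈ S.image f, Phi r := Finset.sum_le_sum h1
    _ = ((S.image f).card : ℝ) * Phi r := by rw [Finset.sum_const, nsmul_eq_mul]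
    _ ≤ (2 * X / ρ + 2) * Phi r := by
        have hP := Phi_pos r
        gcongr
        have h4 : S.image f ⊆ Finset.Icc ⌈(-1/2 : ℝ) - (X / ρ + 1/2)⌉ ⌊(-1/2 : ℝ) + (X / ρ + 1/2)⌋ := by
          intro b hb
          obtain ⟨c, hc, rfl⟩ := Finset.mem_image.mp hb
          have h5 := abs_le.mp (hS c hc)
          have h6 : (ξ c - x₀) / ρ ≤ X / ρ := by gcongr; exact h5.2
          have h7 : -(X / ρ) ≤ (ξ c - x₀) / ρ := by rw [← neg_div]; gcongr; exact h5.1
          have h8 := Int.floor_le ((ξ c - x₀) / ρ)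
          have h9 := Int.lt_floor_add_one ((ξ c - x₀) / ρ)
          rw [Finset.mem_Icc, Int.ceil_le, Int.le_floor]
          constructor
          · simp only [hf]; linarith
          · simp only [hf]; linarith
        have h5 : ((S.image f).card : ℝ) ≤ 2 * (X / ρ + 1 / 2) + 1 := by
          refine le_trans ?_ (card_Icc_le (-1/2) (X / ρ + 1/2) (by positivity))
          exact_mod_cast Finset.card_le_card h4
        calc ((S.image f).card : ℝ) ≤ 2 * (X / ρ + 1 / 2) + 1 := h5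
          _ = 2 * X / ρ + 2 := by ring

end SolGeom
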