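import Pool.Agent.H28.Sol.Cells
import Pool.Agent.H28.Sol.Avg

namespace SolGeom

open Finset

/-- telescoping in characteristic two -/
theorem sum_tel (G : ℕ → ZMod 2) (a : ℕ) : ∑ i ∈ range a, (G i + G (i + 1)) = G 0 + G a := by
  induction a with
  | zero => simp [CharTwo.add_self_eq_zero]
  | succ a ih =>
    rw [sum_range_succ, ih]
    have : G a + G a = 0 := CharTwo.add_self_eq_zero _
    linear_combination this

/-- A discrete version of the Hex theorem, by parity. `col` is a two-colouring of the points of a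
grid, `false` on the left column and `true` on the right one; `U` is a set of bichromatic edges
(indexed by their lower left end points) such that for each square the bichromatic edges are all
in or all out, and which contains the bichromatic edges of the bottom row. Then it contains a
bichromatic edge of the top row. -/
theorem hex_parity (a b : ℕ) (col U : ℕ → ℕ → Prop)
    (hL : ∀ j ≤ b, ¬ col 0 j) (hR : ∀ j ≤ b, col a j)
    (hv : ∀ i < a, ∀ j < b, ∃ v : Prop,
      (¬ (col i j ↔ col (i + 1) j) → (U i j ↔ v)) ∧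
      (¬ (col i (j + 1) ↔ col (i + 1) (j + 1)) → (U i (j + 1) ↔ v)) ∧
      (¬ (col i j ↔ col i (j + 1)) → (U i j ↔ v)) ∧
      (¬ (col (i + 1) j ↔ col (i + 1) (j + 1)) → (U (i + 1) j ↔ v)))
    (h0 : ∀ i < a, ¬ (col i 0 ↔ col (i + 1) 0) → U i 0) :
    ∃ i < a, ¬ (col i b ↔ col (i + 1) b) ∧ U i b := by
  classical
  set c : ℕ → ℕ → ZMod 2 := fun i j => if col i j then 1 else 0 with hc
  set u : ℕ → ℕ → ZMod 2 := fun i j => if U i j then 1 else 0 with hu
  have hwall : ∀ i j i' j', (col i j ↔ col i' j') → c i j + c i' j' = 0 := by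
    intro i j i' j' h
    simp only [hc]
    by_cases h1 : col i j
    · have h2 := h.mp h1
      simp only [h1, h2, if_true]
      decide
    · have h2 : ¬ col i' j' := fun h3 => h1 (h.mpr h3)
      simp only [h1, h2, if_false]
      decide
  have hF : ∀ j ≤ b, ∑ i ∈ range a, u i j * (c i j + c (i + 1) j) = 1 := by
    intro j
    induction j with
    | zero =>
      intro hb
      have h1 : ∑ i ∈ range a, u i 0 * (c i 0 + c (i + 1) 0) = ∑ i ∈ range a, (c i 0 + c (i + 1) 0) := by
        apply sum_congr rfl
        intro i hi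
        by_cases h : (col i 0 ↔ col (i + 1) 0)
        · rw [hwall _ _ _ _ h]; ring
        · have h2 := h0 i (mem_range.mp hi) h
          simp only [hu, h2, if_true, one_mul]
      rw [h1, sum_tel (fun i => c i 0)]
      simp only [hc, hL 0 hb, hR 0 hb, if_true, if_false]
      decide
    | succ j ih =>
      intro hj
      have ih' := ih (by omega)
      -- the identity for each square
      have hsq : ∀ i ∈ range a, u i j * (c i j + c (i + 1) j)
          + u i (j + 1) * (c i (j + 1) + c (i + 1) (j + 1))
          + (u i j * (c i j + c i (j + 1)) + u (i + 1) j * (c (i + 1) j + c (i + 1) (j + 1))) = 0 := by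
        intro i hi
        obtain ⟨v, h1, h2, h3, h4⟩ := hv i (mem_range.mp hi) j (by omega)
        set w : ZMod 2 := if v then 1 else 0 with hw
        have e1 : u i j * (c i j + c (i + 1) j) = w * (c i j + c (i + 1) j) := by
          by_cases h : (col i j ↔ col (i + 1) j)
          · rw [hwall _ _ _ _ h]; ring
          · simp only [hu, hw, h1 h]
        have e2 : u i (j + 1) * (c i (j + 1) + c (i + 1) (j + 1))
            = w * (c i (j + 1) + c (i + 1) (j + 1)) := by
          by_cases h : (col i (j + 1) ↔ col (i + 1) (j + 1))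
          · rw [hwall _ _ _ _ h]; ring
          · simp only [hu, hw, h2 h]
        have e3 : u i j * (c i j + c i (j + 1)) = w * (c i j + c i (j + 1)) := by
          by_cases h : (col i j ↔ col i (j + 1))
          · rw [hwall _ _ _ _ h]; ring
          · simp only [hu, hw, h3 h]
        have e4 : u (i + 1) j * (c (i + 1) j + c (i + 1) (j + 1))
            = w * (c (i + 1) j + c (i + 1) (j + 1)) := by
          by_cases h : (col (i + 1) j ↔ col (i + 1) (j + 1))
          · rw [hwall _ _ _ _ h]; ring
          · simp only [hu, hw, h4 h]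
        rw [e1, e2, e3, e4]
        have t1 : c i j + c i j = 0 := CharTwo.add_self_eq_zero _
        have t2 : c (i + 1) j + c (i + 1) j = 0 := CharTwo.add_self_eq_zero _
        have t3 : c i (j + 1) + c i (j + 1) = 0 := CharTwo.add_self_eq_zero _
        have t4 : c (i + 1) (j + 1) + c (i + 1) (j + 1) = 0 := CharTwo.add_self_eq_zero _
        linear_combination w * t1 + w * t2 + w * t3 + w * t4
      have hsum := sum_congr rfl hsq
      rw [sum_add_distrib, sum_add_distrib, ih', sum_tel (fun i => u i j * (c i j + c i (j + 1))),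
        hwall 0 j 0 (j + 1) (by simp [hL j (by omega), hL (j + 1) hj]),
        hwall a j a (j + 1) (by simp [hR j (by omega), hR (j + 1) hj])] at hsum
      simp only [mul_zero, add_zero, sum_const_zero] at hsum
      have : ∀ x : ZMod 2, 1 + x = 0 → x = 1 := by decide
      exact this _ hsum
  have hb := hF b le_rfl
  by_contra hcon
  push Not at hcon
  have : ∑ i ∈ range a, u i b * (c i b + c (i + 1) b) = 0 := by
    apply sum_eq_zero
    intro i hi
    by_cases h : (col i b ↔ col (i + 1) b)
    · rw [hwall _ _ _ _ h]; ring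
    · have h2 : ¬ U i b := by
        intro h3
        have := hcon i (mem_range.mp hi)
        tauto
      simp only [hu, h2, if_false, zero_mul]
  rw [this] at hb
  exact absurd hb (by decide)

/-- The graph on a finite set of cells with bounded steps. -/
def cellGraph (V : Finset Cell) : SimpleGraph Cell where
  Adj c c' := c ≠ c' ∧ c ∈ V ∧ c' ∈ V ∧ dist (pt c) (pt c') ≤ 4
  symm := ⟨fun c c' h => ⟨h.1.symm, h.2.2.1, h.2.1, by rw [dist_comm]; exact h.2.2.2⟩⟩
  loopless := ⟨fun c h => h.1 rfl⟩

theorem exists_seq (V : Finset Cell) (c c' : Cell) (hc : c ∈ V)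
    (h : (cellGraph V).Reachable c c') : ∃ (n : ℕ) (p : ℕ → Cell), p 0 = c ∧ p n = c' ∧
      n + 1 ≤ V.card ∧ (∀ i ≤ n, p i ∈ V) ∧
      (∀ i < n, dist (pt (p i)) (pt (p (i + 1))) ≤ 4) := by
  classical
  obtain ⟨w, hw⟩ := h.exists_isPath
  have hadj : ∀ i < w.length, (cellGraph V).Adj (w.getVert i) (w.getVert (i + 1)) :=
    fun i hi => w.adj_getVert_succ hi
  have hmem : ∀ i ≤ w.length, w.getVert i ∈ V := by
    intro i hi
    rcases Nat.eq_zero_or_pos i with h0 | h0
    · subst h0; simpa using hc
    · have := hadj (i - 1) (by omega)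
      rw [Nat.sub_add_cancel h0] at this
      exact this.2.2.1
  refine ⟨w.length, w.getVert, w.getVert_zero, w.getVert_length, ?_, hmem, ?_⟩
  · rw [← SimpleGraph.Walk.length_support, ← List.toFinset_card_of_nodup hw.support_nodup]
    apply card_le_card
    intro x hx
    rw [List.mem_toFinset, SimpleGraph.Walk.mem_support_iff_exists_getVert] at hx
    obtain ⟨i, hi, hi'⟩ := hx
    rw [← hi]
    exact hmem i hi'
  · intro i hi
    exact (hadj i hi).2.2.2

/-- The final contradiction, for a sequence of heights `h` and signed distances `ρ`. -/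
theorem seq_contra (n : ℕ) (ρ h : ℕ → ℝ) (δ D R t : ℝ) (hD0 : 0 ≤ D) (hδ : δ < 2 * D)
    (hstep : ∀ i < n, |ρ i - ρ (i + 1)| ≤ δ) (h0 : ρ 0 < -D) (hn : D < ρ n)
    (hR0 : R ≤ -D - ρ 0) (hRn : R ≤ ρ n - D)
    (near : ∀ i ≤ n, |ρ i| ≤ D → h i < t)
    (seg : ∀ i j, i ≤ j → j ≤ n → (∀ k, i ≤ k → k ≤ j → h k < t) → ρ j - ρ i < R)
    (cons : ∀ i j, i < j → j ≤ n → t ≤ h i → t ≤ h j → (∀ k, i < k → k < j → h k < t) →
      ρ j - ρ i < 2 * D) : False := by
  classical
  -- the intermediate value property
  have ivt : ∀ i ≤ n, ρ i < -D → ∃ k, i < k ∧ k ≤ n ∧ |ρ k| ≤ D ∧ ∀ j, i ≤ j → j < k → ρ j < -D := by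
    intro i hi hρ
    have hex : ∃ k, i ≤ k ∧ k ≤ n ∧ -D ≤ ρ k := ⟨n, hi, le_rfl, by
      by_contra hc
      push Not at hc
      linarith⟩
    set k := Nat.find hex with hk
    obtain ⟨k1, k2, k3⟩ := Nat.find_spec hex
    have kmin : ∀ j, i ≤ j → j < k → ρ j < -D := by
      intro j hj hjk
      by_contra hc
      push Not at hc
      exact Nat.find_min hex hjk ⟨hj, by omega, hc⟩
    have hik : i < k := by
      rcases Nat.lt_or_ge i k with h | h
      · exact h
      · have : i = k := le_antisymm k1 h
        rw [← hk, ← this] at k3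
        linarith
    refine ⟨k, hik, k2, ?_, kmin⟩
    have h1 := kmin (k - 1) (by omega) (by omega)
    have h2 := hstep (k - 1) (by omega)
    rw [Nat.sub_add_cancel (by omega)] at h2
    rw [abs_le] at h2 ⊢
    constructor
    · exact k3
    · linarith [h2.1]
  -- a big point on the negative side
  have hex1 : ∃ i, i ≤ n ∧ t ≤ h i ∧ ρ i < 0 := by
    by_contra hcon
    push Not at hcon
    obtain ⟨k, hk0, hkn, hk, hkj⟩ := ivt 0 (Nat.zero_le _) h0
    have hD : 0 ≤ D := (abs_nonneg _).trans hk
    have := seg 0 k hk0.le hkn (by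
      intro j _ hj2
      rcases hj2.lt_or_eq with h | h
      · by_contra hc
        push Not at hc
        have h3 := hcon j (by omega) hc
        have h4 := hkj j (Nat.zero_le _) h
        linarith
      · rw [h]; exact near k hkn hk)
    have h5 := (abs_le.mp hk).1
    linarith
  -- the last one
  set s := (range (n + 1)).filter (fun i => t ≤ h i ∧ ρ i < 0) with hs
  have hsne : s.Nonempty := by
    obtain ⟨i, h1, h2, h3⟩ := hex1
    exact ⟨i, by rw [hs, mem_filter, mem_range]; exact ⟨by omega, h2, h3⟩⟩
  set i := s.max' hsne with hi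
  have his : i ∈ s := s.max'_mem hsne
  rw [hs, mem_filter, mem_range] at his
  obtain ⟨hin, hih, hiρ⟩ := his
  have hmax : ∀ j, i < j → j ≤ n → t ≤ h j → 0 ≤ ρ j := by
    intro j hj hjn hjh
    by_contra hc
    push Not at hc
    have : j ∈ s := by rw [hs, mem_filter, mem_range]; exact ⟨by omega, hjh, hc⟩
    have := s.le_max' j this
    omega
  have hiD : ρ i < -D := by
    by_contra hc
    push Not at hc
    have h1 : |ρ i| ≤ D := by
      rw [abs_le]; constructor
      · exact hc
      · by_contra h2
        push Not at h2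
        linarith
    exact absurd (near i (by omega) h1) (not_lt.mpr hih)
  -- a big point after `i`
  have hex2 : ∃ j, i < j ∧ j ≤ n ∧ t ≤ h j := by
    by_contra hcon
    push Not at hcon
    obtain ⟨k, hk0, hkn, hk, _⟩ := ivt i (by omega) hiD
    have := seg k n hkn le_rfl (by
      intro j hj1 hj2
      exact hcon j (by omega) hj2)
    have h5 := (abs_le.mp hk).2
    linarith
  set j := Nat.find hex2 with hj
  obtain ⟨hj1, hj2, hj3⟩ := Nat.find_spec hex2
  have hjmin : ∀ k, i < k → k < j → h k < t := by
    intro k hk1 hk2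
    by_contra hc
    push Not at hc
    exact Nat.find_min hex2 hk2 ⟨hk1, by omega, hc⟩
  have hjρ := hmax j hj1 hj2 hj3
  have hjD : D < ρ j := by
    by_contra hc
    push Not at hc
    have h1 : |ρ j| ≤ D := by
      rw [abs_le]; constructor
      · linarith
      · exact hc
    exact absurd (near j hj2 h1) (not_lt.mpr hj3)
  have := cons i j hj1 hj2 hih hj3 hjmin
  linarith

/-- Averaging, for two families of intervals. -/
theorem exists_light_point₂ {ι κ : Type*} (s : Finset ι) (a r w : ι → ℝ)
    (s' : Finset κ) (a' r' w' : κ → ℝ)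
    (hr : ∀ i ∈ s, 0 ≤ r i) (hw : ∀ i ∈ s, 0 ≤ w i)
    (hr' : ∀ i ∈ s', 0 ≤ r' i) (hw' : ∀ i ∈ s', 0 ≤ w' i) {u v : ℝ} (huv : u ≤ v)
    (h : ∑ i ∈ s, 2 * r i * w i + ∑ i ∈ s', 2 * r' i * w' i < v - u) :
    ∃ x ∈ Set.Icc u v, ∑ i ∈ s with |a i - x| ≤ r i, w i +
      ∑ i ∈ s' with |a' i - x| ≤ r' i, w' i < 1 := by
  classical
  obtain ⟨x, hx, hlt⟩ := exists_light_point (s.disjSum s') (Sum.elim a a') (Sum.elim r r')
    (Sum.elim w w') (by
      intro i hi
      rcases i with i | i
      · simp only [Sum.elim_inl]; exact hr i (by simpa using hi)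
      · simp only [Sum.elim_inr]; exact hr' i (by simpa using hi)) (by
      intro i hi
      rcases i with i | i
      · simp only [Sum.elim_inl]; exact hw i (by simpa using hi)
      · simp only [Sum.elim_inr]; exact hw' i (by simpa using hi)) huv (by
      rw [sum_disjSum]
      simpa using h)
  refine ⟨x, hx, ?_⟩
  rw [sum_filter, sum_disjSum] at hlt
  rw [sum_filter, sum_filter]
  simpa using hlt

end SolGeom
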