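import Pool.Agent.H28.Sol.Spread

namespace SolGeom

/-- horizontal adjacency of cells -/
def HAdj (a b : Cell) : Prop := a.1 = b.1 ∧ b.2 = a.2 + 1

theorem HAdj.child {a b : Cell} (h : HAdj a b) : HAdj (ch1 a) (ch0 b) := by
  unfold HAdj ch0 ch1 at *
  simp only
  constructor
  · omega
  · omega

theorem HAdj.iter {a b : Cell} (h : HAdj a b) (i : ℕ) : HAdj (ch1^[i] a) (ch0^[i] b) := by
  induction i with
  | zero => simpa using h
  | succ i ih =>
    rw [Function.iterate_succ_apply', Function.iterate_succ_apply']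
    exact ih.child

theorem HAdj.siblings (g : Cell) : HAdj (ch0 g) (ch1 g) := by
  unfold HAdj ch0 ch1; simp

theorem HAdj.dist_le {a b : Cell} (h : HAdj a b) : dist (pt a) (pt b) ≤ 1 := by
  obtain ⟨a1, a2⟩ := a
  obtain ⟨b1, b2⟩ := b
  obtain ⟨h1, h2⟩ := h
  simp only at h1 h2
  subst h1 h2
  exact dist_next _ _

namespace Data

open Real Set

variable (S : Data)

/-- Every value between the `x`-values of `a` and `b` is covered by a cell of `E`. -/
def Cov (E : Set Cell) (a b : Cell) : Prop :=
  ∀ x₀ ∈ uIcc (S.xc a) (S.xc b), ∃ e ∈ E, |S.xc e - x₀| ≤ S.A * exp (-S.hc e)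

variable {S} {E : Set Cell}

theorem Cov.symm {a b : Cell} (h : S.Cov E a b) : S.Cov E b a := by
  intro x hx
  rw [uIcc_comm] at hx
  exact h x hx

theorem Cov.trans {a b c : Cell} (h : S.Cov E a b) (h' : S.Cov E b c) : S.Cov E a c := by
  intro x hx
  rcases Set.uIcc_subset_uIcc_union_uIcc hx with hx | hx
  · exact h x hx
  · exact h' x hx

theorem cov_step {a b : Cell} (ha : a ∈ E) (hd : dist (pt a) (pt b) ≤ 1) : S.Cov E a b := by
  intro x hx
  refine ⟨a, ha, ?_⟩
  refine le_trans ?_ (S.x_step hd)
  have h := Set.abs_sub_left_of_mem_uIcc hx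
  rw [abs_sub_comm (S.xc a) x]
  refine h.trans (le_of_eq ?_)
  rw [abs_sub_comm]; rfl

variable (S)

theorem parent_iter_of (f : Cell → Cell) (hf : ∀ c, parent (f c) = c) (c : Cell) (i j : ℕ)
    (h : j ≤ i) : parent^[j] (f^[i] c) = f^[i - j] c := by
  induction j with
  | zero => simp
  | succ j ih =>
    rw [Function.iterate_succ_apply', ih (by omega)]
    obtain ⟨k, hk⟩ : ∃ k, i - j = k + 1 := ⟨i - j - 1, by omega⟩
    rw [hk, Function.iterate_succ_apply', hf]
    congr 1
    omega

/-- The covering set. -/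
def ESet (c : Cell) (H τ : ℝ) : Set Cell := S.Leaves c H ∪ {e ∈ S.Block c H | τ < S.hc e}

/-- No pattern below `c`. -/
def NoPat (c : Cell) (H τ : ℝ) : Prop :=
  ∀ g ∈ S.Block c H, H - 2 * S.K ≤ S.hc g → ∀ d ∈ S.Block g H, τ < S.hc d

theorem link {c : Cell} {H τ : ℝ} (hNP : S.NoPat c H τ) (f : Cell → Cell)
    (hf : ∀ c, parent (f c) = c) (a b : Cell) (ha : a ∈ S.Leaves c H)
    (hd : dist (pt a) (pt b) ≤ 1) (j : ℕ) (hj : ∀ i < j, S.hc (f^[i] b) < H)
    (hj' : H ≤ S.hc (f^[j] b)) (hb : 0 < j → b ∈ S.Block c H) :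
    S.Cov (S.ESet c H τ) a (f^[j] b) := by
  have h1 : S.Cov (S.ESet c H τ) a b := cov_step (Or.inl ha) hd
  rcases Nat.eq_zero_or_pos j with h0 | h0
  · subst h0; exact h1
  have hbB := hb h0
  have haH : H ≤ S.hc a := by obtain ⟨_, _, h, _⟩ := ha; exact h
  have hbh : H - 2 * S.K ≤ S.hc b := by
    have := abs_le.mp (S.h_step hd)
    have h3 : S.h (pt a) = S.hc a := rfl
    have h4 : S.h (pt b) = S.hc b := rfl
    rw [h3, h4] at this
    linarith [this.2]
  have hNP' := hNP b hbB hbh
  have hE : ∀ i < j, f^[i] b ∈ S.ESet c H τ := by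
    intro i hi
    have h5 : f^[i] b ∈ S.Block b H := by
      refine ⟨i, ?_, ?_⟩
      · rw [parent_iter_of f hf b i i le_rfl]; simp
      · intro k hk
        rw [parent_iter_of f hf b i k hk]
        exact hj _ (by omega)
    exact Or.inr ⟨S.block_trans hbB h5, hNP' _ h5⟩
  have h2 : ∀ i ≤ j, S.Cov (S.ESet c H τ) a (f^[i] b) := by
    intro i
    induction i with
    | zero => intro _; exact h1
    | succ i ih =>
      intro hi
      refine (ih (by omega)).trans (cov_step (hE i (by omega)) ?_)
      rw [Function.iterate_succ_apply', dist_comm]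
      have := dist_parent (f (f^[i] b))
      rw [hf] at this
      exact this
  exact h2 j le_rfl

theorem child_mem {c g e : Cell} {H : ℝ} (hg : g ∈ S.Block c H) (he : parent e = g) :
    e ∈ S.Block c H ∨ e ∈ S.Leaves c H := by
  obtain ⟨m, h1, h2⟩ := hg
  rcases lt_or_ge (S.hc e) H with h | h
  · left
    refine ⟨m + 1, ?_, ?_⟩
    · rw [Function.iterate_succ_apply, he, h1]
    · intro i hi
      rcases Nat.eq_zero_or_pos i with h0 | h0
      · subst h0; exact h
      · obtain ⟨k, rfl⟩ : ∃ k, i = k + 1 := ⟨i - 1, by omega⟩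
        rw [Function.iterate_succ_apply, he]
        exact h2 k (by omega)
  · right
    refine ⟨m + 1, ?_, h, ?_⟩
    · rw [Function.iterate_succ_apply, he, h1]
    · intro i h0 hi
      obtain ⟨k, rfl⟩ : ∃ k, i = k + 1 := ⟨i - 1, by omega⟩
      rw [Function.iterate_succ_apply, he]
      exact h2 k (by omega)

theorem leaves_sub_of_mem {c e : Cell} {H : ℝ} (h : e ∈ S.Block c H ∨ e ∈ S.Leaves c H) :
    S.Leaves e H ⊆ S.Leaves c H := by
  rcases h with h | h
  · exact S.leaves_subset h
  · have : H ≤ S.hc e := by obtain ⟨_, _, h, _⟩ := h; exact h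
    rw [S.leaves_self this]
    simpa using h

/-- Without patterns, all values between the `x`-values of two leaves are covered. -/
theorem cover_aux {c : Cell} {H τ : ℝ} (hNP : S.NoPat c H τ) (n : ℕ) :
    ∀ g : Cell, (g ∈ S.Block c H ∨ g ∈ S.Leaves c H) →
      (∀ e ∈ S.Block g H, ∀ m : ℕ, parent^[m] e = g → m < n) →
      ∀ q ∈ S.Leaves g H, ∀ q' ∈ S.Leaves g H, S.Cov (S.ESet c H τ) q q' := by
  classical
  induction n with
  | zero =>
    intro g hg hn q hq q' hq'
    have hgH : H ≤ S.hc g := by
      by_contra h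
      exact absurd (hn g (S.mem_block_self (not_le.mp h)) 0 rfl) (by omega)
    rw [S.leaves_self hgH, mem_singleton_iff] at hq hq'
    subst hq
    subst hq'
    have hgl : q' ∈ S.Leaves c H := by
      rcases hg with h | h
      · exact absurd (S.block_lt h) (not_lt.mpr hgH)
      · exact h
    exact cov_step (Or.inl hgl) (by rw [dist_self]; exact zero_le_one)
  | succ n ih =>
    intro g hg hn q hq q' hq'
    rcases le_or_gt H (S.hc g) with hgH | hgH
    · rw [S.leaves_self hgH, mem_singleton_iff] at hq hq'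
      subst hq
      subst hq'
      have hgl : q' ∈ S.Leaves c H := by
        rcases hg with h | h
        · exact absurd (S.block_lt h) (not_lt.mpr hgH)
        · exact h
      exact cov_step (Or.inl hgl) (by rw [dist_self]; exact zero_le_one)
    · have hgB : g ∈ S.Block c H := by
        rcases hg with h | h
        · exact h
        · obtain ⟨_, _, h, _⟩ := h
          linarith
      have hc0 := S.child_mem hgB (parent_ch0 g)
      have hc1 := S.child_mem hgB (parent_ch1 g)
      have hstep : ∀ e', parent e' = g → ∀ e ∈ S.Block e' H, ∀ m : ℕ, parent^[m] e = e' → m < n := by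
        intro e' he' e he m hm
        have h1 : parent^[m + 1] e = g := by rw [Function.iterate_succ_apply', hm, he']
        have h2 : e ∈ S.Block g H := by
          obtain ⟨k, hk1, hk2⟩ := he
          refine ⟨k + 1, by rw [Function.iterate_succ_apply', hk1, he'], ?_⟩
          intro i hi
          rcases Nat.lt_or_ge i (k + 1) with h | h
          · exact hk2 i (by omega)
          · have : i = k + 1 := by omega
            rw [this, Function.iterate_succ_apply', hk1, he']
            exact hgH
        have := hn e h2 (m + 1) h1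
        omega
      have ih0 := ih (ch0 g) hc0 (hstep _ (parent_ch0 g))
      have ih1 := ih (ch1 g) hc1 (hstep _ (parent_ch1 g))
      -- the link between the two children
      have hex0 := S.exists_ge_path (ch0 g) H ch1 (parent_iter_ch1 _)
      have hex1 := S.exists_ge_path (ch1 g) H ch0 (parent_iter_ch0 _)
      set i₁ := Nat.find hex0 with hi₁
      set i₂ := Nat.find hex1 with hi₂
      have a1 := Nat.find_spec hex0
      have a2 : ∀ j < i₁, S.hc (ch1^[j] (ch0 g)) < H := fun j hj => not_le.mp (Nat.find_min hex0 hj)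
      have b1 := Nat.find_spec hex1
      have b2 : ∀ j < i₂, S.hc (ch0^[j] (ch1 g)) < H := fun j hj => not_le.mp (Nat.find_min hex1 hj)
      have ha := S.mem_leaves_first (ch0 g) H ch1 (parent_iter_ch1 _) i₁ a1 a2
      have hb := S.mem_leaves_first (ch1 g) H ch0 (parent_iter_ch0 _) i₂ b1 b2
      have hlink : S.Cov (S.ESet c H τ) (ch1^[i₁] (ch0 g)) (ch0^[i₂] (ch1 g)) := by
        have hadj := fun i => ((HAdj.siblings g).iter i).dist_le
        have hblock : ∀ (f : Cell → Cell) (hf : ∀ c, parent (f c) = c) (e : Cell),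
            (e ∈ S.Block c H ∨ e ∈ S.Leaves c H) → ∀ i k : ℕ, i < k →
            (∀ j < k, S.hc (f^[j] e) < H) → f^[i] e ∈ S.Block c H := by
          intro f hf e he i k hik hlt
          have he' : e ∈ S.Block c H := by
            rcases he with h | h
            · exact h
            · obtain ⟨_, _, h, _⟩ := h
              have := hlt 0 (by omega)
              simp only [Function.iterate_zero, id_eq] at this
              linarith
          refine S.block_trans he' ⟨i, ?_, ?_⟩
          · rw [parent_iter_of f hf e i i le_rfl]; simp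
          · intro j hj
            rw [parent_iter_of f hf e i j hj]
            exact hlt _ (by omega)
        rcases le_total i₁ i₂ with h12 | h12
        · have := S.link hNP ch0 parent_ch0 (ch1^[i₁] (ch0 g)) (ch0^[i₁] (ch1 g))
            (S.leaves_sub_of_mem hc0 ha) (hadj i₁) (i₂ - i₁) (by
              intro i hi
              rw [← Function.iterate_add_apply]
              exact b2 _ (by omega)) (by
              rw [← Function.iterate_add_apply, Nat.sub_add_cancel h12]
              exact b1) (by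
              intro hpos
              exact hblock ch0 parent_ch0 (ch1 g) hc1 i₁ i₂ (by omega) b2)
          rwa [← Function.iterate_add_apply, Nat.sub_add_cancel h12] at this
        · have := S.link hNP ch1 parent_ch1 (ch0^[i₂] (ch1 g)) (ch1^[i₂] (ch0 g))
            (S.leaves_sub_of_mem hc1 hb) (by rw [dist_comm]; exact hadj i₂) (i₁ - i₂) (by
              intro i hi
              rw [← Function.iterate_add_apply]
              exact a2 _ (by omega)) (by
              rw [← Function.iterate_add_apply, Nat.sub_add_cancel h12]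
              exact a1) (by
              intro hpos
              exact hblock ch1 parent_ch1 (ch0 g) hc0 i₂ i₁ (by omega) a2)
          rw [← Function.iterate_add_apply, Nat.sub_add_cancel h12] at this
          exact this.symm
      rw [S.leaves_eq_union hgH] at hq hq'
      rcases hq with hq | hq <;> rcases hq' with hq' | hq'
      · exact ih0 q hq q' hq'
      · exact ((ih0 q hq _ ha).trans hlink).trans (ih1 _ hb q' hq')
      · exact (((ih0 q' hq' _ ha).trans hlink).trans (ih1 _ hb q hq)).symm
      · exact ih1 q hq q' hq'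

theorem cover {c : Cell} {H τ : ℝ} (hc : S.hc c < H) (hNP : S.NoPat c H τ) :
    ∀ q ∈ S.Leaves c H, ∀ q' ∈ S.Leaves c H, S.Cov (S.ESet c H τ) q q' := by
  obtain ⟨n, hn⟩ := exists_nat_gt (8 * S.K * (H - S.m₀) + S.C₂)
  refine S.cover_aux hNP n c (Or.inl (S.mem_block_self hc)) ?_
  rintro e ⟨k, hk1, hk2⟩ m hm
  have : k = m := depth_unique hk1 hm
  subst this
  have := S.block_depth hk2
  exact_mod_cast this.trans_lt hn

/-- The weight estimate: the spread of the leaves of a cell without patterns. -/
theorem spread_le {κ c₁ : ℝ} (hG : S.GrowthWith κ c₁) (hκ : 0 ≤ κ) (hκ1 : κ ≤ 1) (hc₁ : 0 < c₁)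
    {c : Cell} {H τ D : ℝ} (hc : S.hc c < H) (hτ : τ ≤ H) (hNP : S.NoPat c H τ) (hD0 : 0 ≤ D)
    (hD : ∀ q ∈ S.Leaves c H, ∀ m : ℕ, parent^[m] q = c → (m : ℝ) ≤ D) :
    ∀ q ∈ S.Leaves c H, ∀ q' ∈ S.Leaves c H, |S.xc q - S.xc q'| ≤
      2 * S.A * ((D + 2) * S.N c H * (c₁⁻¹ * exp (-(κ * H) - (1 - κ) * τ))) := by
  classical
  intro q hq q' hq'
  wlog hle : S.xc q ≤ S.xc q' generalizing q q'
  · rw [abs_sub_comm]; exact this q' hq' q hq (le_of_not_ge hle)
  rw [abs_sub_comm, abs_of_nonneg (by linarith)]
  have hA := S.A_pos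
  set W := c₁⁻¹ * exp (-(κ * H) - (1 - κ) * τ) with hW
  have hW0 : 0 < W := by positivity
  set F : Finset Cell := (S.bl c H).filter (fun e => τ < S.hc e) with hF
  set Es : Finset Cell := S.lv c H ∪ F with hEs
  have hkey : S.xc q' - S.xc q ≤ ∑ e ∈ Es, 2 * (S.A * exp (-S.hc e)) * 1 := by
    by_contra hcon
    push Not at hcon
    obtain ⟨x₀, hx₀, hlt⟩ := exists_light_point Es S.xc (fun e => S.A * exp (-S.hc e))
      (fun _ => 1) (fun e _ => by positivity) (fun e _ => zero_le_one) hle hcon
    obtain ⟨e, he, hex⟩ := S.cover hc hNP q hq q' hq' x₀ (by rw [uIcc_of_le hle]; exact hx₀)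
    have heE : e ∈ Es := by
      rw [hEs, Finset.mem_union, mem_lv, hF, Finset.mem_filter, mem_bl]
      exact he
    have h1 : (1 : ℝ) ≤ ∑ i ∈ Es.filter (fun i => |S.xc i - x₀| ≤ S.A * exp (-S.hc i)), (1 : ℝ) := by
      rw [Finset.sum_const, nsmul_eq_mul, mul_one]
      have : 0 < (Es.filter (fun i => |S.xc i - x₀| ≤ S.A * exp (-S.hc i))).card :=
        Finset.card_pos.mpr ⟨e, by rw [Finset.mem_filter]; exact ⟨heE, hex⟩⟩
      exact_mod_cast this
    linarith
  have h1 : ∑ e ∈ Es, 2 * (S.A * exp (-S.hc e)) * 1 ≤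
      ∑ e ∈ S.lv c H, 2 * (S.A * exp (-S.hc e)) * 1 + ∑ e ∈ F, 2 * (S.A * exp (-S.hc e)) * 1 := by
    rw [hEs]
    have h0 := Finset.sum_union_inter (s₁ := S.lv c H) (s₂ := F)
      (f := fun e => 2 * (S.A * exp (-S.hc e)) * 1)
    have h2 : 0 ≤ ∑ e ∈ S.lv c H ∩ F, 2 * (S.A * exp (-S.hc e)) * 1 :=
      Finset.sum_nonneg (fun e _ => by positivity)
    linarith
  have h2 : ∑ e ∈ S.lv c H, 2 * (S.A * exp (-S.hc e)) * 1 ≤ 2 * S.A * (S.N c H * W) := by
    calc ∑ e ∈ S.lv c H, 2 * (S.A * exp (-S.hc e)) * 1 ≤ ∑ e ∈ S.lv c H, 2 * S.A * W := by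
          apply Finset.sum_le_sum
          intro e he
          rw [mem_lv] at he
          obtain ⟨_, _, h3, _⟩ := he
          have h4 : exp (-S.hc e) ≤ W := by
            have h5 : (1 : ℝ) ≤ c₁⁻¹ := (one_le_inv₀ hc₁).mpr hG.le_one
            have h6 : exp (-S.hc e) ≤ exp (-(κ * H) - (1 - κ) * τ) := by
              apply Real.exp_le_exp.mpr
              nlinarith
            rw [hW]
            have := Real.exp_pos (-(κ * H) - (1 - κ) * τ)
            nlinarith
          nlinarith
      _ = 2 * S.A * (S.N c H * W) := by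
          rw [Finset.sum_const, nsmul_eq_mul, S.card_lv]; ring
  have h3 : ∑ e ∈ F, 2 * (S.A * exp (-S.hc e)) * 1 ≤ 2 * S.A * ((D + 1) * S.N c H * W) := by
    have h4 : ∀ e ∈ F, 2 * (S.A * exp (-S.hc e)) * 1 ≤ 2 * S.A * (W * S.N e H) := by
      intro e he
      rw [hF, Finset.mem_filter, mem_bl] at he
      have h5 := hG.apply hκ hc₁ e H (S.hc e) le_rfl (S.block_lt he.1).le
      have h6 : exp (-S.hc e) ≤ W * S.N e H := by
        calc exp (-S.hc e) ≤ exp (-(κ * H) - (1 - κ) * τ) * exp (κ * (H - S.hc e)) := by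
              rw [← Real.exp_add]
              apply Real.exp_le_exp.mpr
              nlinarith [he.2]
          _ = W * (c₁ * exp (κ * (H - S.hc e))) := by
              rw [hW]; field_simp
          _ ≤ W * S.N e H := by gcongr
      nlinarith
    refine (Finset.sum_le_sum h4).trans ?_
    rw [← Finset.mul_sum, ← Finset.mul_sum]
    have h7 : ∑ e ∈ F, (S.N e H : ℝ) ≤ (D + 1) * S.N c H := by
      have h8 := S.sum_N_level_le F (S.lv c H) H (Finset.Icc c.1 (c.1 + ⌊D⌋)) (by
        intro e he
        rw [hF, Finset.mem_filter, mem_bl] at he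
        obtain ⟨m, hm1, hm2⟩ := id he.1
        obtain ⟨q, hq⟩ := S.leaves_nonempty e H
        have hqc := S.leaves_subset he.1 hq
        obtain ⟨k, hk, _, _⟩ := hq
        have h9 := hD q hqc (k + m) (by rw [← parent_iter_add, hk, hm1])
        have h10 : (m : ℝ) ≤ D := by
          push_cast at h9
          have : (0 : ℝ) ≤ k := by positivity
          linarith
        have h11 : (m : ℤ) ≤ ⌊D⌋ := by
          rw [Int.le_floor]; exact_mod_cast h10
        have h12 := depth_eq hm1
        rw [Finset.mem_Icc]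
        constructor <;> omega) (by
        intro e he
        rw [hF, Finset.mem_filter, mem_bl] at he
        intro q hq
        have := S.leaves_subset he.1 hq
        simpa using this)
      refine h8.trans ?_
      rw [S.card_lv]
      have h13 : (0 : ℤ) ≤ ⌊D⌋ := Int.floor_nonneg.mpr hD0
      have h14 : (((Finset.Icc c.1 (c.1 + ⌊D⌋)).card : ℤ) : ℝ) ≤ D + 1 := by
        rw [Int.card_Icc, Int.toNat_of_nonneg (by omega)]
        push_cast
        have := Int.floor_le D
        linarith
      have h15 : ((Finset.Icc c.1 (c.1 + ⌊D⌋)).card : ℝ) ≤ D + 1 := by exact_mod_cast h14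
      gcongr
    have : 2 * S.A * (W * ∑ e ∈ F, (S.N e H : ℝ)) ≤ 2 * S.A * (W * ((D + 1) * S.N c H)) := by
      gcongr
    linarith
  have : 2 * S.A * ((D + 2) * S.N c H * W) =
      2 * S.A * (S.N c H * W) + 2 * S.A * ((D + 1) * S.N c H * W) := by ring
  rw [this]
  linarith

end Data

end SolGeom
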