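import Pool.Agent.H28.Sol.Final

namespace SolGeom

namespace Data

open Real Set Filter

variable (S : Data)

theorem h_step4 {z w : UpperHalfPlane} (hd : dist z w ≤ 4) : |S.h z - S.h w| ≤ 5 * S.K := by
  refine (S.hlip z w).trans ?_
  have : S.K * (dist z w + 1) ≤ S.K * (4 + 1) := by
    have := S.K_pos
    gcongr
  linarith

/-- The contradiction for a crossing sequence of covering cells. -/
theorem crossing_false {P : ℝ → ℝ → UpperHalfPlane}
    (hP : ∀ s r s' r', cosh (dist (P s r) (P s' r')) =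
      cosh (s - s') * cosh r * cosh r' - sinh r * sinh r')
    (hsurj : ∀ z, ∃ s r, z = P s r)
    (l R D₃ T₃ Tη κ' e x₀ A₃ : ℝ) (hA₃ : 0 ≤ A₃) (he : 0 ≤ e) (hD₃ : 0 ≤ D₃)
    (V : Finset Cell) (hcard : (V.card : ℝ) ≤ exp e)
    (hVgeo : ∀ c ∈ V, ∃ s r, 0 ≤ s ∧ s ≤ l ∧ dist (pt c) (P s r) ≤ 1)
    (hVcov : ∀ c ∈ V, |S.xc c - x₀| ≤ A₃ * exp (-S.hc c))
    (hγ : ∀ j : ℕ, (j : ℝ) ≤ l → S.h (P j 0) ≤ T₃ ∨
      exp (-S.h (P j 0) + κ') < |S.x (P j 0) - x₀|)
    (n : ℕ) (p : ℕ → Cell) (hn : n + 1 ≤ V.card) (hpV : ∀ i ≤ n, p i ∈ V)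
    (hstep : ∀ i < n, dist (pt (p i)) (pt (p (i + 1))) ≤ 4)
    (hp0 : ∃ s, dist (pt (p 0)) (P s (-R)) ≤ 1) (hpn : ∃ s, dist (pt (p n)) (P s R) ≤ 1)
    (n1 : log (1 + A₃) + S.K * (D₃ + 4) ≤ κ')
    (n2 : T₃ + S.K * (D₃ + 4) < Tη)
    (n3 : S.K * (2 * (Tη - S.m₀) + 4 * (log (1 + (2 * A₃ + exp (5 * S.K))) + e) + 1) < R - 1 - D₃)
    (n4 : S.K * (2 * (5 * S.K) + 4 * (log (1 + (2 * A₃ + exp (5 * S.K))) + e) + 1) < 2 * D₃)
    (n5 : 4 < 2 * D₃) (n6 : D₃ + 1 < R) : False := by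
  have hK := S.K_pos
  choose σ ρ hσρ using hsurj
  have hρlip : ∀ z w, |ρ z - ρ w| ≤ dist z w := by
    intro z w
    have := fermi_abs_r_le hP (σ z) (ρ z) (σ w) (ρ w)
    rwa [← hσρ, ← hσρ] at this
  have hρP : ∀ s r, ρ (P s r) = r := by
    intro s r
    have := fermi_abs_r_le hP (σ (P s r)) (ρ (P s r)) s r
    rw [← hσρ, dist_self] at this
    have h2 := abs_nonneg (ρ (P s r) - r)
    have h3 : |ρ (P s r) - r| = 0 := le_antisymm this h2
    rw [abs_eq_zero] at h3
    linarith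
  have hν : 1 ≤ exp e := Real.one_le_exp he
  have hC : 0 < 2 * A₃ + exp (5 * S.K) := by positivity
  have hlog : log (1 + (2 * A₃ + exp (5 * S.K)) * exp e) ≤ log (1 + (2 * A₃ + exp (5 * S.K))) + e := by
    have h1 : log (1 + (2 * A₃ + exp (5 * S.K))) + e = log ((1 + (2 * A₃ + exp (5 * S.K))) * exp e) := by
      rw [Real.log_mul (by positivity) (by positivity), Real.log_exp]
    rw [h1]
    apply Real.log_le_log (by positivity)
    have h2 : (1 + (2 * A₃ + exp (5 * S.K))) * exp e = exp e + (2 * A₃ + exp (5 * S.K)) * exp e := by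
      ring
    rw [h2]
    linarith
  have hjν : ∀ j : ℕ, j ≤ n → (j : ℝ) ≤ exp e := by
    intro j hj
    have h1 : (j : ℝ) ≤ V.card := by exact_mod_cast (by omega : j ≤ V.card)
    linarith
  have hρ0 : ρ (pt (p 0)) ≤ -R + 1 := by
    obtain ⟨s, hs⟩ := hp0
    have h1 := (hρlip (pt (p 0)) (P s (-R))).trans hs
    rw [hρP, abs_le] at h1
    linarith [h1.2]
  have hρn : R - 1 ≤ ρ (pt (p n)) := by
    obtain ⟨s, hs⟩ := hpn
    have h1 := (hρlip (pt (p n)) (P s R)).trans hs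
    rw [hρP, abs_le] at h1
    linarith [h1.1]
  refine seq_contra n (fun i => ρ (pt (p i))) (fun i => S.hc (p i)) 4 D₃ (R - 1 - D₃) Tη hD₃ n5
    ?_ ?_ ?_ ?_ ?_ ?_ ?_ ?_
  · intro i hi
    exact (hρlip _ _).trans (hstep i hi)
  · linarith
  · linarith
  · linarith
  · linarith
  · -- near points are low
    intro i hi hnear
    obtain ⟨s, r, hs0, hsl, hd⟩ := hVgeo (p i) (hpV i hi)
    have h1 := (hρlip (pt (p i)) (P s r)).trans hd
    rw [hρP] at h1
    have h2 : |r| ≤ D₃ + 1 := by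
      have : |r| ≤ |ρ (pt (p i))| + |r - ρ (pt (p i))| := by
        calc |r| = |ρ (pt (p i)) + (r - ρ (pt (p i)))| := by ring_nf
          _ ≤ _ := abs_add_le _ _
      rw [abs_sub_comm r] at this
      linarith
    have h3 : dist (P s r) (P s 0) ≤ D₃ + 1 := by
      rw [fermi_dist_same_s hP, sub_zero]; exact h2
    obtain ⟨j, hj⟩ : ∃ j : ℕ, j = ⌊s⌋₊ := ⟨_, rfl⟩
    have hj1 : (j : ℝ) ≤ s := by rw [hj]; exact Nat.floor_le hs0
    have hj2 : s < j + 1 := by rw [hj]; exact Nat.lt_floor_add_one s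
    have h4 : dist (P s 0) (P j 0) ≤ 1 := by
      rw [fermi_dist_zero hP, abs_of_nonneg (by linarith)]; linarith
    have h5 : dist (pt (p i)) (P j 0) ≤ D₃ + 3 := by
      calc dist (pt (p i)) (P j 0) ≤ dist (pt (p i)) (P s r) + dist (P s r) (P s 0) +
            dist (P s 0) (P j 0) := dist_triangle4 _ _ _ _
        _ ≤ D₃ + 3 := by linarith
    have h6 : S.K * (dist (pt (p i)) (P j 0) + 1) ≤ S.K * (D₃ + 4) := by
      have : dist (pt (p i)) (P j 0) + 1 ≤ D₃ + 4 := by linarith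
      gcongr
    have h7 := abs_le.mp ((S.hlip (pt (p i)) (P j 0)).trans h6)
    have h8 : S.hc (p i) = S.h (pt (p i)) := rfl
    rcases hγ j (hj1.trans hsl) with h9 | h9
    · linarith [h7.2]
    · exfalso
      have h10 := S.xlip (P j 0) (pt (p i))
      rw [dist_comm] at h10
      have h11 : |S.x (P j 0) - x₀| ≤ |S.x (P j 0) - S.x (pt (p i))| + |S.x (pt (p i)) - x₀| :=
        abs_sub_le _ _ _
      have h12 := hVcov (p i) (hpV i hi)
      have h13 : S.xc (p i) = S.x (pt (p i)) := rfl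
      rw [h13] at h12
      have h14 : exp (S.K * (dist (pt (p i)) (P j 0) + 1) - S.h (P j 0)) ≤
          exp (S.K * (D₃ + 4) - S.h (P j 0)) := Real.exp_le_exp.mpr (by linarith)
      have h15 : exp (-S.hc (p i)) ≤ exp (S.K * (D₃ + 4) - S.h (P j 0)) :=
        Real.exp_le_exp.mpr (by linarith [h7.1])
      have h16 : A₃ * exp (-S.hc (p i)) ≤ A₃ * exp (S.K * (D₃ + 4) - S.h (P j 0)) := by gcongr
      have h17 : (1 + A₃) * exp (S.K * (D₃ + 4) - S.h (P j 0)) ≤ exp (-S.h (P j 0) + κ') := by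
        calc (1 + A₃) * exp (S.K * (D₃ + 4) - S.h (P j 0))
            = exp (log (1 + A₃) + (S.K * (D₃ + 4) - S.h (P j 0))) := by
              rw [Real.exp_add, Real.exp_log (by positivity)]
          _ ≤ _ := Real.exp_le_exp.mpr (by linarith)
      linarith
  · -- stretches without big points are short
    intro i j hij hjn hlt
    have h1 := S.seg_dist p x₀ A₃ (exp e) S.m₀ Tη hν hA₃ i j hij (hjν j hjn)
      (fun k _ hk2 => hstep k (by omega)) (S.floor_c _) (S.floor_c _)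
      (fun k hk1 hk2 => (hlt k hk1 hk2).le) (hVcov _ (hpV i (by omega))) (hVcov _ (hpV j hjn))
    have h2 := (abs_le.mp (hρlip (pt (p i)) (pt (p j)))).1
    have h3 : S.K * (2 * (Tη - S.m₀) + 4 * log (1 + (2 * A₃ + exp (5 * S.K)) * exp e) + 1) ≤
        S.K * (2 * (Tη - S.m₀) + 4 * (log (1 + (2 * A₃ + exp (5 * S.K))) + e) + 1) := by gcongr
    linarith
  · -- consecutive big points are close
    intro i j hij hjn hi hj hlt
    have h2 := (abs_le.mp (hρlip (pt (p i)) (pt (p j)))).1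
    rcases Nat.lt_or_ge (i + 1) j with h | h
    · have h4 := abs_le.mp (S.h_step4 (hstep i (by omega)))
      have h5 := abs_le.mp (S.h_step4 (hstep (j - 1) (by omega)))
      rw [Nat.sub_add_cancel (by omega)] at h5
      have h6 := hlt (i + 1) (by omega) (by omega)
      have h7 := hlt (j - 1) (by omega) (by omega)
      have e1 : S.hc (p i) = S.h (pt (p i)) := rfl
      have e2 : S.hc (p j) = S.h (pt (p j)) := rfl
      have e3 : S.hc (p (i + 1)) = S.h (pt (p (i + 1))) := rfl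
      have e4 : S.hc (p (j - 1)) = S.h (pt (p (j - 1))) := rfl
      have h1 := S.seg_dist p x₀ A₃ (exp e) Tη (Tη + 5 * S.K) hν hA₃ i j (by omega) (hjν j hjn)
        (fun k _ hk2 => hstep k (by omega)) hi hj
        (by
          intro k hk1 hk2
          rcases hk1.lt_or_eq with h8 | h8
          · rcases hk2.lt_or_eq with h9 | h9
            · linarith [hlt k h8 h9]
            · subst h9; linarith [h5.1]
          · subst h8; linarith [h4.2]) (hVcov _ (hpV i (by omega))) (hVcov _ (hpV j hjn))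
      have h3 : S.K * (2 * (Tη + 5 * S.K - Tη) + 4 * log (1 + (2 * A₃ + exp (5 * S.K)) * exp e) + 1) ≤
          S.K * (2 * (5 * S.K) + 4 * (log (1 + (2 * A₃ + exp (5 * S.K))) + e) + 1) := by
        have : Tη + 5 * S.K - Tη = 5 * S.K := by ring
        rw [this]
        gcongr
      linarith
    · have : j = i + 1 := by omega
      subst this
      have h3 := hstep i (by omega)
      linarith

end Data

end SolGeom
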