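import Pool.Agent.H28.Sol.Basic

namespace SolGeom

open Real Set

/-- The coarse information about a quasi-isometric embedding of the hyperbolic plane into the
part `t ≥ 0` of `Sol` which is used in the proof. -/
structure Data where
  x : UpperHalfPlane → ℝ
  y : UpperHalfPlane → ℝ
  h : UpperHalfPlane → ℝ
  K : ℝ
  m₀ : ℝ
  one_le_K : 1 ≤ K
  hlip : ∀ z w, |h z - h w| ≤ K * (dist z w + 1)
  xlip : ∀ z w, |x z - x w| ≤ exp (K * (dist z w + 1) - h z)
  ylip : ∀ z w, |y z - y w| ≤ exp (K * (dist z w + 1) + h z)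
  dist_le : ∀ z w m M N, m ≤ h z → m ≤ h w → h z ≤ M → h w ≤ M → 0 ≤ N →
     |x z - x w| ≤ N * exp (-m) → |y z - y w| ≤ N * exp M →
     dist z w ≤ K * (2 * (M - m) + 4 * log (1 + N) + 1)
  floor : ∀ z, m₀ ≤ h z
  near : ∃ z, h z ≤ m₀ + 1

theorem exists_data {K C : ℝ} {f : UpperHalfPlane → SolPt} (hK : 1 ≤ K) (hC : 0 ≤ C)
    (hf : IsQIEmbedding K C f) (hpos : ∀ p, 0 ≤ (f p).t) : Nonempty Data := by
  have hKpos : 0 < K := by linarith
  have key : ∀ z w : UpperHalfPlane, ∃ ℓ, HasPath (f z) (f w) ℓ ∧ ℓ ≤ K * dist z w + C + 1 := by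
    intro z w
    obtain ⟨ℓ, h1, h2⟩ := exists_path_lt (p := f z) (q := f w) (r := K * dist z w + C + 1)
      (by linarith [(hf z w).2])
    exact ⟨ℓ, h1, h2.le⟩
  set K' := 2 * (K + C + 1) + K * (2 + C) with hK'
  have hK'1 : 2 * (K + C + 1) ≤ K' := by
    have : 0 ≤ K * (2 + C) := by positivity
    linarith
  have hK'2 : K * (2 + C) ≤ K' := by linarith
  have hA : ∀ z w : UpperHalfPlane, 2 * (K * dist z w + C + 1) ≤ K' * (dist z w + 1) := by
    intro z w
    have hd : 0 ≤ dist z w := dist_nonneg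
    have : 2 * (K * dist z w + C + 1) ≤ 2 * (K + C + 1) * (dist z w + 1) := by nlinarith
    nlinarith
  have hbdd : BddBelow (range fun p => (f p).t) := ⟨0, by rintro _ ⟨p, rfl⟩; exact hpos p⟩
  refine ⟨{
    x := fun p => (f p).x
    y := fun p => (f p).y
    h := fun p => (f p).t
    K := K'
    m₀ := sInf (range fun p => (f p).t)
    one_le_K := ?_
    hlip := ?_
    xlip := ?_
    ylip := ?_
    dist_le := ?_
    floor := ?_
    near := ?_ }⟩
  · linarith
  · intro z w
    obtain ⟨ℓ, h1, h2⟩ := key z w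
    have hb := h1.bounds
    have := hA z w
    rw [abs_sub_comm]
    linarith [hb.1, hb.2.1]
  · intro z w
    obtain ⟨ℓ, h1, h2⟩ := key z w
    have hb := h1.bounds
    have h3 := hA z w
    have h4 : ℓ ≤ exp ℓ := by linarith [Real.add_one_le_exp ℓ]
    have h5 : |(f z).x - (f w).x| ≤ exp ℓ * exp ℓ * exp (-(f z).t) := by
      rw [abs_sub_comm]
      refine hb.2.2.1.trans ?_
      gcongr
    refine h5.trans ?_
    rw [← Real.exp_add, ← Real.exp_add]
    apply Real.exp_le_exp.mpr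
    linarith
  · intro z w
    obtain ⟨ℓ, h1, h2⟩ := key z w
    have hb := h1.bounds
    have h3 := hA z w
    have h4 : ℓ ≤ exp ℓ := by linarith [Real.add_one_le_exp ℓ]
    have h5 : |(f z).y - (f w).y| ≤ exp ℓ * exp ℓ * exp ((f z).t) := by
      rw [abs_sub_comm]
      refine hb.2.2.2.trans ?_
      gcongr
    refine h5.trans ?_
    rw [← Real.exp_add, ← Real.exp_add]
    apply Real.exp_le_exp.mpr
    linarith
  · intro z w m M N h1 h2 h3 h4 h5 h6 h7
    have hu := solDist_upper (f z) (f w) m M N h1 h2 h3 h4 h5 h6 h7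
    have hl := (hf z w).1
    have hab : 0 ≤ |(f z).t - (f w).t| := abs_nonneg _
    have hlog : 0 ≤ log (1 + N) := Real.log_nonneg (by linarith)
    have hMm : 0 ≤ M - m := by linarith
    have h8 : 1 / K * dist z w ≤ 2 * (M - m) + 4 * log (1 + N) + 2 + C := by linarith
    have h9 : dist z w ≤ K * (2 * (M - m) + 4 * log (1 + N) + 2 + C) := by
      rw [one_div, inv_mul_le_iff₀ hKpos] at h8
      exact h8
    refine h9.trans ?_
    have h10 : K * (2 * (M - m) + 4 * log (1 + N)) ≤ K' * (2 * (M - m) + 4 * log (1 + N)) := by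
      apply mul_le_mul_of_nonneg_right _ (by positivity)
      linarith
    nlinarith
  · intro z
    exact csInf_le hbdd ⟨z, rfl⟩
  · obtain ⟨_, ⟨z, rfl⟩, hz⟩ := exists_lt_of_csInf_lt (Set.range_nonempty fun p => (f p).t)
      (lt_add_one (sInf (range fun p => (f p).t)))
    exact ⟨z, hz.le⟩

end SolGeom
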