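import Mathlib

/-!
# Sol geometry: definitions

`Sol` is `ℝ³` with coordinates `(x, y, t)` and the Riemannian metric
`ds² = e^{2t} dx² + e^{-2t} dy² + dt²`; its distance is the infimum of the lengths of the
piecewise continuously differentiable paths joining two points.
-/

namespace SolGeom

/-- A point of `Sol`, with its three coordinates. -/
structure SolPt where
  /-- first horizontal coordinate -/
  x : ℝ
  /-- second horizontal coordinate -/
  y : ℝ
  /-- height coordinate -/
  t : ℝ

/-- The length of the curve `s ↦ (a s, b s, c s)`, `0 ≤ s ≤ 1`, for the metric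
`e^{2t} dx² + e^{-2t} dy² + dt²`. -/
noncomputable def curveLength (a b c : ℝ → ℝ) : ℝ :=
  ∫ s in (0 : ℝ)..1, √(Real.exp (2 * c s) * (deriv a s) ^ 2
    + Real.exp (-(2 * c s)) * (deriv b s) ^ 2 + (deriv c s) ^ 2)

/-- `HasPath p q ℓ`: the points `p` and `q` are joined by a concatenation of finitely many
continuously differentiable curves of total length `ℓ`. -/
inductive HasPath : SolPt → SolPt → ℝ → Prop
  | curve (a b c : ℝ → ℝ) (ha : ContDiff ℝ 1 a) (hb : ContDiff ℝ 1 b) (hc : ContDiff ℝ 1 c) :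
      HasPath ⟨a 0, b 0, c 0⟩ ⟨a 1, b 1, c 1⟩ (curveLength a b c)
  | concat {p q r : SolPt} {ℓ₁ ℓ₂ : ℝ} (h₁ : HasPath p q ℓ₁) (h₂ : HasPath q r ℓ₂) :
      HasPath p r (ℓ₁ + ℓ₂)

/-- The path metric of `Sol`. -/
noncomputable def solDist (p q : SolPt) : ℝ := sInf {ℓ : ℝ | HasPath p q ℓ}

/-- `f` is a `(K, C)`-quasi-isometric embedding of the hyperbolic plane (Mathlib's upper half
plane with its metric of curvature `-1`) into `Sol`. -/
def IsQIEmbedding (K C : ℝ) (f : UpperHalfPlane → SolPt) : Prop :=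
  ∀ p q : UpperHalfPlane, 1 / K * dist p q - C ≤ solDist (f p) (f q) ∧
    solDist (f p) (f q) ≤ K * dist p q + C

end SolGeom
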