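import Pool.Agent.H28.Sol.BallSum

namespace SolGeom

namespace Data

open Real Set Filter

variable (S : Data)

/-- Part III: below a low cell there are two leaves whose `x`-values are far apart. -/
theorem far_leaves (ε' : ℝ) (hε' : 0 < ε') : ∀ᶠ L in atTop, ∀ c₀ : Cell,
    S.hc c₀ ≤ S.m₀ + 2 * S.K + 1 →
    (∀ q ∈ S.Leaves c₀ (S.hc c₀ + L), ∀ m : ℕ, parent^[m] q = c₀ → (m : ℝ) ≤ 9 * S.K * L) ∧
    ∃ qa ∈ S.Leaves c₀ (S.hc c₀ + L), ∃ qb ∈ S.Leaves c₀ (S.hc c₀ + L),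
      exp (-S.hc c₀ - ε' * L) < S.xc qb - S.xc qa := by
  have hK := S.K_pos
  have hK1 := S.one_le_K
  have hA := S.A_pos
  have hA1 := S.one_le_A
  have hC₂ := S.C₂_nonneg
  obtain ⟨ε, hε⟩ : ∃ ε, ε = min (ε' / 100) (1 / 1000) := ⟨_, rfl⟩
  have hε0 : 0 < ε := by rw [hε]; positivity
  have hεε' : 100 * ε ≤ ε' := by
    have : ε ≤ ε' / 100 := by rw [hε]; exact min_le_left _ _
    linarith
  have hε1 : ε ≤ 1 / 1000 := by rw [hε]; exact min_le_right _ _
  obtain ⟨κ₁, hκ₁⟩ : ∃ κ₁, κ₁ = 1 - ε := ⟨_, rfl⟩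
  have hκ₁p : 0 < κ₁ := by linarith
  have hκ₁1 : κ₁ ≤ 1 := by linarith
  obtain ⟨c₁, hc₁, hG⟩ := S.growth κ₁ (by linarith)
  obtain ⟨lm, hlm⟩ : ∃ lm, lm = 8 * ε / κ₁ := ⟨_, rfl⟩
  have hlm0 : 0 < lm := by rw [hlm]; positivity
  filter_upwards [eventually_ge_atTop (2 * S.K + 1), eventually_ge_atTop (0 : ℝ),
    ev_const (8 * S.K * (2 * S.K + 1) + S.C₂ + 2) S.K hK, eventually_ge_atTop (1 : ℝ),
    eventually_gt_atTop (4 * S.K),
    ev_aff (log (80 * S.A) + 2 * (S.K * (4 * S.K + 1)) + (2 * S.K + 1)) (8 * S.K) (2 * S.A * (9 * S.K))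
      (ε / 2) (by positivity) (by positivity),
    ev_log (9 * S.K) (ε / 2) (by positivity) (by positivity),
    ev_aff (log 4 - 2 * log c₁ + log (2 * S.A)) 1 (17 * S.K) (2 * ε) (by positivity) (by positivity),
    ev_aff (log (480 / c₁) + 2 * (S.K * (4 * S.K + 1))) (8 * S.K) (34 * S.K * S.A) (1 * lm)
        (by positivity) (by positivity)] with L l1 l2 l3 l4 l5 l6 l7 l8 l9
  intro c₀ hc₀
  have hL0 : 0 < L := by linarith
  obtain ⟨T, hT⟩ : ∃ T, T = S.hc c₀ := ⟨_, rfl⟩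
  obtain ⟨H, hH⟩ : ∃ H, H = T + L := ⟨_, rfl⟩
  rw [← hT, ← hH]
  have hT0 : S.m₀ ≤ T := by rw [hT]; exact S.floor_c _
  have hcH : S.hc c₀ < H := by rw [← hT, hH]; linarith
  have hTm : T - S.m₀ ≤ 2 * S.K + 1 := by linarith
  have hnn : 0 + 1 + (8 * S.K * (H - S.m₀) + S.C₂ + 1) ≤ 9 * S.K * L := by
    have h1 : 8 * S.K * (H - S.m₀) ≤ 8 * S.K * (2 * S.K + 1 + L) := by
      have : H - S.m₀ ≤ 2 * S.K + 1 + L := by rw [hH]; linarith
      gcongr
    linarith
  have hdepth : ∀ q ∈ S.Leaves c₀ H, ∀ m : ℕ, parent^[m] q = c₀ → (m : ℝ) ≤ 9 * S.K * L := by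
    rintro q ⟨k, hk1, hk2, hk3⟩ m hm
    have hkm : k = m := depth_unique hk1 hm
    subst hkm
    have := S.leaf_depth hk3 S.m₀ (fun _ _ _ => S.floor_c _) ((S.floor_c c₀).trans hcH.le)
    linarith
  refine ⟨hdepth, ?_⟩
  by_contra hcon
  push Not at hcon
  -- all leaves are close in `x`
  have hspread : ∀ q ∈ S.Leaves c₀ H, ∀ q' ∈ S.Leaves c₀ H,
      |S.xc q - S.xc q'| ≤ exp (-T - 100 * ε * L) := by
    intro q hq q' hq'
    have h1 : exp (-T - ε' * L) ≤ exp (-T - 100 * ε * L) := by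
      apply Real.exp_le_exp.mpr
      have : 100 * ε * L ≤ ε' * L := by gcongr
      linarith
    rw [abs_le]
    constructor
    · linarith [hcon q hq q' hq']
    · linarith [hcon q' hq' q hq]
  -- the number of leaves
  have hn9 : 1 ≤ 9 * S.K * L := by
    have h1 : (1 : ℝ) * 1 ≤ S.K * L := mul_le_mul hK1 l4 zero_le_one hK.le
    linarith
  have hN : (S.N c₀ H : ℝ) ≤ exp ((1 + ε) * L) := by
    have hreg := fun q (hq : q ∈ S.Leaves c₀ H) => S.leaf_region (c₀ := c₀) (c := c₀) (q := q)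
      (H' := H) (R := 0) (n := 9 * S.K * L) (by rw [dist_self]) (by rw [← hT, hH]; linarith) hq hnn
    have h1 := S.count_region (S.lv c₀ H) H (9 * S.K * L) (S.xc c₀) (S.yc c₀) hn9
      (fun q hq => (hreg q (by simpa using hq)).1) (fun q hq => (hreg q (by simpa using hq)).2.1)
      (fun q hq => (hreg q (by simpa using hq)).2.2)
    rw [S.card_lv] at h1
    refine h1.trans ?_
    have hbig : 2 * (9 * S.K * L) * S.A * exp (H - S.m₀) + 2
        ≤ 4 * (9 * S.K * L) * S.A * exp (H - S.m₀) := by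
      have h2 : 1 ≤ exp (H - S.m₀) := Real.one_le_exp (by rw [hH]; linarith)
      have h3 : 1 ≤ (9 * S.K * L) * S.A := by
        have : 1 * 1 ≤ (9 * S.K * L) * S.A := mul_le_mul hn9 hA1 zero_le_one (by linarith)
        linarith
      have h4 : 1 * 1 ≤ ((9 * S.K * L) * S.A) * exp (H - S.m₀) :=
        mul_le_mul h3 h2 zero_le_one (by linarith)
      linarith
    calc (2 * (9 * S.K * L) * S.A * exp (H - S.m₀) + 2) * Phi (S.rD (9 * S.K * L))
        ≤ (4 * (9 * S.K * L) * S.A * exp (H - S.m₀)) * Phi (S.rD (9 * S.K * L)) := by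
          have hP := Phi_pos (S.rD (9 * S.K * L))
          gcongr
      _ = exp (log (80 * S.A) + log (9 * S.K * L) + 2 * S.rD (9 * S.K * L) + (H - S.m₀)) := by
          rw [Real.exp_add, Real.exp_add, Real.exp_add, Real.exp_log (by positivity),
            Real.exp_log (by positivity)]
          unfold Phi
          ring
      _ ≤ exp ((1 + ε) * L) := by
          apply Real.exp_le_exp.mpr
          rw [S.two_rD]
          have h3 : log (9 * S.K * L) ≤ log (1 + 9 * S.K * L) :=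
            Real.log_le_log (by positivity) (by linarith)
          have h4 : 1 + 2 * S.A * (9 * S.K * L) = 1 + 2 * S.A * (9 * S.K) * L := by ring
          rw [h4, hH]
          linarith
  -- the contradiction
  have hlog17 : ∀ q ∈ S.Leaves c₀ H, ∀ m : ℕ, parent^[m] q = c₀ → (m : ℝ) ≤ 17 * S.K * L := by
    intro q hq m hm
    have := hdepth q hq m hm
    have h2 : 0 < S.K * L := by positivity
    linarith
  obtain ⟨q₀, hq₀⟩ := S.leaves_nonempty c₀ H
  obtain ⟨b, hb⟩ : ∃ b, b = 100 * ε * L := ⟨_, rfl⟩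
  have hb0 : 0 ≤ b := by rw [hb]; positivity
  rw [← hb] at hspread
  obtain ⟨t, ht⟩ : ∃ t, t = b + 4 * ε / κ₁ * L := ⟨_, rfl⟩
  have ht0 : 0 ≤ t := by rw [ht]; positivity
  have h4ε : 4 * ε / κ₁ ≤ 8 * ε := by
    rw [div_le_iff₀ hκ₁p]
    have : 8 * ε * (1 / 2) ≤ 8 * ε * κ₁ := by gcongr; linarith
    linarith
  have hHt : S.hc c₀ + t + 2 * S.K < H := by
    have h5 : (4 * ε / κ₁) * L ≤ (8 * ε) * L := by gcongr
    have h6 : (100 * ε + 8 * ε) * L ≤ (1 / 2) * L := by gcongr; linarith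
    rw [← hT, ht, hb, hH]
    linarith
  have hsp := S.spread hG hκ₁p.le hc₁ c₀ H t (exp (-T - b)) (S.xc q₀) (17 * S.K * L) ht0 hHt
    (Real.exp_pos _) (by positivity) (fun q hq => hspread q hq q₀ hq₀) hlog17
  have hlogB : log (S.A * (17 * S.K * L + 1) / exp (-T - b))
      = log (S.A * (17 * S.K * L + 1)) + T + b := by
    rw [Real.log_div (by positivity) (by positivity), Real.log_exp]; ring
  rw [hlogB, hH] at hsp
  rw [hH] at hN
  have hκ₁t : κ₁ * t = κ₁ * b + 4 * ε * L := by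
    rw [ht]; field_simp
  have hf := final_first hc₁ hκ₁ hκ₁1 hK hA1 hL0 hκ₁t hN l8 (T := T)
  have hs := final_second (T := T) (x := S.hc c₀) (A := S.A) (K := S.K) (θ := 1) (l := lm)
    (lm := lm) hc₁ hκ₁p hL0 hε0.le (by positivity) le_rfl hκ₁t ht (by
      rw [← hT]
      have : 0 ≤ 1 * lm * L := by positivity
      linarith) (by rw [hlm]; apply le_of_eq; ring) (by
      rw [hlm, hb]
      have h1 : 7 * (1 * (8 * ε / κ₁)) ≤ κ₁ * (100 * ε) := by
        have h2 : 7 * (1 * (8 * ε / κ₁)) = 14 * (4 * ε / κ₁) := by ring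
        have h3 : (9 / 10) * (100 * ε) ≤ κ₁ * (100 * ε) := by gcongr; linarith
        have h4 : 4 * ε / κ₁ ≤ 5 * ε := by
          rw [div_le_iff₀ hκ₁p]
          have : 5 * ε * (9 / 10) ≤ 5 * ε * κ₁ := by gcongr; linarith
          linarith
        rw [h2]; linarith
      calc 7 * (1 * (8 * ε / κ₁)) * L ≤ κ₁ * (100 * ε) * L := by gcongr
        _ = _ := by ring) l9
  have hpos : 0 < c₁ * exp (κ₁ * t) := by positivity
  unfold Phi rD at hsp
  linarith

end Data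

end SolGeom
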