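import Pool.Agent.H28.Sol.BallSum
import Pool.Agent.H28.Sol.Combi

namespace SolGeom

namespace Data

open Real Set

variable (S : Data)

/-- A bichromatic short edge covers `x₀`. -/
theorem cover_of_edge {z w : UpperHalfPlane} {x₀ : ℝ} (hd : dist z w ≤ 1)
    (hb : ¬ (x₀ ≤ S.x z ↔ x₀ ≤ S.x w)) {c : Cell} (hc : dist (pt c) z ≤ 1) :
    |S.xc c - x₀| ≤ 2 * S.A ^ 2 * exp (-S.hc c) := by
  have hA1 := S.one_le_A
  have h1 := S.x_step hd
  have h2 := S.x_step hc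
  have h3 := abs_le.mp (S.h_step hc)
  have h4 : |S.x z - x₀| ≤ |S.x z - S.x w| := by
    rcases le_or_gt x₀ (S.x z) with h5 | h5
    · have h6 : S.x w < x₀ := by
        by_contra h7
        exact hb ⟨fun _ => not_lt.mp h7, fun _ => h5⟩
      rw [abs_of_nonneg (by linarith), abs_of_nonneg (by linarith)]; linarith
    · have h6 : x₀ ≤ S.x w := by
        by_contra h7
        exact hb ⟨fun h8 => absurd h8 (not_le.mpr h5), fun h8 => absurd h8 h7⟩
      rw [abs_of_nonpos (by linarith), abs_of_nonpos (by linarith)]; linarith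
  have h5 : exp (-S.h z) ≤ S.A * exp (-S.hc c) := by
    unfold A
    rw [← Real.exp_add]
    apply Real.exp_le_exp.mpr
    have : S.hc c = S.h (pt c) := rfl
    linarith [h3.2]
  have h6 : |S.xc c - x₀| ≤ |S.xc c - S.x z| + |S.x z - x₀| := abs_sub_le _ _ _
  have h7 : |S.xc c - S.x z| ≤ S.A * exp (-S.hc c) := h2
  have h8 : S.A * exp (-S.h z) ≤ S.A * (S.A * exp (-S.hc c)) := by gcongr
  have h9 : S.A * exp (-S.hc c) ≤ S.A ^ 2 * exp (-S.hc c) := by
    have := Real.exp_pos (-S.hc c)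
    have : S.A * 1 ≤ S.A * S.A := by gcongr
    nlinarith
  have h10 : S.A * (S.A * exp (-S.hc c)) = S.A ^ 2 * exp (-S.hc c) := by ring
  linarith

/-- The sequence of covering cells which crosses the rectangle. -/
theorem grid_seq {P : ℝ → ℝ → UpperHalfPlane}
    (hP : ∀ s r s' r', cosh (dist (P s r) (P s' r')) =
      cosh (s - s') * cosh r * cosh r' - sinh r * sinh r')
    (l R x₀ : ℝ) (hl : 0 ≤ l) (hR : 0 ≤ R) (V : Finset Cell)
    (hV : ∀ c s r, 0 ≤ s → s ≤ l → |r| ≤ R → dist (pt c) (P s r) ≤ 1 →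
      |S.xc c - x₀| ≤ 2 * S.A ^ 2 * exp (-S.hc c) → c ∈ V)
    (hleft : ∀ r, |r| ≤ R → S.x (P 0 r) < x₀) (hright : ∀ r, |r| ≤ R → x₀ ≤ S.x (P l r)) :
    ∃ (n : ℕ) (p : ℕ → Cell), n + 1 ≤ V.card ∧ (∀ i ≤ n, p i ∈ V) ∧
      (∀ i < n, dist (pt (p i)) (pt (p (i + 1))) ≤ 4) ∧
      (∃ s, dist (pt (p 0)) (P s (-R)) ≤ 1) ∧ (∃ s, dist (pt (p n)) (P s R) ≤ 1) := by
  classical
  obtain ⟨δ, hδ, hδs⟩ := fermi_small_step hP R hR
  obtain ⟨a, ha⟩ : ∃ a : ℕ, a = ⌈l / δ⌉₊ + 1 := ⟨_, rfl⟩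
  obtain ⟨b, hb⟩ : ∃ b : ℕ, b = ⌈2 * R⌉₊ + 1 := ⟨_, rfl⟩
  have ha0 : (0 : ℝ) < a := by rw [ha]; positivity
  have hb0 : (0 : ℝ) < b := by rw [hb]; positivity
  have hla : l / a ≤ δ := by
    rw [div_le_iff₀ ha0]
    have h1 : l / δ ≤ a := by
      rw [ha]; push_cast
      have := Nat.le_ceil (l / δ); linarith
    rw [div_le_iff₀ hδ] at h1
    linarith
  have hRb : 2 * R / b ≤ 1 := by
    rw [div_le_iff₀ hb0, hb]; push_cast
    have := Nat.le_ceil (2 * R); linarith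
  obtain ⟨pnt, hpnt⟩ : ∃ pnt : ℕ → ℕ → UpperHalfPlane,
      ∀ i j, pnt i j = P (l * i / a) (-R + 2 * R * j / b) := ⟨_, fun _ _ => rfl⟩
  have hs0 : ∀ i : ℕ, 0 ≤ l * i / a := fun i => by positivity
  have hsl : ∀ i : ℕ, i ≤ a → l * i / a ≤ l := by
    intro i hi
    rw [div_le_iff₀ ha0]
    have : (i : ℝ) ≤ a := by exact_mod_cast hi
    gcongr
  have hrR : ∀ j : ℕ, j ≤ b → |(-R + 2 * R * j / b)| ≤ R := by
    intro j hj
    have h1 : 2 * R * j / b ≤ 2 * R := by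
      rw [div_le_iff₀ hb0]
      have : (j : ℝ) ≤ b := by exact_mod_cast hj
      gcongr
    have h2 : 0 ≤ 2 * R * j / b := by positivity
    rw [abs_le]; constructor <;> linarith
  have hdh : ∀ i j : ℕ, j ≤ b → dist (pnt i j) (pnt (i + 1) j) ≤ 1 := by
    intro i j hj
    rw [hpnt, hpnt]
    apply hδs _ _ _ _ (hrR j hj)
    have : l * i / a - l * ((i + 1 : ℕ) : ℝ) / a = -(l / a) := by push_cast; ring
    rw [this, abs_neg, abs_of_nonneg (by positivity)]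
    exact hla
  have hdv : ∀ i j : ℕ, dist (pnt i j) (pnt i (j + 1)) ≤ 1 := by
    intro i j
    rw [hpnt, hpnt, fermi_dist_same_s hP]
    have : (-R + 2 * R * j / b) - (-R + 2 * R * ((j + 1 : ℕ) : ℝ) / b) = -(2 * R / b) := by
      push_cast; ring
    rw [this, abs_neg, abs_of_nonneg (by positivity)]
    exact hRb
  choose cl hcl using exists_cell
  have hmem : ∀ i j : ℕ, i ≤ a → j ≤ b → ∀ w, dist (pnt i j) w ≤ 1 →
      ¬ (x₀ ≤ S.x (pnt i j) ↔ x₀ ≤ S.x w) → cl (pnt i j) ∈ V := by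
    intro i j hi hj w hw hbi
    apply hV (cl (pnt i j)) (l * i / a) (-R + 2 * R * j / b) (hs0 i) (hsl i hi) (hrR j hj)
    · rw [← hpnt]; exact hcl _
    · exact S.cover_of_edge hw hbi (hcl _)
  obtain ⟨G, hG⟩ : ∃ G, G = cellGraph V := ⟨_, rfl⟩
  have hreach : ∀ z z' : UpperHalfPlane, cl z ∈ V → cl z' ∈ V → dist z z' ≤ 2 →
      G.Reachable (cl z) (cl z') := by
    intro z z' hz hz' hd
    by_cases h : cl z = cl z'
    · rw [h]
    · apply SimpleGraph.Adj.reachable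
      rw [hG]
      refine ⟨h, hz, hz', ?_⟩
      have h1 := hcl z
      have h2 := hcl z'
      rw [dist_comm] at h2
      calc dist (pt (cl z)) (pt (cl z')) ≤ dist (pt (cl z)) z + dist z z' + dist z' (pt (cl z')) :=
            dist_triangle4 _ _ _ _
        _ ≤ 4 := by linarith
  set U : ℕ → ℕ → Prop := fun i j => ∃ i' < a, ¬ (x₀ ≤ S.x (pnt i' 0) ↔ x₀ ≤ S.x (pnt (i' + 1) 0)) ∧
    G.Reachable (cl (pnt i' 0)) (cl (pnt i j)) with hU
  have hsame : ∀ i j i' j', cl (pnt i j) ∈ V → cl (pnt i' j') ∈ V →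
      dist (pnt i j) (pnt i' j') ≤ 2 → U i j → U i' j' := by
    rintro i j i' j' h1 h2 h3 ⟨k, hk, hk1, hk2⟩
    exact ⟨k, hk, hk1, hk2.trans (hreach _ _ h1 h2 h3)⟩
  obtain ⟨i, hi, hwall, i', hi', hwall', hreachable⟩ := hex_parity a b
    (fun i j => x₀ ≤ S.x (pnt i j)) U (by
      intro j hj
      rw [hpnt]
      simp only [Nat.cast_zero, mul_zero, zero_div]
      exact not_le.mpr (hleft _ (hrR j hj))) (by
      intro j hj
      rw [hpnt, mul_div_cancel_right₀ _ ha0.ne']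
      exact hright _ (hrR j hj)) (by
      intro i hi j hj
      have m1 : ¬ (x₀ ≤ S.x (pnt i j) ↔ x₀ ≤ S.x (pnt (i + 1) j)) → cl (pnt i j) ∈ V :=
        fun h => hmem i j hi.le hj.le _ (hdh i j hj.le) h
      have m2 : ¬ (x₀ ≤ S.x (pnt i (j + 1)) ↔ x₀ ≤ S.x (pnt (i + 1) (j + 1))) →
          cl (pnt i (j + 1)) ∈ V :=
        fun h => hmem i (j + 1) hi.le (by omega) _ (hdh i (j + 1) (by omega)) h
      have m3 : ¬ (x₀ ≤ S.x (pnt i j) ↔ x₀ ≤ S.x (pnt i (j + 1))) → cl (pnt i j) ∈ V :=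
        fun h => hmem i j hi.le hj.le _ (hdv i j) h
      have m4 : ¬ (x₀ ≤ S.x (pnt (i + 1) j) ↔ x₀ ≤ S.x (pnt (i + 1) (j + 1))) →
          cl (pnt (i + 1) j) ∈ V :=
        fun h => hmem (i + 1) j (by omega) hj.le _ (hdv (i + 1) j) h
      have d1 : dist (pnt i j) (pnt i (j + 1)) ≤ 2 := (hdv i j).trans one_le_two
      have d2 : dist (pnt i j) (pnt (i + 1) j) ≤ 2 := (hdh i j hj.le).trans one_le_two
      have d3 : dist (pnt i (j + 1)) (pnt (i + 1) j) ≤ 2 := by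
        calc dist (pnt i (j + 1)) (pnt (i + 1) j) ≤ dist (pnt i (j + 1)) (pnt i j) +
              dist (pnt i j) (pnt (i + 1) j) := dist_triangle _ _ _
          _ ≤ 2 := by
              rw [dist_comm (pnt i (j + 1))]
              linarith [hdv i j, hdh i j hj.le]
      have d1' := d1
      rw [dist_comm] at d1'
      have d2' := d2
      rw [dist_comm] at d2'
      have d3' := d3
      rw [dist_comm] at d3'
      refine ⟨(¬ (x₀ ≤ S.x (pnt i j) ↔ x₀ ≤ S.x (pnt (i + 1) j)) ∧ U i j) ∨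
        (¬ (x₀ ≤ S.x (pnt i (j + 1)) ↔ x₀ ≤ S.x (pnt (i + 1) (j + 1))) ∧ U i (j + 1)) ∨
        (¬ (x₀ ≤ S.x (pnt i j) ↔ x₀ ≤ S.x (pnt i (j + 1))) ∧ U i j) ∨
        (¬ (x₀ ≤ S.x (pnt (i + 1) j) ↔ x₀ ≤ S.x (pnt (i + 1) (j + 1))) ∧ U (i + 1) j), ?_, ?_, ?_, ?_⟩
      · intro h
        constructor
        · intro hu; exact Or.inl ⟨h, hu⟩
        · rintro (⟨_, hu⟩ | ⟨h', hu⟩ | ⟨_, hu⟩ | ⟨h', hu⟩)
          · exact hu
          · exact hsame _ _ _ _ (m2 h') (m1 h) d1' hu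
          · exact hu
          · exact hsame _ _ _ _ (m4 h') (m1 h) d2' hu
      · intro h
        constructor
        · intro hu; exact Or.inr (Or.inl ⟨h, hu⟩)
        · rintro (⟨h', hu⟩ | ⟨_, hu⟩ | ⟨h', hu⟩ | ⟨h', hu⟩)
          · exact hsame _ _ _ _ (m1 h') (m2 h) d1 hu
          · exact hu
          · exact hsame _ _ _ _ (m3 h') (m2 h) d1 hu
          · exact hsame _ _ _ _ (m4 h') (m2 h) d3' hu
      · intro h
        constructor
        · intro hu; exact Or.inr (Or.inr (Or.inl ⟨h, hu⟩))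
        · rintro (⟨_, hu⟩ | ⟨h', hu⟩ | ⟨_, hu⟩ | ⟨h', hu⟩)
          · exact hu
          · exact hsame _ _ _ _ (m2 h') (m3 h) d1' hu
          · exact hu
          · exact hsame _ _ _ _ (m4 h') (m3 h) d2' hu
      · intro h
        constructor
        · intro hu; exact Or.inr (Or.inr (Or.inr ⟨h, hu⟩))
        · rintro (⟨h', hu⟩ | ⟨h', hu⟩ | ⟨h', hu⟩ | ⟨_, hu⟩)
          · exact hsame _ _ _ _ (m1 h') (m4 h) d2 hu
          · exact hsame _ _ _ _ (m2 h') (m4 h) d3 hu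
          · exact hsame _ _ _ _ (m3 h') (m4 h) d2 hu
          · exact hu) (by
      intro i hi hw
      exact ⟨i, hi, hw, SimpleGraph.Reachable.refl _⟩)
  rw [hG] at hreachable
  obtain ⟨n, p, hp0, hpn, hcard, hpV, hstep⟩ := exists_seq V _ _
    (hmem i' 0 hi'.le (Nat.zero_le _) _ (hdh i' 0 (Nat.zero_le _)) hwall') hreachable
  refine ⟨n, p, hcard, hpV, hstep, ⟨l * i' / a, ?_⟩, ⟨l * i / a, ?_⟩⟩
  · rw [hp0]
    have := hcl (pnt i' 0)
    rw [hpnt] at this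
    simpa [hpnt] using this
  · rw [hpn]
    have := hcl (pnt i b)
    rw [hpnt, mul_div_cancel_right₀ _ hb0.ne'] at this
    have e : -R + 2 * R = R := by ring
    rw [e] at this
    rw [hpnt, mul_div_cancel_right₀ _ hb0.ne', e]
    exact this

end Data

end SolGeom
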