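import Pool.Agent.H28.Sol.FarLeaves
import Pool.Agent.H28.Sol.Grid

namespace SolGeom

namespace Data

open Real Set Filter

variable (S : Data)

/-- The choice of `x₀`. -/
theorem exists_x0 (F : Finset Cell) (γ : ℕ → UpperHalfPlane) (J : Finset ℕ) (A₃ ω T' κ' u v : ℝ)
    (hA₃ : 0 ≤ A₃) (hω : 0 ≤ ω) (huv : u ≤ v)
    (h : 2 * A₃ * ω * ∑ c ∈ F, exp (-S.hc c) + J.card * (2 * exp (-T' + κ')) < v - u) :
    ∃ x₀ ∈ Icc u v, ((F.filter (fun c => |S.xc c - x₀| ≤ A₃ * exp (-S.hc c))).card : ℝ) * ω < 1 ∧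
      ∀ j ∈ J, S.h (γ j) ≤ T' ∨ exp (-S.h (γ j) + κ') < |S.x (γ j) - x₀| := by
  classical
  obtain ⟨x₀, hx₀, hlt⟩ := exists_light_point₂ F S.xc (fun c => A₃ * exp (-S.hc c)) (fun _ => ω)
    (J.filter (fun j => T' < S.h (γ j))) (fun j => S.x (γ j)) (fun j => exp (-S.h (γ j) + κ'))
    (fun _ => 1) (fun c _ => by positivity) (fun _ _ => hω) (fun j _ => by positivity)
    (fun _ _ => zero_le_one) huv (by
      refine lt_of_le_of_lt ?_ h
      apply add_le_add
      · rw [Finset.mul_sum]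
        apply le_of_eq
        apply Finset.sum_congr rfl
        intro c _
        ring
      · calc ∑ j ∈ J.filter (fun j => T' < S.h (γ j)), 2 * exp (-S.h (γ j) + κ') * 1
            ≤ ∑ j ∈ J.filter (fun j => T' < S.h (γ j)), 2 * exp (-T' + κ') := by
              apply Finset.sum_le_sum
              intro j hj
              rw [Finset.mem_filter] at hj
              rw [mul_one]
              have : exp (-S.h (γ j) + κ') ≤ exp (-T' + κ') :=
                Real.exp_le_exp.mpr (by linarith [hj.2])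
              linarith
          _ = ((J.filter (fun j => T' < S.h (γ j))).card : ℝ) * (2 * exp (-T' + κ')) := by
              rw [Finset.sum_const, nsmul_eq_mul]
          _ ≤ _ := by
              gcongr
              exact Finset.filter_subset _ _)
  refine ⟨x₀, hx₀, ?_, ?_⟩
  · rw [Finset.sum_const, nsmul_eq_mul] at hlt
    have : 0 ≤ ∑ j ∈ (J.filter (fun j => T' < S.h (γ j))).filter
        (fun j => |S.x (γ j) - x₀| ≤ exp (-S.h (γ j) + κ')), (1 : ℝ) :=
      Finset.sum_nonneg (fun _ _ => zero_le_one)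
    linarith
  · intro j hj
    by_contra hcon
    push Not at hcon
    have h1 : (1 : ℝ) ≤ ∑ j ∈ (J.filter (fun j => T' < S.h (γ j))).filter
        (fun j => |S.x (γ j) - x₀| ≤ exp (-S.h (γ j) + κ')), (1 : ℝ) := by
      rw [Finset.sum_const, nsmul_eq_mul, mul_one]
      have : 0 < ((J.filter (fun j => T' < S.h (γ j))).filter
        (fun j => |S.x (γ j) - x₀| ≤ exp (-S.h (γ j) + κ'))).card :=
        Finset.card_pos.mpr ⟨j, by
          rw [Finset.mem_filter, Finset.mem_filter]; exact ⟨⟨hj, hcon.1⟩, hcon.2⟩⟩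
      exact_mod_cast this
    have h2 : 0 ≤ ∑ i ∈ F with |S.xc i - x₀| ≤ A₃ * exp (-S.hc i), ω :=
      Finset.sum_nonneg (fun _ _ => hω)
    linarith

/-- The distance of the end points of a stretch of a covering path. -/
theorem seg_dist (p : ℕ → Cell) (x₀ A₃ ν m M : ℝ) (hν : 1 ≤ ν) (hA₃ : 0 ≤ A₃) (i j : ℕ)
    (hij : i ≤ j) (hjν : (j : ℝ) ≤ ν)
    (hstep : ∀ k, i ≤ k → k < j → dist (pt (p k)) (pt (p (k + 1))) ≤ 4)
    (hlow : m ≤ S.hc (p i)) (hlow' : m ≤ S.hc (p j)) (hup : ∀ k, i ≤ k → k ≤ j → S.hc (p k) ≤ M)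
    (hcov : |S.xc (p i) - x₀| ≤ A₃ * exp (-S.hc (p i)))
    (hcov' : |S.xc (p j) - x₀| ≤ A₃ * exp (-S.hc (p j))) :
    dist (pt (p i)) (pt (p j)) ≤
      S.K * (2 * (M - m) + 4 * log (1 + (2 * A₃ + exp (5 * S.K)) * ν) + 1) := by
  have hK := S.K_pos
  have hy : ∀ k, i ≤ k → k ≤ j → |S.yc (p i) - S.yc (p k)| ≤ ((k : ℝ) - i) * (exp (5 * S.K) * exp M) := by
    intro k
    induction k with
    | zero =>
      intro h1 _
      have : i = 0 := by omega
      subst this
      simp
    | succ k ih =>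
      intro h1 h2
      rcases h1.lt_or_eq with h3 | h3
      · have h4 := ih (by omega) (by omega)
        have h5 := S.ylip (pt (p k)) (pt (p (k + 1)))
        have h6 : exp (S.K * (dist (pt (p k)) (pt (p (k + 1))) + 1) + S.h (pt (p k)))
            ≤ exp (5 * S.K) * exp M := by
          rw [← Real.exp_add]
          apply Real.exp_le_exp.mpr
          have h7 := hstep k (by omega) (by omega)
          have h8 := hup k (by omega) (by omega)
          have h9 : S.hc (p k) = S.h (pt (p k)) := rfl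
          have h10 : S.K * (dist (pt (p k)) (pt (p (k + 1))) + 1) ≤ S.K * (4 + 1) := by gcongr
          linarith
        have h7 : |S.yc (p i) - S.yc (p (k + 1))| ≤ |S.yc (p i) - S.yc (p k)| +
            |S.yc (p k) - S.yc (p (k + 1))| := abs_sub_le _ _ _
        have h8 : |S.yc (p k) - S.yc (p (k + 1))| ≤ exp (5 * S.K) * exp M := h5.trans h6
        push_cast
        linarith
      · subst h3
        simp
  have hN : 0 ≤ (2 * A₃ + exp (5 * S.K)) * ν := by positivity
  apply S.dist_le (pt (p i)) (pt (p j)) m M ((2 * A₃ + exp (5 * S.K)) * ν) hlow hlow'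
    (hup i le_rfl hij) (hup j hij le_rfl) hN
  · have h1 : |S.xc (p i) - S.xc (p j)| ≤ |S.xc (p i) - x₀| + |x₀ - S.xc (p j)| :=
      abs_sub_le _ _ _
    rw [abs_sub_comm x₀] at h1
    have h2 : A₃ * exp (-S.hc (p i)) ≤ A₃ * exp (-m) := by
      have := Real.exp_le_exp.mpr (neg_le_neg hlow); gcongr
    have h3 : A₃ * exp (-S.hc (p j)) ≤ A₃ * exp (-m) := by
      have := Real.exp_le_exp.mpr (neg_le_neg hlow'); gcongr
    calc |S.xc (p i) - S.xc (p j)| ≤ 2 * A₃ * exp (-m) := by linarith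
      _ = 2 * A₃ * 1 * exp (-m) := by ring
      _ ≤ (2 * A₃ + exp (5 * S.K)) * ν * exp (-m) := by
          have := Real.exp_pos (5 * S.K)
          gcongr
          linarith
  · refine (hy j hij le_rfl).trans ?_
    have h1 : (j : ℝ) - i ≤ ν := by
      have : (0 : ℝ) ≤ i := by positivity
      linarith
    calc ((j : ℝ) - i) * (exp (5 * S.K) * exp M) ≤ ν * (exp (5 * S.K) * exp M) := by gcongr
      _ = (0 + exp (5 * S.K)) * ν * exp M := by ring
      _ ≤ (2 * A₃ + exp (5 * S.K)) * ν * exp M := by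
          gcongr
          positivity

/-- the distance to an ancestor -/
theorem dist_anc (e : Cell) (m : ℕ) : dist (pt e) (pt (parent^[m] e)) ≤ m := by
  induction m with
  | zero => simp
  | succ m ih =>
    calc dist (pt e) (pt (parent^[m + 1] e)) ≤ dist (pt e) (pt (parent^[m] e)) +
          dist (pt (parent^[m] e)) (pt (parent^[m + 1] e)) := dist_triangle _ _ _
      _ ≤ m + 1 := add_le_add ih (dist_iter_succ e m)
      _ = ((m + 1 : ℕ) : ℝ) := by push_cast; ring

end Data

end SolGeom
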