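import Mathlib
namespace SolGeom
open Real

theorem arith_params {κ l lm θ ε : ℝ} (hκ0 : 0 < κ) (hκ1 : κ < 1) (hθ : θ = κ * (1 - κ) / 16)
    (hlm0 : 0 < lm) (hlml : lm ≤ l) (hl1 : l ≤ 1 / 4) (hε : ε = κ * θ * lm / 16) :
    0 < θ ∧ θ ≤ 1 / 64 ∧ 0 < ε ∧ ε ≤ κ / 64 ∧ ε ≤ θ * lm / 16 ∧ 0 ≤ (1 - κ) * l - 3 * ε ∧
    4 * ε / (κ - ε) ≤ θ * lm / 2 ∧ 7 * (θ * l) ≤ (κ - ε) * ((1 - κ) * l - 3 * ε) ∧
    θ * l + ((1 - κ) * l - 3 * ε) + 4 * ε / (κ - ε) ≤ 1 / 2 := by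
  have h1κ : 0 < 1 - κ := by linarith
  have hl0 : 0 < l := by linarith
  have hθ0 : 0 < θ := by rw [hθ]; positivity
  have hθ64 : θ ≤ 1 / 64 := by rw [hθ]; nlinarith [sq_nonneg (κ - 1/2)]
  have hε0 : 0 < ε := by rw [hε]; positivity
  have hlm4 : lm ≤ 1 / 4 := by linarith
  have hθlm : θ * lm ≤ θ * l := by gcongr
  have hθlm0 : 0 < θ * lm := by positivity
  have hε1 : 16 * ε = κ * (θ * lm) := by rw [hε]; ring
  have hε2 : ε ≤ θ * lm / 16 := by
    have : κ * (θ * lm) ≤ 1 * (θ * lm) := by gcongr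
    linarith
  have hεκ : ε ≤ κ / 64 := by
    have h1 : θ * lm ≤ 1 / 64 * (1 / 4) := by gcongr
    have h2 : κ * (θ * lm) ≤ κ * (1 / 64 * (1 / 4)) := by gcongr
    linarith
  have h16 : κ * (1 - κ) = 16 * θ := by rw [hθ]; ring
  have hκ₁0 : κ / 2 ≤ κ - ε := by linarith
  have hκ₁p : 0 < κ - ε := by linarith
  have h16θ : 16 * θ ≤ 1 - κ := by
    rw [← h16]
    calc κ * (1 - κ) ≤ 1 * (1 - κ) := by gcongr
      _ = 1 - κ := one_mul _
  have h16θl : 16 * θ * l ≤ (1 - κ) * l := by gcongr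
  have hbpos : 0 ≤ (1 - κ) * l - 3 * ε := by linarith [mul_pos hθ0 hl0]
  have h4ε : 4 * ε / (κ - ε) ≤ θ * lm / 2 := by
    rw [div_le_iff₀ hκ₁p]
    have : θ * lm / 2 * (κ / 2) ≤ θ * lm / 2 * (κ - ε) := by gcongr
    linarith
  refine ⟨hθ0, hθ64, hε0, hεκ, hε2, hbpos, h4ε, ?_, ?_⟩
  · have h6 : κ / 2 * ((1 - κ) * l) = 8 * (θ * l) := by
      have : κ / 2 * ((1 - κ) * l) = (κ * (1 - κ)) * l / 2 := by ring
      rw [this, h16]; ring
    have h7 : κ / 2 * ((1 - κ) * l) ≤ (κ - ε) * ((1 - κ) * l) := by gcongr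
    have h8 : (κ - ε) * (3 * ε) ≤ 1 * (3 * ε) := by gcongr; linarith
    have h9 : (κ - ε) * ((1 - κ) * l - 3 * ε) = (κ - ε) * ((1 - κ) * l) - (κ - ε) * (3 * ε) := by
      ring
    rw [h9]
    linarith
  · have h1 : θ * l ≤ 1 / 64 * (1 / 4) := by gcongr
    have h2 : (1 - κ) * l ≤ 1 * (1 / 4) := by gcongr; linarith
    have h3 : θ * lm ≤ 1 / 64 * (1 / 4) := by gcongr
    linarith

theorem final_first {κ ε κ₁ c₁ A K T b t L n : ℝ} (hc₁ : 0 < c₁) (hκ₁ : κ₁ = κ - ε)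
    (hκ₁1 : κ₁ ≤ 1) (hK : 0 < K) (hA1 : 1 ≤ A) (hL0 : 0 < L)
    (ht : κ₁ * t = κ₁ * b + 4 * ε * L) (hn : n ≤ exp ((κ + ε) * L))
    (l7 : (log 4 - 2 * log c₁ + log (2 * A)) + 1 * log (1 + (17 * K) * L) ≤ (2 * ε) * L) :
    n * (c₁⁻¹ * exp (-(κ₁ * (T + L - (log (A * (17 * K * L + 1)) + T + b)))))
      ≤ (c₁ * exp (κ₁ * t)) / 4 := by
  have hA : 0 < A := by linarith
  have h1 : 0 ≤ log (A * (17 * K * L + 1)) := by
    apply Real.log_nonneg
    have : 0 < 17 * K * L := by positivity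
    nlinarith
  have h2 : log (A * (17 * K * L + 1)) ≤ log (2 * A) + log (1 + 17 * K * L) := by
    rw [← Real.log_mul (by positivity) (by positivity)]
    apply Real.log_le_log (by positivity)
    have : 0 < A * (1 + 17 * K * L) := by positivity
    linarith
  calc n * (c₁⁻¹ * exp (-(κ₁ * (T + L - (log (A * (17 * K * L + 1)) + T + b)))))
      ≤ exp ((κ + ε) * L) * (c₁⁻¹ *
          exp (-(κ₁ * (T + L - (log (A * (17 * K * L + 1)) + T + b))))) := by
        gcongr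
    _ = exp ((κ + ε) * L - log c₁ +
          (-(κ₁ * (T + L - (log (A * (17 * K * L + 1)) + T + b))))) := by
        rw [Real.exp_add, Real.exp_sub, Real.exp_log hc₁]
        field_simp
    _ ≤ exp (log c₁ + κ₁ * t - log 4) := by
        apply Real.exp_le_exp.mpr
        have h3 : κ₁ * log (A * (17 * K * L + 1)) ≤ 1 * log (A * (17 * K * L + 1)) := by
          gcongr
        have h4 : (κ + ε) * L - log c₁ + (-(κ₁ * (T + L - (log (A * (17 * K * L + 1)) + T + b))))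
            = 2 * ε * L - log c₁ + κ₁ * b + κ₁ * log (A * (17 * K * L + 1)) := by
          rw [hκ₁]; ring
        rw [h4, ht]
        linarith
    _ = (c₁ * exp (κ₁ * t)) / 4 := by
        rw [Real.exp_sub, Real.exp_add, Real.exp_log hc₁, Real.exp_log (by norm_num)]

theorem final_second {ε κ₁ c₁ A K T b t L x θ l lm : ℝ} (hc₁ : 0 < c₁)
    (hκ₁p : 0 < κ₁) (hL0 : 0 < L) (hε : 0 ≤ ε)
    (hθl : 0 ≤ θ * l) (hθlm : θ * lm ≤ θ * l)
    (ht : κ₁ * t = κ₁ * b + 4 * ε * L) (ht' : t = b + 4 * ε / κ₁ * L)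
    (hx : x ≤ T + θ * l * L) (h4ε : 4 * ε / κ₁ ≤ θ * lm / 2)
    (hb : (7 * (θ * l)) * L ≤ κ₁ * b)
    (l8 : (log (480 / c₁) + 2 * (K * (4 * K + 1))) + (8 * K) * log (1 + (34 * K * A) * L)
        ≤ (θ * lm) * L) :
    (4 * exp (-T - b) * exp (x + t) + 2) *
      (20 * exp (2 * (K * (4 * K + 4 * log (1 + 2 * (17 * K * L) * A) + 1))))
      ≤ (c₁ * exp (κ₁ * t)) / 4 := by
  have h0 : 0 ≤ 4 * ε / κ₁ := by positivity
  have h1 : 4 * exp (-T - b) * exp (x + t) + 2 ≤ 6 * exp ((θ * l + 4 * ε / κ₁) * L) := by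
    have h2 : exp (-T - b) * exp (x + t) ≤ exp ((θ * l + 4 * ε / κ₁) * L) := by
      rw [← Real.exp_add]
      apply Real.exp_le_exp.mpr
      rw [ht']
      linarith
    have h3 : 1 ≤ exp ((θ * l + 4 * ε / κ₁) * L) := Real.one_le_exp (by positivity)
    linarith
  have h4 : 2 * (K * (4 * K + 4 * log (1 + 2 * (17 * K * L) * A) + 1)) =
      2 * (K * (4 * K + 1)) + (8 * K) * log (1 + (34 * K * A) * L) := by
    have : 1 + 2 * (17 * K * L) * A = 1 + 34 * K * A * L := by ring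
    rw [this]; ring
  calc (4 * exp (-T - b) * exp (x + t) + 2) *
      (20 * exp (2 * (K * (4 * K + 4 * log (1 + 2 * (17 * K * L) * A) + 1))))
      ≤ (6 * exp ((θ * l + 4 * ε / κ₁) * L)) *
      (20 * exp (2 * (K * (4 * K + 4 * log (1 + 2 * (17 * K * L) * A) + 1)))) := by
        gcongr
    _ = exp (log 120 + (θ * l + 4 * ε / κ₁) * L +
          (2 * (K * (4 * K + 1)) + (8 * K) * log (1 + (34 * K * A) * L))) := by
        rw [Real.exp_add, Real.exp_add, Real.exp_log (by norm_num), h4, Real.exp_add]; ring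
    _ ≤ exp (log c₁ + κ₁ * t - log 4) := by
        apply Real.exp_le_exp.mpr
        have h10 : log (480 / c₁) = log 120 + log 4 - log c₁ := by
          rw [Real.log_div (by norm_num) (by positivity), ← Real.log_mul (by norm_num) (by norm_num)]
          norm_num
        rw [h10] at l8
        rw [ht]
        have h11 : (4 * ε / κ₁) * L ≤ (θ * lm / 2) * L := by gcongr
        have h12 : (θ * lm) * L ≤ (θ * l) * L := by gcongr
        have h13 : 0 ≤ ε * L := by positivity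
        have h14 : 0 ≤ (θ * l) * L := by positivity
        linarith
    _ = (c₁ * exp (κ₁ * t)) / 4 := by
        rw [Real.exp_sub, Real.exp_add, Real.exp_log hc₁, Real.exp_log (by norm_num)]

end SolGeom
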