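import Pool.Agent.H28.Sol.Pattern
import Pool.Agent.H28.Sol.Asym
import Pool.Agent.H28.Sol.GrowthArith

namespace SolGeom

namespace Data

open Real Set Filter

variable (S : Data)

/-- exponential growth of the number of leaves at rate `κ` -/
def Growth (κ : ℝ) : Prop := ∃ c₁ > 0, S.GrowthWith κ c₁

theorem growth_small : S.Growth (log 2 / (2 * S.K)) := by
  have hK := S.K_pos
  refine ⟨1 / 2, by norm_num, ?_⟩
  intro e L hL
  set j := ⌊L / (2 * S.K)⌋₊ with hj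
  have h1 : (j : ℝ) ≤ L / (2 * S.K) := Nat.floor_le (by positivity)
  have h2 : L / (2 * S.K) < j + 1 := Nat.lt_floor_add_one _
  have h3 := S.two_pow_le_N j e (S.hc e + L) (by
    rw [le_div_iff₀ (by positivity)] at h1
    linarith)
  have h4 : ((2 : ℝ) ^ j) ≤ S.N e (S.hc e + L) := by exact_mod_cast h3
  refine le_trans ?_ h4
  have h5 : exp (log 2 / (2 * S.K) * L) ≤ 2 ^ (j + 1) := by
    have h6 : (2 : ℝ) ^ (j + 1) = exp ((j + 1 : ℕ) * log 2) := by
      rw [Real.exp_nat_mul, Real.exp_log (by norm_num)]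
    rw [h6]
    apply Real.exp_le_exp.mpr
    have h7 : log 2 / (2 * S.K) * L = L / (2 * S.K) * log 2 := by ring
    rw [h7]
    push_cast
    have := Real.log_pos one_lt_two
    nlinarith
  rw [pow_succ] at h5
  linarith

theorem Growth.mono {S : Data} {κ κ' : ℝ} (h : S.Growth κ) (hle : κ' ≤ κ) : S.Growth κ' := by
  obtain ⟨c₁, hc₁, h⟩ := h
  refine ⟨c₁, hc₁, ?_⟩
  intro e L hL
  refine le_trans ?_ (h e L hL)
  gcongr

/-- If growth at rate `κ` fails, it fails at arbitrarily large scales. -/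
theorem not_growth_large {κ : ℝ} (hκ : 0 < κ) (h : ¬ S.Growth κ) (L₀ : ℝ) :
    ∃ (e : Cell) (L : ℝ), L₀ ≤ L ∧ (S.N e (S.hc e + L) : ℝ) ≤ exp (κ * L) := by
  by_contra hcon
  push Not at hcon
  apply h
  refine ⟨min 1 (exp (-(κ * L₀))), by positivity, ?_⟩
  intro e L hL
  rcases le_or_gt L₀ L with h1 | h1
  · have := hcon e L h1
    calc min 1 (exp (-(κ * L₀))) * exp (κ * L) ≤ 1 * exp (κ * L) := by
          gcongr; exact min_le_left _ _
      _ ≤ _ := by linarith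
  · calc min 1 (exp (-(κ * L₀))) * exp (κ * L) ≤ exp (-(κ * L₀)) * exp (κ * L) := by
          gcongr; exact min_le_right _ _
      _ = exp (κ * L - κ * L₀) := by rw [← Real.exp_add]; ring_nf
      _ ≤ 1 := by rw [Real.exp_le_one_iff]; nlinarith
      _ ≤ _ := by exact_mod_cast S.one_le_N e _

theorem depth_of_low {cr : Cell} {H L : ℝ} (hL : 0 ≤ L)
    (hlow : ∀ e ∈ S.Block cr H, H - S.hc e ≤ 2 * L) :
    (∀ e ∈ S.Block cr H, ∀ m : ℕ, parent^[m] e = cr → (m : ℝ) ≤ 16 * S.K * L + S.C₂) ∧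
    (∀ e ∈ S.Block cr H, ∀ q ∈ S.Leaves e H, ∀ m : ℕ, parent^[m] q = e →
      (m : ℝ) ≤ 16 * S.K * L + S.C₂ + 1) := by
  have hK := S.K_pos
  have hblockD : ∀ (e : Cell) (m : ℕ), (∀ i ≤ m, parent^[i] e ∈ S.Block cr H) →
      (m : ℝ) ≤ 16 * S.K * L + S.C₂ := by
    intro e m hm
    have := S.depth_le e m (H - 2 * L) H (fun i hi => by linarith [hlow _ (hm i hi)])
      (fun i hi => (S.block_lt (hm i hi)).le)
    linarith
  have hanc : ∀ (e : Cell) (m : ℕ), parent^[m] e = cr → (∀ i ≤ m, S.hc (parent^[i] e) < H) →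
      ∀ i ≤ m, parent^[i] e ∈ S.Block cr H := by
    intro e m hm hlt i hi
    refine ⟨m - i, ?_, ?_⟩
    · rw [parent_iter_add, Nat.add_sub_cancel' hi, hm]
    · intro j hj
      rw [parent_iter_add]; exact hlt _ (by omega)
  constructor
  · rintro e ⟨k, hk1, hk2⟩ m hm
    have hkm : k = m := depth_unique hk1 hm
    subst hkm
    exact hblockD e k (hanc e k hk1 hk2)
  · intro e he q hq m hm
    obtain ⟨k, hk1, hk2, hk3⟩ := hq
    have hkm : k = m := depth_unique hk1 hm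
    subst hkm
    rcases Nat.eq_zero_or_pos k with h0 | h0
    · subst h0
      have := S.C₂_nonneg
      have : 0 ≤ 16 * S.K * L := by positivity
      simp only [Nat.cast_zero]; linarith
    · have h3 := hblockD (parent q) (k - 1) (by
        intro i hi
        have : parent^[i] (parent q) ∈ S.Block e H := by
          refine ⟨k - 1 - i, ?_, ?_⟩
          · rw [parent_iter_add, Nat.add_sub_cancel' hi, ← Function.iterate_succ_apply,
              Nat.succ_eq_add_one, Nat.sub_add_cancel h0, hk1]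
          · intro j hj
            rw [parent_iter_add, ← Function.iterate_succ_apply]
            exact hk3 _ (by omega) (by omega)
        exact S.block_trans he this)
      rw [Nat.cast_sub h0] at h3
      push_cast at h3
      linarith

/-- Few leaves force all block cells to be not much lower than the root. -/
theorem low_bound {κ₁ c₁ κ' : ℝ} (hG : S.GrowthWith κ₁ c₁) (hκ₁p : 0 < κ₁) (hc₁ : 0 < c₁)
    {cr : Cell} {H L : ℝ} (hN : (S.N cr H : ℝ) ≤ exp (κ' * L))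
    (hlog : -log c₁ ≤ (2 * κ₁ - κ') * L) : ∀ e ∈ S.Block cr H, H - S.hc e ≤ 2 * L := by
  intro e he
  have h1 := hG.apply hκ₁p.le hc₁ e H (S.hc e) le_rfl (S.block_lt he).le
  have h2 : (S.N e H : ℝ) ≤ S.N cr H := by exact_mod_cast S.N_mono he
  have h3 := h1.trans (h2.trans hN)
  have h4 : log c₁ + κ₁ * (H - S.hc e) ≤ κ' * L := by
    have h5 : exp (log c₁ + κ₁ * (H - S.hc e)) ≤ exp (κ' * L) := by
      rw [Real.exp_add, Real.exp_log hc₁]; exact h3
    exact Real.exp_le_exp.mp h5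
  by_contra hcon
  push Not at hcon
  have h6 : κ₁ * (2 * L) < κ₁ * (H - S.hc e) := by gcongr
  linarith

/-- The numerical form of the spread estimate. -/
theorem spread_num {κ ε κ₁ c₁ A K T l L n H : ℝ} (hc₁ : 0 < c₁) (hκ₁ : κ₁ = κ - ε)
    (hA : 0 < A) (hK : 0 < K) (hL0 : 0 < L) (hl0 : 0 < l) (hε0 : 0 < ε)
    (hn : n ≤ exp ((κ + ε) * L)) (hH : H = T + L) (l5 : 2 ≤ 17 * K * L)
    (l6 : log (4 * A / c₁) + 1 * log (1 + (17 * K) * L) ≤ ε * L) :
    2 * A * ((17 * K * L + 2) * n * (c₁⁻¹ * exp (-(κ₁ * H) - (1 - κ₁) * (T + l * L))))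
      ≤ exp (-T - ((1 - κ) * l - 3 * ε) * L) := by
  have h2 : 17 * K * L + 2 ≤ 2 * (1 + 17 * K * L) := by linarith
  have h3 : (17 * K * L + 2) * n ≤ (2 * (1 + 17 * K * L)) * exp ((κ + ε) * L) := by
    calc (17 * K * L + 2) * n ≤ (17 * K * L + 2) * exp ((κ + ε) * L) := by gcongr
      _ ≤ _ := by gcongr
  calc 2 * A * ((17 * K * L + 2) * n * (c₁⁻¹ * exp (-(κ₁ * H) - (1 - κ₁) * (T + l * L))))
      ≤ 2 * A * ((2 * (1 + 17 * K * L)) * exp ((κ + ε) * L) *
        (c₁⁻¹ * exp (-(κ₁ * H) - (1 - κ₁) * (T + l * L)))) := by gcongr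
    _ = exp (log (4 * A / c₁) + 1 * log (1 + 17 * K * L) + (κ + ε) * L
        + (-(κ₁ * H) - (1 - κ₁) * (T + l * L))) := by
        rw [Real.exp_add, Real.exp_add, Real.exp_add, one_mul, Real.exp_log (by positivity),
          Real.exp_log (by positivity)]
        field_simp
        ring
    _ ≤ exp (-T - ((1 - κ) * l - 3 * ε) * L) := by
        apply Real.exp_le_exp.mpr
        have h3 : (κ + ε) * L + (-(κ₁ * H) - (1 - κ₁) * (T + l * L))
            = -T + 2 * (ε * L) - (1 - κ) * l * L - ε * l * L := by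
          rw [hκ₁, hH]; ring
        have h4 : 0 ≤ ε * l * L := by positivity
        have h5 : ((1 - κ) * l - 3 * ε) * L = (1 - κ) * l * L - 3 * (ε * L) := by ring
        rw [h5]
        linarith

theorem growth_improve {κ : ℝ} (hκ0 : 0 < κ) (hκ1 : κ < 1) :
    ∃ ε > 0, ε < κ ∧ (S.Growth (κ - ε) → S.Growth (κ + ε)) := by
  have hK := S.K_pos
  have hA := S.A_pos
  have hA1 := S.one_le_A
  obtain ⟨θ, hθ⟩ : ∃ θ, θ = κ * (1 - κ) / 16 := ⟨_, rfl⟩
  have hθ0 : 0 < θ := by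
    have : 0 < 1 - κ := by linarith
    rw [hθ]; positivity
  have hθ64 : θ ≤ 1 / 64 := by rw [hθ]; nlinarith [sq_nonneg (κ - 1/2)]
  have hθ1 : θ ≤ 1 := by linarith
  obtain ⟨m₁, hm₁⟩ : ∃ m₁ : ℕ, 68 * S.K ^ 2 < m₁ := exists_nat_gt _
  obtain ⟨lm, hlm⟩ : ∃ lm, lm = θ ^ m₁ / 4 := ⟨_, rfl⟩
  have hlm0 : 0 < lm := by rw [hlm]; positivity
  have hlm1 : lm ≤ 1 / 4 := by
    have : θ ^ m₁ ≤ 1 := pow_le_one₀ hθ0.le hθ1
    rw [hlm]; linarith
  obtain ⟨ε, hε⟩ : ∃ ε, ε = κ * θ * lm / 16 := ⟨_, rfl⟩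
  obtain ⟨_, _, hε0, hεκ, _, _, _, _, _⟩ := arith_params hκ0 hκ1 hθ hlm0 le_rfl hlm1 hε
  refine ⟨ε, hε0, by linarith, ?_⟩
  rintro ⟨c₁, hc₁, hG⟩
  by_contra hnot
  obtain ⟨κ₁, hκ₁⟩ : ∃ κ₁, κ₁ = κ - ε := ⟨_, rfl⟩
  rw [← hκ₁] at hG
  have hκ₁1 : κ₁ ≤ 1 := by linarith
  have hκ₁p : 0 < κ₁ := by linarith
  -- the asymptotic requirements
  have hev : ∀ᶠ L in atTop, (0 : ℝ) ≤ L ∧ 8 * S.K ≤ L ∧ -log c₁ ≤ (κ / 2) * L ∧
      S.C₂ + 1 ≤ S.K * L ∧ 2 ≤ 17 * S.K * L ∧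
      log (4 * S.A / c₁) + 1 * log (1 + (17 * S.K) * L) ≤ ε * L ∧
      (log 4 - 2 * log c₁ + log (2 * S.A)) + 1 * log (1 + (17 * S.K) * L) ≤ (2 * ε) * L ∧
      (log (480 / c₁) + 2 * (S.K * (4 * S.K + 1))) + (8 * S.K) * log (1 + (34 * S.K * S.A) * L)
        ≤ (θ * lm) * L := by
    filter_upwards [eventually_ge_atTop (0 : ℝ), eventually_ge_atTop (8 * S.K),
      ev_const (-log c₁) (κ / 2) (by positivity), ev_const (S.C₂ + 1) S.K hK,
      ev_const 2 (17 * S.K) (by positivity),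
      ev_aff (log (4 * S.A / c₁)) 1 (17 * S.K) ε (by positivity) hε0,
      ev_aff (log 4 - 2 * log c₁ + log (2 * S.A)) 1 (17 * S.K) (2 * ε) (by positivity) (by positivity),
      ev_aff (log (480 / c₁) + 2 * (S.K * (4 * S.K + 1))) (8 * S.K) (34 * S.K * S.A) (θ * lm)
        (by positivity) (by positivity)] with L h1 h2 h3 h4 h5 h6 h7 h8
    exact ⟨h1, h2, h3, h4, h5, h6, h7, h8⟩
  obtain ⟨L₀, hL₀⟩ := Filter.eventually_atTop.mp hev
  obtain ⟨cr, L, hL, hN⟩ := S.not_growth_large (by linarith) hnot L₀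
  obtain ⟨l1, l2, l3, l4, l5, l6, l7, l8⟩ := hL₀ L hL
  clear hev hL₀
  have hL0 : 0 < L := by linarith
  obtain ⟨T, hT⟩ : ∃ T, T = S.hc cr := ⟨_, rfl⟩
  obtain ⟨H, hH⟩ : ∃ H, H = T + L := ⟨_, rfl⟩
  rw [← hT, ← hH] at hN
  -- (1) low cells are not too low
  have hlow := S.low_bound hG hκ₁p hc₁ hN (by
    have : κ / 2 * L ≤ (2 * κ₁ - (κ + ε)) * L := by
      gcongr; linarith
    linarith)
  obtain ⟨hBD', hLD'⟩ := S.depth_of_low hL0.le hlow
  have hBD : ∀ e ∈ S.Block cr H, ∀ m : ℕ, parent^[m] e = cr → (m : ℝ) ≤ 17 * S.K * L := by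
    intro e he m hm
    linarith [hBD' e he m hm]
  have hLD : ∀ e ∈ S.Block cr H, ∀ q ∈ S.Leaves e H, ∀ m : ℕ, parent^[m] q = e →
      (m : ℝ) ≤ 17 * S.K * L := by
    intro e he q hq m hm
    linarith [hLD' e he q hq m hm]
  -- (2) the cell without patterns
  obtain ⟨i, hi, c, hcB, hcl, hNP⟩ := S.exists_nopat cr L θ (17 * S.K * L) m₁ l2 hθ0 hθ1
    (by rw [← hT, ← hH]; exact hBD) (by
    have h2 : 17 * S.K * L = 68 * S.K ^ 2 * (L / (4 * S.K)) := by field_simp; ring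
    rw [h2]
    have : 0 < L / (4 * S.K) := by positivity
    gcongr)
  rw [← hT, ← hH] at hcB hNP
  rw [← hT] at hcl
  obtain ⟨l, hl⟩ : ∃ l, l = θ ^ i / 4 := ⟨_, rfl⟩
  have hl' : θ ^ (i + 1) / 4 = θ * l := by rw [hl, pow_succ]; ring
  rw [hl'] at hcl
  rw [← hl] at hNP
  have hll : lm ≤ l := by
    have : θ ^ m₁ ≤ θ ^ i := pow_le_pow_of_le_one hθ0.le hθ1 hi.le
    rw [hl, hlm]; linarith
  have hl0 : 0 < l := by linarith
  have hl1 : l ≤ 1 / 4 := by
    have : θ ^ i ≤ 1 := pow_le_one₀ hθ0.le hθ1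
    rw [hl]; linarith
  obtain ⟨_, _, _, _, _, hbpos, h4ε, h7, hhalf⟩ := arith_params hκ0 hκ1 hθ hlm0 hll hl1 hε
  rw [← hκ₁] at h4ε h7 hhalf
  have hcH : S.hc c < H := S.block_lt hcB
  have hNc : (S.N c H : ℝ) ≤ exp ((κ + ε) * L) := by
    have h2 : (S.N c H : ℝ) ≤ S.N cr H := by exact_mod_cast S.N_mono hcB
    exact h2.trans hN
  have hcD := hLD c hcB
  have hD0 : 0 ≤ 17 * S.K * L := by positivity
  -- (3),(4) the spread is small
  obtain ⟨b, hb⟩ : ∃ b, b = ((1 - κ) * l - 3 * ε) * L := ⟨_, rfl⟩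
  have hb0 : 0 ≤ b := by rw [hb]; positivity
  have hspread : ∀ q ∈ S.Leaves c H, ∀ q' ∈ S.Leaves c H, |S.xc q - S.xc q'| ≤ exp (-T - b) := by
    intro q hq q' hq'
    have h1 := S.spread_le hG hκ₁p.le hκ₁1 hc₁ hcH (by
      have : l * L ≤ 1 / 4 * L := by gcongr
      linarith : T + l * L ≤ H) hNP hD0 hcD q hq q' hq'
    refine h1.trans ?_
    rw [hb]
    exact spread_num hc₁ hκ₁ hA hK hL0 hl0 hε0 hNc hH l5 l6
  -- (5) the spread lemma gives a contradiction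
  obtain ⟨q₀, hq₀⟩ := S.leaves_nonempty c H
  obtain ⟨t, ht⟩ : ∃ t, t = b + 4 * ε / κ₁ * L := ⟨_, rfl⟩
  have ht0 : 0 ≤ t := by rw [ht]; positivity
  have hHt : S.hc c + t + 2 * S.K < H := by
    have h5 : (θ * l + ((1 - κ) * l - 3 * ε) + 4 * ε / κ₁) * L ≤ 1 / 2 * L := by gcongr
    have h6 : S.hc c + t ≤ T + (1 / 2) * L := by
      rw [ht, hb]; linarith
    rw [hH]
    linarith
  have hsp := S.spread hG hκ₁p.le hc₁ c H t (exp (-T - b)) (S.xc q₀) (17 * S.K * L) ht0 hHt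
    (Real.exp_pos _) hD0 (fun q hq => hspread q hq q₀ hq₀) hcD
  have hlogB : log (S.A * (17 * S.K * L + 1) / exp (-T - b))
      = log (S.A * (17 * S.K * L + 1)) + T + b := by
    rw [Real.log_div (by positivity) (by positivity), Real.log_exp]; ring
  rw [hlogB, hH] at hsp
  rw [hH] at hNc
  have hκ₁t : κ₁ * t = κ₁ * b + 4 * ε * L := by
    rw [ht]; field_simp
  have hf := final_first hc₁ hκ₁ hκ₁1 hK hA1 hL0 hκ₁t hNc l7 (T := T)
  have hs := final_second (T := T) (x := S.hc c) (A := S.A) (K := S.K) hc₁ hκ₁p hL0 hε0.le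
    (by positivity) (by gcongr) hκ₁t ht hcl h4ε (by
      rw [hb]
      calc 7 * (θ * l) * L ≤ (κ₁ * ((1 - κ) * l - 3 * ε)) * L := by gcongr
        _ = _ := by ring) l8
  have hpos : 0 < c₁ * exp (κ₁ * t) := by positivity
  unfold Phi rD at hsp
  linarith

/-- The growth theorem: exponential growth at every rate less than one. -/
theorem growth (κ : ℝ) (hκ : κ < 1) : S.Growth κ := by
  by_contra hnot
  have hK := S.K_pos
  set 𝒦 := {k : ℝ | S.Growth k} with h𝒦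
  have hbdd : BddAbove 𝒦 := by
    refine ⟨κ, ?_⟩
    intro k hk
    by_contra hcon
    push Not at hcon
    exact hnot (Growth.mono hk hcon.le)
  have hmem : log 2 / (2 * S.K) ∈ 𝒦 := S.growth_small
  set k := sSup 𝒦 with hk
  have hkle : k ≤ κ := by
    apply csSup_le ⟨_, hmem⟩
    intro k' hk'
    by_contra hcon
    push Not at hcon
    exact hnot (Growth.mono hk' hcon.le)
  have hkpos : 0 < k := by
    have h1 : log 2 / (2 * S.K) ≤ k := le_csSup hbdd hmem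
    have h2 : 0 < log 2 / (2 * S.K) := by
      have := Real.log_pos one_lt_two
      positivity
    linarith
  obtain ⟨ε, hε, hεk, himp⟩ := S.growth_improve hkpos (by linarith)
  obtain ⟨k', hk', hlt⟩ := exists_lt_of_lt_csSup ⟨_, hmem⟩ (show k - ε < sSup 𝒦 by linarith)
  have h1 : S.Growth (k - ε) := Growth.mono hk' hlt.le
  have h2 := himp h1
  have h3 : k + ε ≤ k := le_csSup hbdd h2
  linarith

end Data

end SolGeom
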