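import Pool.Agent.H28.Sol.Cells
import Pool.Agent.H28.Sol.Data

namespace SolGeom

open Real Set

theorem parent_iter_fst (m : ℕ) (e : Cell) : (parent^[m] e).1 = e.1 - m := by
  induction m generalizing e with
  | zero => simp
  | succ m ih =>
    rw [Function.iterate_succ_apply, ih, parent]; push_cast; ring

theorem depth_eq {m : ℕ} {e c : Cell} (h : parent^[m] e = c) : (m : ℤ) = e.1 - c.1 := by
  rw [← h, parent_iter_fst]; ring

theorem depth_unique {m m' : ℕ} {e c : Cell} (h : parent^[m] e = c) (h' : parent^[m'] e = c) :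
    m = m' := by
  have := depth_eq h; have := depth_eq h'; omega

theorem parent_iter_add (m i : ℕ) (e : Cell) : parent^[i] (parent^[m] e) = parent^[m + i] e := by
  rw [add_comm, Function.iterate_add_apply]

/-- Left child. -/
def ch0 (c : Cell) : Cell := (c.1 + 1, 2 * c.2)
/-- Right child. -/
def ch1 (c : Cell) : Cell := (c.1 + 1, 2 * c.2 + 1)

@[simp] theorem parent_ch0 (c : Cell) : parent (ch0 c) = c := by
  unfold parent ch0; ext <;> simp
@[simp] theorem parent_ch1 (c : Cell) : parent (ch1 c) = c := by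
  unfold parent ch1
  ext
  · simp
  · simp only
    omega

theorem eq_child_of_parent {e c : Cell} (h : parent e = c) : e = ch0 c ∨ e = ch1 c := by
  subst h
  unfold parent ch0 ch1
  rcases Int.emod_two_eq_zero_or_one e.2 with h | h
  · left
    ext
    · simp
    · simp only; omega
  · right
    ext
    · simp
    · simp only; omega

theorem ch0_ne_ch1 (c : Cell) : ch0 c ≠ ch1 c := by
  intro h
  have := congrArg Prod.snd h
  simp only [ch0, ch1] at this
  omega

theorem finite_desc (m : ℕ) (c : Cell) : {e : Cell | parent^[m] e = c}.Finite := by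
  induction m generalizing c with
  | zero => simp
  | succ m ih =>
    have : {e : Cell | parent^[m + 1] e = c} ⊆
        {e | parent^[m] e = ch0 c} ∪ {e | parent^[m] e = ch1 c} := by
      intro e he
      rw [mem_setOf_eq, Function.iterate_succ_apply'] at he
      exact eq_child_of_parent he
    exact ((ih _).union (ih _)).subset this

theorem finite_desc_le (D : ℕ) (c : Cell) : {e : Cell | ∃ m ≤ D, parent^[m] e = c}.Finite := by
  have : {e : Cell | ∃ m ≤ D, parent^[m] e = c} = ⋃ m ∈ Finset.range (D + 1),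
      {e | parent^[m] e = c} := by
    ext e; simp [Nat.lt_succ_iff]
  rw [this]
  exact Set.Finite.biUnion (Finset.finite_toSet _) (fun m _ => finite_desc m c)

namespace Data

variable (S : Data)

/-- height of a cell -/
noncomputable def hc (c : Cell) : ℝ := S.h (pt c)
/-- `x`-value of a cell -/
noncomputable def xc (c : Cell) : ℝ := S.x (pt c)
/-- `y`-value of a cell -/
noncomputable def yc (c : Cell) : ℝ := S.y (pt c)
/-- the constant for unit steps -/
noncomputable def A : ℝ := exp (2 * S.K)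
/-- the constant of the depth bound -/
noncomputable def C₂ : ℝ := 16 * S.K * log (16 * S.K * S.A)

theorem K_pos : 0 < S.K := by linarith [S.one_le_K]
theorem A_pos : 0 < S.A := Real.exp_pos _
theorem one_le_A : 1 ≤ S.A := Real.one_le_exp (by linarith [S.K_pos])
theorem C₂_nonneg : 0 ≤ S.C₂ := by
  unfold C₂
  have h1 := S.one_le_K
  have h2 := S.one_le_A
  have : 0 ≤ log (16 * S.K * S.A) := by
    apply Real.log_nonneg; nlinarith
  positivity

theorem floor_c (c : Cell) : S.m₀ ≤ S.hc c := S.floor _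

theorem h_step {z w : UpperHalfPlane} (hd : dist z w ≤ 1) : |S.h z - S.h w| ≤ 2 * S.K := by
  refine (S.hlip z w).trans ?_
  nlinarith [S.K_pos]

theorem x_step {z w : UpperHalfPlane} (hd : dist z w ≤ 1) :
    |S.x z - S.x w| ≤ S.A * exp (-S.h z) := by
  refine (S.xlip z w).trans ?_
  unfold A
  rw [← Real.exp_add]
  apply Real.exp_le_exp.mpr
  nlinarith [S.K_pos]

theorem y_step {z w : UpperHalfPlane} (hd : dist z w ≤ 1) :
    |S.y z - S.y w| ≤ S.A * exp (S.h z) := by
  refine (S.ylip z w).trans ?_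
  unfold A
  rw [← Real.exp_add]
  apply Real.exp_le_exp.mpr
  nlinarith [S.K_pos]

/-- Chains of unit steps: `x`-variation. -/
theorem chain_x (u : ℕ → UpperHalfPlane) (m : ℕ) (hu : ∀ i < m, dist (u i) (u (i + 1)) ≤ 1)
    (μ : ℝ) (hμ : ∀ i < m, μ ≤ S.h (u i)) : |S.x (u 0) - S.x (u m)| ≤ m * S.A * exp (-μ) := by
  induction m with
  | zero => simp
  | succ m ih =>
    have h1 := ih (fun i hi => hu i (by omega)) (fun i hi => hμ i (by omega))
    have h2 := S.x_step (hu m (by omega))
    have h3 : exp (-S.h (u m)) ≤ exp (-μ) := Real.exp_le_exp.mpr (by linarith [hμ m (by omega)])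
    have h4 : |S.x (u 0) - S.x (u (m + 1))| ≤ |S.x (u 0) - S.x (u m)| +
        |S.x (u m) - S.x (u (m + 1))| := abs_sub_le _ _ _
    have h5 : S.A * exp (-S.h (u m)) ≤ S.A * exp (-μ) :=
      mul_le_mul_of_nonneg_left h3 S.A_pos.le
    push_cast
    nlinarith

/-- Chains of unit steps: `y`-variation. -/
theorem chain_y (u : ℕ → UpperHalfPlane) (m : ℕ) (hu : ∀ i < m, dist (u i) (u (i + 1)) ≤ 1)
    (M : ℝ) (hM : ∀ i < m, S.h (u i) ≤ M) : |S.y (u 0) - S.y (u m)| ≤ m * S.A * exp M := by
  induction m with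
  | zero => simp
  | succ m ih =>
    have h1 := ih (fun i hi => hu i (by omega)) (fun i hi => hM i (by omega))
    have h2 := S.y_step (hu m (by omega))
    have h3 : exp (S.h (u m)) ≤ exp M := Real.exp_le_exp.mpr (by linarith [hM m (by omega)])
    have h4 : |S.y (u 0) - S.y (u (m + 1))| ≤ |S.y (u 0) - S.y (u m)| +
        |S.y (u m) - S.y (u (m + 1))| := abs_sub_le _ _ _
    have h5 : S.A * exp (S.h (u m)) ≤ S.A * exp M :=
      mul_le_mul_of_nonneg_left h3 S.A_pos.le
    push_cast
    nlinarith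

theorem dist_iter_succ (e : Cell) (i : ℕ) :
    dist (pt (parent^[i] e)) (pt (parent^[i + 1] e)) ≤ 1 := by
  rw [Function.iterate_succ_apply']; exact dist_parent _

theorem hc_parent (e : Cell) : |S.hc e - S.hc (parent e)| ≤ 2 * S.K := S.h_step (dist_parent e)

theorem path_x (e : Cell) (m : ℕ) (μ : ℝ) (hμ : ∀ i < m, μ ≤ S.hc (parent^[i] e)) :
    |S.xc e - S.xc (parent^[m] e)| ≤ m * S.A * exp (-μ) :=
  S.chain_x (fun i => pt (parent^[i] e)) m (fun i _ => dist_iter_succ e i) μ hμ

theorem path_y (e : Cell) (m : ℕ) (M : ℝ) (hM : ∀ i < m, S.hc (parent^[i] e) ≤ M) :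
    |S.yc e - S.yc (parent^[m] e)| ≤ m * S.A * exp M :=
  S.chain_y (fun i => pt (parent^[i] e)) m (fun i _ => dist_iter_succ e i) M hM

theorem path_h (e : Cell) (m : ℕ) : |S.hc e - S.hc (parent^[m] e)| ≤ 2 * S.K * m := by
  induction m with
  | zero => simp
  | succ m ih =>
    have h2 := S.hc_parent (parent^[m] e)
    rw [← Function.iterate_succ_apply' parent] at h2
    have h4 : |S.hc e - S.hc (parent^[m + 1] e)| ≤ |S.hc e - S.hc (parent^[m] e)| +
        |S.hc (parent^[m] e) - S.hc (parent^[m + 1] e)| := abs_sub_le _ _ _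
    push_cast
    linarith

/-- Depth bound for parent paths within a range of heights. -/
theorem depth_le (e : Cell) (m : ℕ) (μ M : ℝ) (hμ : ∀ i ≤ m, μ ≤ S.hc (parent^[i] e))
    (hM : ∀ i ≤ m, S.hc (parent^[i] e) ≤ M) : (m : ℝ) ≤ 8 * S.K * (M - μ) + S.C₂ := by
  have hK := S.K_pos
  have hK1 := S.one_le_K
  have hA := S.A_pos
  have hA1 := S.one_le_A
  have h1 := S.path_x e m μ (fun i hi => hμ i hi.le)
  have h2 := S.path_y e m M (fun i hi => hM i hi.le)
  have h3 := S.dist_le (pt e) (pt (parent^[m] e)) μ M (m * S.A) (hμ 0 (Nat.zero_le _))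
    (hμ m le_rfl) (hM 0 (Nat.zero_le _)) (hM m le_rfl) (by positivity) h1 h2
  have h4 := level_diff_le e (parent^[m] e)
  rw [parent_iter_fst] at h4
  have h5 : |((e.1 : ℝ) - ((e.1 - (m : ℤ) : ℤ) : ℝ))| = m := by
    push_cast
    rw [sub_sub_cancel, abs_of_nonneg (by positivity)]
  rw [h5] at h4
  have hα : (0 : ℝ) < 16 * S.K * S.A := by positivity
  have h6 : log (1 + m * S.A) ≤ (1 + m * S.A) / (16 * S.K * S.A) - 1 + log (16 * S.K * S.A) := by
    have h7 : log ((1 + m * S.A) / (16 * S.K * S.A)) ≤ (1 + m * S.A) / (16 * S.K * S.A) - 1 :=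
      Real.log_le_sub_one_of_pos (by positivity)
    rw [Real.log_div (by positivity) (by positivity)] at h7
    linarith
  have h8 : 4 * S.K * ((1 + m * S.A) / (16 * S.K * S.A)) = 1 / (4 * S.A) + m / 4 := by
    field_simp; ring
  have h9 : 1 / (4 * S.A) ≤ 1 / 4 := by
    apply one_div_le_one_div_of_le <;> linarith
  have h10 : 4 * S.K * log (1 + m * S.A) ≤ 1 / (4 * S.A) + m / 4
      - 4 * S.K + 4 * S.K * log (16 * S.K * S.A) := by
    have := mul_le_mul_of_nonneg_left h6 (show 0 ≤ 4 * S.K by positivity)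
    nlinarith
  unfold C₂
  nlinarith

/-- Cells below `c` such that the whole path up to `c` has height `< H`. -/
def Block (c : Cell) (H : ℝ) : Set Cell :=
  {e | ∃ m : ℕ, parent^[m] e = c ∧ ∀ i ≤ m, S.hc (parent^[i] e) < H}

/-- First descendants of height `≥ H`. -/
def Leaves (c : Cell) (H : ℝ) : Set Cell :=
  {e | ∃ m : ℕ, parent^[m] e = c ∧ H ≤ S.hc e ∧ ∀ i, 1 ≤ i → i ≤ m → S.hc (parent^[i] e) < H}

theorem mem_block_self {c : Cell} {H : ℝ} (h : S.hc c < H) : c ∈ S.Block c H :=
  ⟨0, rfl, fun i hi => by rw [Nat.le_zero.mp hi]; exact h⟩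

theorem block_lt {c e : Cell} {H : ℝ} (h : e ∈ S.Block c H) : S.hc e < H := by
  obtain ⟨m, _, h2⟩ := h
  exact h2 0 (Nat.zero_le _)

theorem block_root_lt {c e : Cell} {H : ℝ} (h : e ∈ S.Block c H) : S.hc c < H := by
  obtain ⟨m, h1, h2⟩ := h
  rw [← h1]; exact h2 m le_rfl

theorem leaves_self {c : Cell} {H : ℝ} (h : H ≤ S.hc c) : S.Leaves c H = {c} := by
  ext e
  constructor
  · rintro ⟨m, h1, _, h3⟩
    rcases Nat.eq_zero_or_pos m with rfl | hm
    · exact h1
    · have := h3 m hm le_rfl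
      rw [h1] at this
      exact absurd h (not_le.mpr this)
  · rintro rfl
    exact ⟨0, rfl, h, fun i h1 h2 => by omega⟩

theorem block_trans {c e g : Cell} {H : ℝ} (h : e ∈ S.Block c H) (h' : g ∈ S.Block e H) :
    g ∈ S.Block c H := by
  obtain ⟨m, h1, h2⟩ := h
  obtain ⟨m', h1', h2'⟩ := h'
  refine ⟨m' + m, ?_, ?_⟩
  · rw [← parent_iter_add, h1', h1]
  · intro i hi
    rcases le_total i m' with h | h
    · exact h2' i h
    · have := h2 (i - m') (by omega)
      rw [← h1', parent_iter_add, Nat.add_sub_cancel' h] at this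
      exact this

theorem leaves_subset {c e : Cell} {H : ℝ} (h : e ∈ S.Block c H) :
    S.Leaves e H ⊆ S.Leaves c H := by
  rintro g ⟨m', h1', h3', h2'⟩
  obtain ⟨m, h1, h2⟩ := h
  refine ⟨m' + m, ?_, h3', ?_⟩
  · rw [← parent_iter_add, h1', h1]
  · intro i hi0 hi
    rcases le_total i m' with h | h
    · exact h2' i hi0 h
    · have := h2 (i - m') (by omega)
      rw [← h1', parent_iter_add, Nat.add_sub_cancel' h] at this
      exact this

/-- The bound for the depth of blocks given by the floor. -/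
theorem block_depth {e : Cell} {H : ℝ} {m : ℕ}
    (h : ∀ i ≤ m, S.hc (parent^[i] e) < H) : (m : ℝ) ≤ 8 * S.K * (H - S.m₀) + S.C₂ :=
  S.depth_le e m S.m₀ H (fun _ _ => S.floor_c _) (fun i hi => (h i hi).le)

theorem leaf_depth {e : Cell} {H : ℝ} {m : ℕ}
    (h : ∀ i, 1 ≤ i → i ≤ m → S.hc (parent^[i] e) < H) (μ : ℝ)
    (hμ : ∀ i, 1 ≤ i → i ≤ m → μ ≤ S.hc (parent^[i] e)) (hμ' : μ ≤ H):
    (m : ℝ) ≤ 8 * S.K * (H - μ) + S.C₂ + 1 := by
  rcases Nat.eq_zero_or_pos m with rfl | hm
  · have := S.K_pos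
    have := S.C₂_nonneg
    have : 0 ≤ 8 * S.K * (H - μ) := mul_nonneg (by positivity) (by linarith)
    simp only [Nat.cast_zero]; linarith
  · have := S.depth_le (parent e) (m - 1) μ H (fun i hi => by
      rw [← Function.iterate_succ_apply]; exact hμ (i + 1) (by omega) (by omega)) (fun i hi => by
      rw [← Function.iterate_succ_apply]; exact (h (i + 1) (by omega) (by omega)).le)
    rw [Nat.cast_sub hm] at this
    push_cast at this
    linarith

theorem finite_block (c : Cell) (H : ℝ) : (S.Block c H).Finite := by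
  obtain ⟨D, hD⟩ := exists_nat_ge (8 * S.K * (H - S.m₀) + S.C₂)
  refine (finite_desc_le D c).subset ?_
  rintro e ⟨m, h1, h2⟩
  refine ⟨m, ?_, h1⟩
  have := (S.block_depth h2).trans hD
  exact_mod_cast this

theorem finite_leaves (c : Cell) (H : ℝ) : (S.Leaves c H).Finite := by
  rcases le_or_gt H (S.hc c) with hH | hH
  · rw [S.leaves_self hH]; exact Set.finite_singleton c
  obtain ⟨D, hD⟩ := exists_nat_ge (8 * S.K * (H - S.m₀) + S.C₂ + 1)
  refine (finite_desc_le D c).subset ?_
  rintro e ⟨m, h1, h3, h2⟩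
  refine ⟨m, ?_, h1⟩
  have := (S.leaf_depth h2 S.m₀ (fun _ _ _ => S.floor_c _)
    ((S.floor_c c).trans hH.le)).trans hD
  exact_mod_cast this

/-- the leftmost path -/
def lpath (c : Cell) (i : ℕ) : Cell := ch0^[i] c
/-- the rightmost path -/
def rpath (c : Cell) (i : ℕ) : Cell := ch1^[i] c

theorem parent_iter_ch0 (c : Cell) (i j : ℕ) (h : j ≤ i) :
    parent^[j] (ch0^[i] c) = ch0^[i - j] c := by
  induction j with
  | zero => simp
  | succ j ih =>
    rw [Function.iterate_succ_apply', ih (by omega)]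
    obtain ⟨k, hk⟩ : ∃ k, i - j = k + 1 := ⟨i - j - 1, by omega⟩
    rw [hk, Function.iterate_succ_apply', parent_ch0]
    congr 1
    omega

theorem parent_iter_ch1 (c : Cell) (i j : ℕ) (h : j ≤ i) :
    parent^[j] (ch1^[i] c) = ch1^[i - j] c := by
  induction j with
  | zero => simp
  | succ j ih =>
    rw [Function.iterate_succ_apply', ih (by omega)]
    obtain ⟨k, hk⟩ : ∃ k, i - j = k + 1 := ⟨i - j - 1, by omega⟩
    rw [hk, Function.iterate_succ_apply', parent_ch1]
    congr 1
    omega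

/-- A child-path eventually reaches height `≥ H`. -/
theorem exists_ge_path (c : Cell) (H : ℝ) (f : Cell → Cell)
    (hf : ∀ i j : ℕ, j ≤ i → parent^[j] (f^[i] c) = f^[i - j] c) :
    ∃ i, H ≤ S.hc (f^[i] c) := by
  by_contra hcon
  push Not at hcon
  obtain ⟨D, hD⟩ := exists_nat_gt (8 * S.K * (H - S.m₀) + S.C₂)
  have := S.block_depth (e := f^[D] c) (H := H) (m := D) (fun i hi => by
    rw [hf D i hi]; exact hcon _)
  linarith

theorem mem_leaves_first (c : Cell) (H : ℝ) (f : Cell → Cell)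
    (hf : ∀ i j : ℕ, j ≤ i → parent^[j] (f^[i] c) = f^[i - j] c) (i : ℕ)
    (h1 : H ≤ S.hc (f^[i] c)) (h2 : ∀ j < i, S.hc (f^[j] c) < H) : f^[i] c ∈ S.Leaves c H := by
  refine ⟨i, ?_, h1, ?_⟩
  · rw [hf i i le_rfl]; simp
  · intro j hj1 hj2
    rw [hf i j hj2]
    exact h2 _ (by omega)

theorem leaves_nonempty (c : Cell) (H : ℝ) : (S.Leaves c H).Nonempty := by
  classical
  have hf := parent_iter_ch0 c
  have hex := S.exists_ge_path c H ch0 hf
  refine ⟨_, S.mem_leaves_first c H ch0 hf (Nat.find hex) (Nat.find_spec hex) ?_⟩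
  intro j hj
  exact not_le.mp (Nat.find_min hex hj)

/-- number of leaves -/
noncomputable def N (c : Cell) (H : ℝ) : ℕ := (S.Leaves c H).ncard

theorem one_le_N (c : Cell) (H : ℝ) : 1 ≤ S.N c H := by
  unfold N
  have := (Set.ncard_pos (S.finite_leaves c H)).mpr (S.leaves_nonempty c H)
  omega

theorem N_mono {c e : Cell} {H : ℝ} (h : e ∈ S.Block c H) : S.N e H ≤ S.N c H :=
  Set.ncard_le_ncard (S.leaves_subset h) (S.finite_leaves c H)

/-- the finset of leaves -/
noncomputable def lv (c : Cell) (H : ℝ) : Finset Cell := (S.finite_leaves c H).toFinset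
/-- the finset of block cells -/
noncomputable def bl (c : Cell) (H : ℝ) : Finset Cell := (S.finite_block c H).toFinset

@[simp] theorem mem_lv {c e : Cell} {H : ℝ} : e ∈ S.lv c H ↔ e ∈ S.Leaves c H := by
  simp [lv]
@[simp] theorem mem_bl {c e : Cell} {H : ℝ} : e ∈ S.bl c H ↔ e ∈ S.Block c H := by
  simp [bl]

theorem card_lv (c : Cell) (H : ℝ) : (S.lv c H).card = S.N c H := by
  unfold N lv
  rw [Set.ncard_eq_toFinset_card _ (S.finite_leaves c H)]

/-- double counting of leaves -/
theorem sum_N_le (F T : Finset Cell) (H : ℝ) (B : ℕ) (hT : ∀ e ∈ F, S.Leaves e H ⊆ T)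
    (hB : ∀ q ∈ T, ∀ G : Finset Cell, (∀ e ∈ G, e ∈ F ∧ q ∈ S.Leaves e H) → G.card ≤ B) :
    (∑ e ∈ F, (S.N e H : ℝ)) ≤ B * T.card := by
  classical
  have h1 : ∀ e ∈ F, (S.N e H : ℝ) = ∑ q ∈ T, if q ∈ S.Leaves e H then (1 : ℝ) else 0 := by
    intro e he
    rw [← S.card_lv]
    rw [← Finset.sum_filter, Finset.sum_const, nsmul_eq_mul, mul_one]
    congr 2
    ext q
    simp only [mem_lv, Finset.mem_filter]
    exact ⟨fun h => ⟨hT e he h, h⟩, fun h => h.2⟩
  rw [Finset.sum_congr rfl h1, Finset.sum_comm]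
  calc ∑ q ∈ T, ∑ e ∈ F, (if q ∈ S.Leaves e H then (1 : ℝ) else 0)
      ≤ ∑ q ∈ T, (B : ℝ) := by
        apply Finset.sum_le_sum
        intro q hq
        rw [← Finset.sum_filter, Finset.sum_const, nsmul_eq_mul, mul_one]
        exact_mod_cast hB q hq _ (fun e he => by simpa using he)
    _ = B * T.card := by rw [Finset.sum_const, nsmul_eq_mul, mul_comm]

/-- two cells on the same level with a common leaf are equal -/
theorem eq_of_level {e e' q : Cell} {H : ℝ} (h : q ∈ S.Leaves e H) (h' : q ∈ S.Leaves e' H)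
    (hl : e.1 = e'.1) : e = e' := by
  obtain ⟨m, h1, _, _⟩ := h
  obtain ⟨m', h1', _, _⟩ := h'
  have e1 := depth_eq h1
  have e2 := depth_eq h1'
  have : m = m' := by omega
  subst this
  rw [← h1, ← h1']

/-- sum over cells whose levels lie in `Lv` -/
theorem sum_N_level_le (F T : Finset Cell) (H : ℝ) (Lv : Finset ℤ) (hL : ∀ e ∈ F, e.1 ∈ Lv)
    (hT : ∀ e ∈ F, S.Leaves e H ⊆ T) :
    (∑ e ∈ F, (S.N e H : ℝ)) ≤ Lv.card * T.card := by
  apply S.sum_N_le F T H Lv.card hT
  intro q hq G hG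
  apply Finset.card_le_card_of_injOn (fun e => e.1) (fun e he => hL e (hG e he).1)
  intro e he e' he' hee
  exact S.eq_of_level (hG e he).2 (hG e' he').2 hee

/-- leaves of a lower threshold form an antichain -/
theorem antichain {c g g' q : Cell} {H' H : ℝ} (hg : g ∈ S.Leaves c H') (hg' : g' ∈ S.Leaves c H')
    (hq : q ∈ S.Leaves g H) (hq' : q ∈ S.Leaves g' H) : g = g' := by
  wlog hlev : g'.1 ≤ g.1 generalizing g g'
  · exact (this hg' hg hq' hq (le_of_not_ge hlev)).symm
  obtain ⟨m, h1, _, _⟩ := hq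
  obtain ⟨m', h1', _, _⟩ := hq'
  have e1 := depth_eq h1
  have e2 := depth_eq h1'
  have hm : m ≤ m' := by omega
  have h2 : parent^[m' - m] g = g' := by
    rw [← h1, parent_iter_add, Nat.add_sub_cancel' hm, h1']
  rcases Nat.eq_zero_or_pos (m' - m) with h0 | h0
  · rw [h0] at h2; exact h2
  · exfalso
    obtain ⟨k, hk1, hk2, hk3⟩ := hg
    obtain ⟨k', hk1', hk2', hk3'⟩ := hg'
    have e3 := depth_eq hk1
    have e4 := depth_eq hk1'
    have e5 := depth_eq h2
    have := hk3 (m' - m) h0 (by omega)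
    rw [h2] at this
    linarith

theorem sum_N_antichain_le (G T : Finset Cell) (c : Cell) (H' H : ℝ)
    (hG : ∀ g ∈ G, g ∈ S.Leaves c H') (hT : ∀ e ∈ G, S.Leaves e H ⊆ T) :
    (∑ e ∈ G, (S.N e H : ℝ)) ≤ T.card := by
  have := S.sum_N_le G T H 1 hT (by
    intro q hq G' hG'
    rw [Finset.card_le_one]
    intro a ha b hb
    exact S.antichain (hG a (hG' a ha).1) (hG b (hG' b hb).1) (hG' a ha).2 (hG' b hb).2)
  simpa using this

/-- leaves of a lower threshold which lie below `H` are in the block -/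
theorem leaves_mem_block {c g : Cell} {H' H : ℝ} (hH : H' ≤ H) (hg : g ∈ S.Leaves c H')
    (hgH : S.hc g < H) : g ∈ S.Block c H := by
  obtain ⟨k, hk1, hk2, hk3⟩ := hg
  refine ⟨k, hk1, ?_⟩
  intro i hi
  rcases Nat.eq_zero_or_pos i with h0 | h0
  · subst h0; exact hgH
  · exact (hk3 i h0 hi).trans_le hH

/-- the height of a leaf -/
theorem leaf_height_le {c g : Cell} {H : ℝ} (hg : g ∈ S.Leaves c H) (hc : S.hc c < H) :
    S.hc g < H + 2 * S.K := by
  obtain ⟨k, hk1, hk2, hk3⟩ := hg
  rcases Nat.eq_zero_or_pos k with h0 | h0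
  · subst h0
    simp only [Function.iterate_zero, id_eq] at hk1
    rw [hk1]
    linarith [S.K_pos]
  · have h1 := hk3 1 le_rfl h0
    have h2 := abs_le.mp (S.hc_parent g)
    simp only [Function.iterate_one] at h1
    linarith [h2.2]

theorem mem_leaves_of_child {c g e : Cell} {H : ℝ} (hc : S.hc c < H) (he : parent e = c)
    (hg : g ∈ S.Leaves e H) : g ∈ S.Leaves c H := by
  obtain ⟨m, h1, h2, h3⟩ := hg
  refine ⟨m + 1, ?_, h2, ?_⟩
  · rw [Function.iterate_succ_apply', h1, he]
  · intro i hi1 hi2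
    rcases Nat.lt_or_ge i (m + 1) with h | h
    · exact h3 i hi1 (by omega)
    · have : i = m + 1 := by omega
      rw [this, Function.iterate_succ_apply', h1, he]
      exact hc

theorem leaves_eq_union {c : Cell} {H : ℝ} (hc : S.hc c < H) :
    S.Leaves c H = S.Leaves (ch0 c) H ∪ S.Leaves (ch1 c) H := by
  apply Set.Subset.antisymm
  · rintro g ⟨m, h1, h2, h3⟩
    rcases Nat.eq_zero_or_pos m with h0 | h0
    · subst h0
      simp only [Function.iterate_zero, id_eq] at h1
      rw [h1] at h2; linarith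
    · obtain ⟨k, rfl⟩ : ∃ k, m = k + 1 := ⟨m - 1, by omega⟩
      rw [Function.iterate_succ_apply'] at h1
      rcases eq_child_of_parent h1 with h | h
      · left; exact ⟨k, h, h2, fun i hi1 hi2 => h3 i hi1 (by omega)⟩
      · right; exact ⟨k, h, h2, fun i hi1 hi2 => h3 i hi1 (by omega)⟩
  · rintro g (hg | hg)
    · exact S.mem_leaves_of_child hc (parent_ch0 c) hg
    · exact S.mem_leaves_of_child hc (parent_ch1 c) hg

theorem N_eq_add {c : Cell} {H : ℝ} (hc : S.hc c < H) :
    S.N c H = S.N (ch0 c) H + S.N (ch1 c) H := by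
  unfold N
  rw [S.leaves_eq_union hc]
  apply Set.ncard_union_eq _ (S.finite_leaves _ _) (S.finite_leaves _ _)
  rw [Set.disjoint_left]
  intro q h1 h2
  exact ch0_ne_ch1 c (S.eq_of_level h1 h2 rfl)

/-- exponential growth of the number of leaves, trivial rate -/
theorem two_pow_le_N (j : ℕ) : ∀ (c : Cell) (H : ℝ), S.hc c + 2 * S.K * j < H + 2 * S.K →
    2 ^ j ≤ S.N c H := by
  induction j with
  | zero => intro c H _; simpa using S.one_le_N c H
  | succ j ih =>
    intro c H h
    have hK := S.K_pos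
    push_cast at h
    have hc : S.hc c < H := by
      have : 0 ≤ 2 * S.K * j := by positivity
      linarith
    rw [S.N_eq_add hc, pow_succ, mul_two]
    have h0 := abs_le.mp (S.hc_parent (ch0 c))
    have h1 := abs_le.mp (S.hc_parent (ch1 c))
    rw [parent_ch0] at h0
    rw [parent_ch1] at h1
    apply Nat.add_le_add
    · apply ih; linarith [h0.2]
    · apply ih; linarith [h1.2]

end Data

end SolGeom
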