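import Pool.Agent.H28.Sol.Crossing

namespace SolGeom

open Real Set Filter

theorem numeric_facts {K η ε₃ ε₂ L T m₀ A₃ C : ℝ} (hK1 : 1 ≤ K) (hη : 16 * K ^ 2 * η = 1)
    (hη0 : 0 < η)
    (hε₃ : 8 * ε₃ = η) (hε₂ : 100 * K ^ 2 * ε₂ = ε₃) (hε₂0 : 0 < ε₂) (hL : 0 < L)
    (hT : T - m₀ ≤ 2 * K + 1)
    (l1 : log (1 + A₃) + 4 * K ≤ (ε₃ / 4) * L)
    (l1' : 4 * K ≤ (ε₃ / 4) * L)
    (l2 : 2 * K * (2 * K + 1) + 4 * K * log (1 + C) + K + 1 ≤ η * L)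
    (l3 : 10 * K + 4 * log (1 + C) + 2 ≤ ε₂ * L) (l4 : 5 ≤ ε₂ * L) (l5 : 1 ≤ η * L) :
    log (1 + A₃) + K * (5 * K * ε₂ * L + 4) ≤ ε₃ / 2 * L ∧
    T + ε₃ * L + K * (5 * K * ε₂ * L + 4) < T + η * L ∧
    K * (2 * (T + η * L - m₀) + 4 * (log (1 + C) + ε₂ * L) + 1)
      < 4 * K * η * L - 1 - 5 * K * ε₂ * L ∧
    K * (2 * (5 * K) + 4 * (log (1 + C) + ε₂ * L) + 1) < 2 * (5 * K * ε₂ * L) ∧
    4 < 2 * (5 * K * ε₂ * L) ∧ 5 * K * ε₂ * L + 1 < 4 * K * η * L := by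
  have hK0 : 0 < K := by linarith
  have e1 : K * (5 * K * ε₂ * L) = ε₃ * L / 20 := by rw [← hε₂]; ring
  have hε₃0 : 0 < ε₃ := by linarith
  have hε₃L : 0 < ε₃ * L := by positivity
  have hηL : 0 < η * L := by positivity
  have hε₂L : 0 < ε₂ * L := by positivity
  have hηε : η * L = 8 * (ε₃ * L) := by rw [← hε₃]; ring
  -- K * (ε₂ L) ≤ η L / 800
  have e2 : K * (ε₂ * L) ≤ η * L / 800 := by
    have h1 : K ^ 2 * (ε₂ * L) = η * L / 800 := by rw [← hε₃, ← hε₂]; ring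
    have h2 : K * (ε₂ * L) * 1 ≤ K * (ε₂ * L) * K := by gcongr
    have h3 : K * (ε₂ * L) * K = K ^ 2 * (ε₂ * L) := by ring
    linarith
  have e3 : ε₂ * L ≤ K * (ε₂ * L) := by
    have : 1 * (ε₂ * L) ≤ K * (ε₂ * L) := by gcongr
    linarith
  have e4 : η * L ≤ K * (η * L) := by
    have : 1 * (η * L) ≤ K * (η * L) := by gcongr
    linarith
  refine ⟨?_, ?_, ?_, ?_, ?_, ?_⟩
  · have : K * (5 * K * ε₂ * L + 4) = K * (5 * K * ε₂ * L) + 4 * K := by ring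
    rw [this, e1]; linarith
  · have : K * (5 * K * ε₂ * L + 4) = K * (5 * K * ε₂ * L) + 4 * K := by ring
    rw [this, e1, hηε]; linarith
  · have h1 : K * (2 * (T + η * L - m₀) + 4 * (log (1 + C) + ε₂ * L) + 1)
        = 2 * K * (T - m₀) + 2 * (K * (η * L)) + 4 * K * log (1 + C) + 4 * (K * (ε₂ * L)) + K := by
      ring
    have h2 : 2 * K * (T - m₀) ≤ 2 * K * (2 * K + 1) := by gcongr
    have h3 : 4 * K * η * L - 1 - 5 * K * ε₂ * L = 4 * (K * (η * L)) - 1 - 5 * (K * (ε₂ * L)) := by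
      ring
    rw [h1, h3]
    linarith
  · have h1 : K * (2 * (5 * K) + 4 * (log (1 + C) + ε₂ * L) + 1)
        = K * (10 * K + 4 * log (1 + C) + 1) + 4 * (K * (ε₂ * L)) := by ring
    have h2 : K * (10 * K + 4 * log (1 + C) + 1) < K * (ε₂ * L) := by
      apply mul_lt_mul_of_pos_left _ hK0
      linarith
    have h3 : 2 * (5 * K * ε₂ * L) = 10 * (K * (ε₂ * L)) := by ring
    rw [h1, h3]
    have : 0 < K * (ε₂ * L) := by positivity
    linarith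
  · have h3 : 2 * (5 * K * ε₂ * L) = 10 * (K * (ε₂ * L)) := by ring
    rw [h3]; linarith
  · have h3 : 5 * K * ε₂ * L = 5 * (K * (ε₂ * L)) := by ring
    have h4 : 4 * K * η * L = 4 * (K * (η * L)) := by ring
    rw [h3, h4]; linarith

theorem avg_num {K ε₃ ε₂ L T m₀ A₃ Sg w J : ℝ} (hK0 : 0 < K) (hA₃ : 0 < A₃)
    (hL : 0 < L) (hε : ε₂ ≤ ε₃)
    (hT : T - m₀ ≤ 2 * K + 1) (hSg : Sg ≤ exp (-m₀ + ε₂ / 4 * L)) (hJ0 : 0 ≤ J)
    (hJ : J ≤ 1 + 18 * K * L) (hw : exp (-T - ε₂ / 4 * L) < w)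
    (l1 : log (16 * A₃) + (2 * K + 1) ≤ (ε₂ / 2) * L)
    (l2 : log 16 + 1 * log (1 + 18 * K * L) ≤ (ε₃ / 4) * L) :
    2 * A₃ * exp (-(ε₂ * L)) * Sg + J * (2 * exp (-(T + ε₃ * L) + ε₃ / 2 * L)) < w / 3 := by
  have h1 : 2 * A₃ * exp (-(ε₂ * L)) * Sg ≤ exp (-T - ε₂ / 4 * L) / 8 := by
    calc 2 * A₃ * exp (-(ε₂ * L)) * Sg ≤ 2 * A₃ * exp (-(ε₂ * L)) * exp (-m₀ + ε₂ / 4 * L) := by
          gcongr
      _ = exp (log (16 * A₃) + (-(ε₂ * L)) + (-m₀ + ε₂ / 4 * L)) / 8 := by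
          rw [Real.exp_add (log (16 * A₃) + (-(ε₂ * L))), Real.exp_add (log (16 * A₃)),
            Real.exp_log (by positivity)]; ring
      _ ≤ exp (-T - ε₂ / 4 * L) / 8 := by
          have : exp (log (16 * A₃) + (-(ε₂ * L)) + (-m₀ + ε₂ / 4 * L)) ≤ exp (-T - ε₂ / 4 * L) :=
            Real.exp_le_exp.mpr (by linarith)
          linarith
  have h2 : J * (2 * exp (-(T + ε₃ * L) + ε₃ / 2 * L)) ≤ exp (-T - ε₂ / 4 * L) / 8 := by
    calc J * (2 * exp (-(T + ε₃ * L) + ε₃ / 2 * L))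
        ≤ (1 + 18 * K * L) * (2 * exp (-(T + ε₃ * L) + ε₃ / 2 * L)) := by gcongr
      _ = exp (log 16 + 1 * log (1 + 18 * K * L) + (-(T + ε₃ * L) + ε₃ / 2 * L)) / 8 := by
          rw [Real.exp_add (log 16 + 1 * log (1 + 18 * K * L)), Real.exp_add (log 16),
            Real.exp_log (by positivity), one_mul, Real.exp_log (by positivity)]; ring
      _ ≤ exp (-T - ε₂ / 4 * L) / 8 := by
          have h3 : ε₂ / 4 * L ≤ ε₃ / 4 * L := by gcongr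
          have : exp (log 16 + 1 * log (1 + 18 * K * L) + (-(T + ε₃ * L) + ε₃ / 2 * L))
              ≤ exp (-T - ε₂ / 4 * L) :=
            Real.exp_le_exp.mpr (by linarith)
          linarith
  have h3 := Real.exp_pos (-T - ε₂ / 4 * L)
  linarith

namespace Data

theorem false (S : Data) : False := by
  classical
  have hK := S.K_pos
  have hK1 := S.one_le_K
  have hA := S.A_pos
  have hA1 := S.one_le_A
  obtain ⟨η, hη⟩ : ∃ η, η = 1 / (16 * S.K ^ 2) := ⟨_, rfl⟩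
  have hη0 : 0 < η := by rw [hη]; positivity
  have hη' : 16 * S.K ^ 2 * η = 1 := by rw [hη]; field_simp
  obtain ⟨ε₃, hε₃⟩ : ∃ ε₃, ε₃ = η / 8 := ⟨_, rfl⟩
  have hε₃0 : 0 < ε₃ := by rw [hε₃]; positivity
  have hε₃' : 8 * ε₃ = η := by rw [hε₃]; ring
  obtain ⟨ε₂, hε₂⟩ : ∃ ε₂, ε₂ = ε₃ / (100 * S.K ^ 2) := ⟨_, rfl⟩
  have hε₂0 : 0 < ε₂ := by rw [hε₂]; positivity
  have hε₂' : 100 * S.K ^ 2 * ε₂ = ε₃ := by rw [hε₂]; field_simp
  have hK2 : 1 ≤ S.K ^ 2 := one_le_pow₀ hK1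
  have hε₂₃ : ε₂ ≤ ε₃ := by
    have : 100 * 1 * ε₂ ≤ 100 * S.K ^ 2 * ε₂ := by gcongr
    linarith
  have hη1 : η ≤ 1 := by
    have : 16 * 1 * η ≤ 16 * S.K ^ 2 * η := by gcongr
    linarith
  have hε₂1 : ε₂ ≤ 1 := by linarith
  obtain ⟨A₃, hA₃⟩ : ∃ A₃, A₃ = 2 * S.A ^ 2 := ⟨_, rfl⟩
  have hA₃0 : 0 < A₃ := by rw [hA₃]; positivity
  obtain ⟨C, hC⟩ : ∃ C, C = 2 * A₃ + exp (5 * S.K) := ⟨_, rfl⟩
  have hev : ∀ᶠ L in atTop, (0 : ℝ) < L ∧
      log (1 + A₃) + 4 * S.K ≤ (ε₃ / 4) * L ∧ 4 * S.K ≤ (ε₃ / 4) * L ∧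
      2 * S.K * (2 * S.K + 1) + 4 * S.K * log (1 + C) + S.K + 1 ≤ η * L ∧
      10 * S.K + 4 * log (1 + C) + 2 ≤ ε₂ * L ∧ 5 ≤ ε₂ * L ∧ 1 ≤ η * L ∧
      log (16 * A₃) + (2 * S.K + 1) ≤ (ε₂ / 2) * L ∧
      log 16 + 1 * log (1 + 18 * S.K * L) ≤ (ε₃ / 4) * L ∧
      log 3 + S.K ≤ (1 / 2) * L ∧ 2 ≤ L := by
    filter_upwards [eventually_gt_atTop (0 : ℝ), ev_const (log (1 + A₃) + 4 * S.K) (ε₃ / 4) (by positivity),
      ev_const (4 * S.K) (ε₃ / 4) (by positivity),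
      ev_const (2 * S.K * (2 * S.K + 1) + 4 * S.K * log (1 + C) + S.K + 1) η hη0,
      ev_const (10 * S.K + 4 * log (1 + C) + 2) ε₂ hε₂0, ev_const 5 ε₂ hε₂0, ev_const 1 η hη0,
      ev_const (log (16 * A₃) + (2 * S.K + 1)) (ε₂ / 2) (by positivity),
      ev_aff (log 16) 1 (18 * S.K) (ε₃ / 4) (by positivity) (by positivity),
      ev_const (log 3 + S.K) (1 / 2) (by positivity), eventually_ge_atTop (2 : ℝ)]
      with L h1 h2 h3 h4 h5 h6 h7 h8 h9 h10 h11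
    exact ⟨h1, h2, h3, h4, h5, h6, h7, h8, h9, h10, h11⟩
  obtain ⟨L, ⟨hL, l1, l1', l2, l3, l4, l5, l6, l7, l8, l9⟩, hfar, hball⟩ :=
    (hev.and ((S.far_leaves (ε₂ / 4) (by positivity)).and
      (S.ball_sum (28 * S.K) (ε₂ / 4) (by positivity) (by positivity)))).exists
  -- the low cell
  obtain ⟨z₀, hz₀⟩ := S.near
  obtain ⟨c₀, hc₀⟩ := exists_cell z₀
  have hc₀l : S.hc c₀ ≤ S.m₀ + 2 * S.K + 1 := by
    have h1 := (abs_le.mp (S.h_step hc₀)).2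
    have h2 : S.hc c₀ = S.h (pt c₀) := rfl
    linarith
  obtain ⟨hdepth, qa, hqa, qb, hqb, hw⟩ := hfar c₀ hc₀l
  have hball' := hball c₀ hc₀l
  clear hfar hball hev
  obtain ⟨T, hT⟩ : ∃ T, T = S.hc c₀ := ⟨_, rfl⟩
  rw [← hT] at hdepth hqa hqb hw hc₀l
  have hTm : T - S.m₀ ≤ 2 * S.K + 1 := by linarith
  have hqaH : T + L ≤ S.hc qa := by obtain ⟨_, _, h, _⟩ := hqa; exact h
  have hqbH : T + L ≤ S.hc qb := by obtain ⟨_, _, h, _⟩ := hqb; exact h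
  have hda : dist (pt c₀) (pt qa) ≤ 9 * S.K * L := by
    obtain ⟨m, hm, h2, h3⟩ := id hqa
    have h4 := hdepth qa hqa m hm
    have h5 := dist_anc qa m
    rw [hm, dist_comm] at h5
    linarith
  have hdb : dist (pt c₀) (pt qb) ≤ 9 * S.K * L := by
    obtain ⟨m, hm, h2, h3⟩ := id hqb
    have h4 := hdepth qb hqb m hm
    have h5 := dist_anc qb m
    rw [hm, dist_comm] at h5
    linarith
  obtain ⟨P, hPa, hPb, hP, hsurj⟩ := exists_fermi (pt qa) (pt qb)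
  obtain ⟨l, hl⟩ : ∃ l, l = dist (pt qa) (pt qb) := ⟨_, rfl⟩
  rw [← hl] at hPb
  have hl0 : 0 ≤ l := by rw [hl]; exact dist_nonneg
  have hl18 : l ≤ 18 * S.K * L := by
    have := dist_triangle (pt qa) (pt c₀) (pt qb)
    rw [dist_comm (pt qa) (pt c₀)] at this
    rw [hl]; linarith
  obtain ⟨R, hR⟩ : ∃ R, R = 4 * S.K * η * L := ⟨_, rfl⟩
  have hR0 : 0 ≤ R := by rw [hR]; positivity
  have hKR : S.K * R = L / 4 := by
    have : S.K * R = (16 * S.K ^ 2 * η) * L / 4 := by rw [hR]; ring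
    rw [this, hη', one_mul]
  have hRL : R ≤ L / 4 := by
    rw [← hKR]
    have : 1 * R ≤ S.K * R := by gcongr
    linarith
  -- the finite set of cells near the rectangle
  have hgeo : ∀ c : Cell, (∃ s r, 0 ≤ s ∧ s ≤ l ∧ |r| ≤ R ∧ dist (pt c) (P s r) ≤ 1) →
      dist (pt c₀) (pt c) ≤ 28 * S.K * L := by
    rintro c ⟨s, r, hs0, hsl, hr, hd⟩
    have h1 : dist (P 0 0) (P s 0) ≤ l := by
      rw [fermi_dist_zero hP, zero_sub, abs_neg, abs_of_nonneg hs0]; exact hsl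
    have h2 : dist (P s 0) (P s r) ≤ R := by
      rw [fermi_dist_same_s hP, zero_sub, abs_neg]; exact hr
    have h3 := dist_triangle4 (pt c₀) (P 0 0) (P s 0) (P s r)
    have h4 := dist_triangle (pt c₀) (P s r) (pt c)
    rw [dist_comm (P s r)] at h4
    rw [hPa] at h3
    rw [hPa] at h1
    have h5 : L ≤ S.K * L := by
      have : 1 * L ≤ S.K * L := by gcongr
      linarith
    linarith
  have hfin : {c : Cell | ∃ s r, 0 ≤ s ∧ s ≤ l ∧ |r| ≤ R ∧ dist (pt c) (P s r) ≤ 1}.Finite := by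
    refine (finite_ball (pt c₀) (28 * S.K * L)).subset ?_
    intro c hc
    have := hgeo c hc
    rw [dist_comm] at this
    exact this
  obtain ⟨F, hF⟩ : ∃ F : Finset Cell, ∀ c, c ∈ F ↔
      ∃ s r, 0 ≤ s ∧ s ≤ l ∧ |r| ≤ R ∧ dist (pt c) (P s r) ≤ 1 :=
    ⟨hfin.toFinset, fun c => by simp⟩
  have hsum := hball' F (fun c hc => hgeo c ((hF c).mp hc))
  obtain ⟨w, hwdef⟩ : ∃ w, w = S.xc qb - S.xc qa := ⟨_, rfl⟩
  rw [← hwdef] at hw
  have hw0 : 0 < w := (Real.exp_pos _).trans hw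
  -- the choice of `x₀`
  obtain ⟨x₀, hx₀, hcov, hγ⟩ := S.exists_x0 F (fun j => P j 0) (Finset.range (⌊l⌋₊ + 1)) A₃
    (exp (-(ε₂ * L))) (T + ε₃ * L) (ε₃ / 2 * L) (S.xc qa + w / 3) (S.xc qb - w / 3) hA₃0.le
    (Real.exp_pos _).le (by linarith) (by
      have h1 := avg_num (J := ((Finset.range (⌊l⌋₊ + 1)).card : ℝ)) hK hA₃0 hL hε₂₃ hTm hsum
        (by positivity) (by
          rw [Finset.card_range]; push_cast
          have := Nat.floor_le hl0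
          linarith) hw l6 l7
      linarith)
  have hcard : ((F.filter (fun c => |S.xc c - x₀| ≤ A₃ * exp (-S.hc c))).card : ℝ) ≤
      exp (ε₂ * L) := by
    have h1 : exp (-(ε₂ * L)) * exp (ε₂ * L) = 1 := by rw [← Real.exp_add]; simp
    have h2 := mul_lt_mul_of_pos_right hcov (Real.exp_pos (ε₂ * L))
    rw [mul_assoc, h1, mul_one, one_mul] at h2
    exact h2.le
  -- the columns
  have hcol : exp (S.K * (R + 1) - (T + L)) < w / 3 := by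
    have h1 : exp (S.K * (R + 1) - (T + L)) ≤ exp (-T - ε₂ / 4 * L) / 3 := by
      have h2 : exp (-T - ε₂ / 4 * L) / 3 = exp (-T - ε₂ / 4 * L - log 3) := by
        rw [Real.exp_sub _ (log 3), Real.exp_log (by norm_num)]
      rw [h2]
      apply Real.exp_le_exp.mpr
      have h3 : S.K * (R + 1) = L / 4 + S.K := by rw [mul_add, hKR]; ring
      have h4 : ε₂ / 4 * L ≤ 1 / 4 * L := by gcongr
      rw [h3]; linarith
    linarith
  have hleft : ∀ r, |r| ≤ R → S.x (P 0 r) < x₀ := by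
    intro r hr
    have h1 := S.xlip (pt qa) (P 0 r)
    have h2 : dist (pt qa) (P 0 r) ≤ R := by
      rw [← hPa, fermi_dist_same_s hP, zero_sub, abs_neg]; exact hr
    have h3 : exp (S.K * (dist (pt qa) (P 0 r) + 1) - S.h (pt qa)) ≤
        exp (S.K * (R + 1) - (T + L)) := by
      apply Real.exp_le_exp.mpr
      have h4 : S.K * (dist (pt qa) (P 0 r) + 1) ≤ S.K * (R + 1) := by gcongr
      have h5 : S.hc qa = S.h (pt qa) := rfl
      linarith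
    have h6 := abs_le.mp (h1.trans h3)
    have h7 : S.xc qa = S.x (pt qa) := rfl
    linarith [h6.1, hx₀.1]
  have hright : ∀ r, |r| ≤ R → x₀ ≤ S.x (P l r) := by
    intro r hr
    have h1 := S.xlip (pt qb) (P l r)
    have h2 : dist (pt qb) (P l r) ≤ R := by
      rw [← hPb, fermi_dist_same_s hP, zero_sub, abs_neg]; exact hr
    have h3 : exp (S.K * (dist (pt qb) (P l r) + 1) - S.h (pt qb)) ≤
        exp (S.K * (R + 1) - (T + L)) := by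
      apply Real.exp_le_exp.mpr
      have h4 : S.K * (dist (pt qb) (P l r) + 1) ≤ S.K * (R + 1) := by gcongr
      have h5 : S.hc qb = S.h (pt qb) := rfl
      linarith
    have h6 := abs_le.mp (h1.trans h3)
    have h7 : S.xc qb = S.x (pt qb) := rfl
    linarith [h6.2, hx₀.2]
  -- the crossing sequence
  obtain ⟨n, p, hn, hpV, hstep, hp0, hpn⟩ := S.grid_seq hP l R x₀ hl0 hR0
    (F.filter (fun c => |S.xc c - x₀| ≤ A₃ * exp (-S.hc c))) (by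
      intro c s r hs0 hsl hr hd hx
      rw [Finset.mem_filter, hF, hA₃]
      exact ⟨⟨s, r, hs0, hsl, hr, hd⟩, hx⟩) hleft hright
  obtain ⟨n1, n2, n3, n4, n5, n6⟩ := numeric_facts hK1 hη' hη0 hε₃' hε₂' hε₂0 hL hTm l1 l1' l2 l3 l4 l5
  rw [hC] at n3 n4
  rw [← hR] at n3 n6
  exact S.crossing_false hP hsurj l R (5 * S.K * ε₂ * L) (T + ε₃ * L) (T + η * L) (ε₃ / 2 * L)
    (ε₂ * L) x₀ A₃ hA₃0.le (by positivity) (by positivity) _ hcard (by
      intro c hc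
      rw [Finset.mem_filter, hF] at hc
      obtain ⟨⟨s, r, hs0, hsl, _, hd⟩, _⟩ := hc
      exact ⟨s, r, hs0, hsl, hd⟩) (by
      intro c hc
      rw [Finset.mem_filter] at hc
      exact hc.2) (by
      intro j hj
      apply hγ j
      rw [Finset.mem_range, Nat.lt_succ_iff]
      exact Nat.le_floor hj) n p hn hpV hstep hp0 hpn n1 n2 n3 n4 n5 n6

end Data

/-- There is no quasi-isometric embedding of the hyperbolic plane into `Sol` with image in the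
half space `t ≥ 0`. -/
theorem no_qi_embedding : ¬ ∃ (K C : ℝ) (f : UpperHalfPlane → SolPt),
    1 ≤ K ∧ 0 ≤ C ∧ IsQIEmbedding K C f ∧ ∀ p, 0 ≤ (f p).t := by
  rintro ⟨K, C, f, hK, hC, hf, hpos⟩
  obtain ⟨S⟩ := exists_data hK hC hf hpos
  exact S.false

end SolGeom
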