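import Pool.Agent.H28.Sol.Cover

namespace SolGeom

namespace Data

open Real Set

variable (S : Data)

/-- Iterating patterns, we find a cell without patterns at some scale. -/
theorem exists_nopat (c : Cell) (L θ D : ℝ) (m₁ : ℕ) (hL : 8 * S.K ≤ L) (hθ0 : 0 < θ) (hθ1 : θ ≤ 1)
    (hD : ∀ e ∈ S.Block c (S.hc c + L), ∀ m : ℕ, parent^[m] e = c → (m : ℝ) ≤ D)
    (hm₁ : D < m₁ * (L / (4 * S.K))) :
    ∃ i < m₁, ∃ e ∈ S.Block c (S.hc c + L), S.hc e ≤ S.hc c + θ ^ (i + 1) / 4 * L ∧
      S.NoPat e (S.hc c + L) (S.hc c + θ ^ i / 4 * L) := by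
  by_contra hcon
  push Not at hcon
  have hK := S.K_pos
  have hL0 : 0 < L := by linarith
  set T := S.hc c with hT
  have key : ∀ j : ℕ, j ≤ m₁ → ∃ e ∈ S.Block c (T + L), S.hc e ≤ T + θ ^ (m₁ - j) / 4 * L ∧
      ∃ m : ℕ, parent^[m] e = c ∧ (j : ℝ) * (L / (4 * S.K)) ≤ m := by
    intro j
    induction j with
    | zero =>
      intro _
      refine ⟨c, S.mem_block_self (by linarith), ?_, 0, rfl, by simp⟩
      have : 0 ≤ θ ^ (m₁ - 0) / 4 * L := by positivity
      linarith
    | succ j ih =>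
      intro hj
      obtain ⟨e, he, hel, m, hm, hmj⟩ := ih (by omega)
      have hidx : m₁ - j = (m₁ - (j + 1)) + 1 := by omega
      rw [hidx] at hel
      have h1 := hcon (m₁ - (j + 1)) (by omega) e he hel
      unfold NoPat at h1
      push Not at h1
      obtain ⟨g, hg, hgH, d, hd, hdl⟩ := h1
      obtain ⟨a, ha, _⟩ := id hg
      obtain ⟨b, hb, _⟩ := id hd
      refine ⟨d, S.block_trans he (S.block_trans hg hd), hdl, b + (a + m), ?_, ?_⟩
      · rw [← parent_iter_add, hb, ← parent_iter_add, ha, hm]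
      · have h2 := abs_le.mp (S.path_h d b)
        rw [hb] at h2
        have hθi : θ ^ (m₁ - (j + 1)) ≤ 1 := pow_le_one₀ hθ0.le hθ1
        have h3 : θ ^ (m₁ - (j + 1)) / 4 * L ≤ 1 / 4 * L := by gcongr
        have h4 : L / (4 * S.K) ≤ b := by
          rw [div_le_iff₀ (by positivity)]
          nlinarith [h2.1]
        push_cast
        have : (0 : ℝ) ≤ a := by positivity
        nlinarith
  obtain ⟨e, he, _, m, hm, hmj⟩ := key m₁ le_rfl
  have := hD e he m hm
  linarith

end Data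

end SolGeom
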