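import Pool.Agent.H28.Sol.Leaves
import Pool.Agent.H28.Sol.Avg

namespace SolGeom

namespace Data

open Real Set

variable (S : Data)

/-- `S.GrowthWith κ c₁`: the number of leaves grows at rate `κ` with constant `c₁`. -/
def GrowthWith (κ c₁ : ℝ) : Prop :=
  ∀ (e : Cell) (L : ℝ), 0 ≤ L → c₁ * exp (κ * L) ≤ S.N e (S.hc e + L)

variable {S}

theorem GrowthWith.le_one {κ c₁ : ℝ} (h : S.GrowthWith κ c₁) : c₁ ≤ 1 := by
  have h1 := h (0, 0) 0 le_rfl
  rw [mul_zero, Real.exp_zero, mul_one, add_zero] at h1
  rw [← S.card_lv] at h1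
  have : S.lv (0, 0) (S.hc (0, 0)) = {(0, 0)} := by
    ext e
    rw [mem_lv, S.leaves_self le_rfl]; simp
  rw [this] at h1
  simpa using h1

theorem GrowthWith.apply {κ c₁ : ℝ} (h : S.GrowthWith κ c₁) (hκ : 0 ≤ κ) (hc : 0 < c₁) (e : Cell)
    (H lam : ℝ) (hl : S.hc e ≤ lam) (hH : S.hc e ≤ H) : c₁ * exp (κ * (H - lam)) ≤ S.N e H := by
  have h1 := h e (H - S.hc e) (by linarith)
  rw [add_sub_cancel] at h1
  refine le_trans ?_ h1
  gcongr

variable (S)

theorem leaf_height_le' {c g : Cell} {H : ℝ} (hg : g ∈ S.Leaves c H) (hc : S.hc c ≤ H) :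
    S.hc g < H + 2 * S.K := by
  rcases hc.lt_or_eq with h | h
  · exact S.leaf_height_le hg h
  · rw [S.leaves_self h.ge] at hg
    rw [mem_singleton_iff] at hg
    rw [hg, h]; linarith [S.K_pos]

/-- The radius which occurs in the spread lemma. -/
noncomputable def rD (D : ℝ) : ℝ := S.K * (4 * S.K + 4 * log (1 + 2 * D * S.A) + 1)

theorem rD_nonneg {D : ℝ} (hD : 0 ≤ D) : 0 ≤ S.rD D := by
  unfold rD
  have h1 := S.K_pos
  have h2 := S.A_pos
  have h3 : 0 ≤ 2 * D * S.A := by positivity
  have : 0 ≤ log (1 + 2 * D * S.A) := Real.log_nonneg (by linarith)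
  positivity

/-- The spread lemma. -/
theorem spread {κ c₁ : ℝ} (hG : S.GrowthWith κ c₁) (hκ : 0 ≤ κ) (hc₁ : 0 < c₁) (c : Cell)
    (H t B xs D : ℝ) (ht : 0 ≤ t) (hH : S.hc c + t + 2 * S.K < H) (hB : 0 < B) (hD : 0 ≤ D)
    (hleaf : ∀ q ∈ S.Leaves c H, |S.xc q - xs| ≤ B)
    (hdepth : ∀ q ∈ S.Leaves c H, ∀ m : ℕ, parent^[m] q = c → (m : ℝ) ≤ D) :
    c₁ * exp (κ * t) ≤ S.N c H * (c₁⁻¹ * exp (-(κ * (H - log (S.A * (D + 1) / B)))))
      + (4 * B * exp (S.hc c + t) + 2) * Phi (S.rD D) := by
  classical
  have hK := S.K_pos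
  have hA := S.A_pos
  set H' := S.hc c + t with hH'
  set lam := log (S.A * (D + 1) / B) with hlam
  have hcH' : S.hc c ≤ H' := by linarith
  have hgH : ∀ g ∈ S.Leaves c H', H' ≤ S.hc g ∧ S.hc g < H' + 2 * S.K ∧ g ∈ S.Block c H := by
    intro g hg
    have h1 := S.leaf_height_le' hg hcH'
    refine ⟨?_, h1, S.leaves_mem_block (by linarith) hg (by linarith)⟩
    obtain ⟨_, _, h2, _⟩ := hg; exact h2
  have hgD : ∀ g ∈ S.Leaves c H', ∀ m : ℕ, parent^[m] g = c → (m : ℝ) ≤ D := by
    intro g hg m hm
    obtain ⟨q, hq⟩ := S.leaves_nonempty g H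
    have hqc := S.leaves_subset (hgH g hg).2.2 hq
    obtain ⟨k, hk, _, _⟩ := hq
    have h1 := hdepth q hqc (k + m) (by rw [← parent_iter_add, hk, hm])
    push_cast at h1
    have : (0 : ℝ) ≤ k := by positivity
    linarith
  have hyg : ∀ g ∈ S.Leaves c H', |S.yc g - S.yc c| ≤ D * S.A * exp (H' + 2 * S.K) := by
    intro g hg
    have h0 := hgH g hg
    obtain ⟨m, hm1, hm2, hm3⟩ := hg
    have hmD := hgD g ⟨m, hm1, hm2, hm3⟩ m hm1
    have h1 := S.path_y g m (H' + 2 * S.K) (by
      intro i hi
      rcases Nat.eq_zero_or_pos i with h | h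
      · subst h; exact h0.2.1.le
      · linarith [hm3 i h hi.le])
    rw [hm1] at h1
    refine h1.trans ?_
    gcongr
  -- split
  set G := S.lv c H' with hGdef
  have hcard : c₁ * exp (κ * t) ≤ (G.card : ℝ) := by
    rw [hGdef, S.card_lv]; exact hG c t ht
  set far := G.filter (fun g => 2 * B < |S.xc g - xs|) with hfar
  set near := G.filter (fun g => ¬ (2 * B < |S.xc g - xs|)) with hnear
  have hsplit : far.card + near.card = G.card := by
    rw [hfar, hnear]; exact Finset.card_filter_add_card_filter_not _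
  -- near part
  have hnearcard : (near.card : ℝ) ≤ (4 * B * exp H' + 2) * Phi (S.rD D) := by
    have h1 := xbox near S.xc xs (2 * B) (exp (-H')) (S.rD D) (by positivity) (Real.exp_pos _)
      (S.rD_nonneg hD) (by
        intro g hg
        rw [hnear, Finset.mem_filter] at hg
        exact not_lt.mp hg.2) (by
        intro g hg g' hg' hx
        rw [hnear, Finset.mem_filter, hGdef, mem_lv] at hg hg'
        have a1 := hgH g hg.1
        have a2 := hgH g' hg'.1
        have y1 := hyg g hg.1
        have y2 := hyg g' hg'.1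
        have hN : 0 ≤ 2 * D * S.A := by positivity
        have hy : |S.y (pt g) - S.y (pt g')| ≤ (2 * D * S.A) * exp (H' + 2 * S.K) := by
          calc |S.y (pt g) - S.y (pt g')| = |S.yc g - S.yc g'| := rfl
            _ ≤ |S.yc g - S.yc c| + |S.yc c - S.yc g'| := abs_sub_le _ _ _
            _ ≤ D * S.A * exp (H' + 2 * S.K) + D * S.A * exp (H' + 2 * S.K) := by
                rw [abs_sub_comm (S.yc c)]; linarith
            _ = _ := by ring
        rcases le_or_gt 1 (2 * D * S.A) with hN1 | hN1
        · have h2 := S.dist_le (pt g) (pt g') H' (H' + 2 * S.K) (2 * D * S.A) a1.1 a2.1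
            a1.2.1.le a2.2.1.le hN (by
              refine hx.trans ?_
              have := Real.exp_pos (-H')
              nlinarith) hy
          refine h2.trans (le_of_eq ?_)
          unfold rD; ring
        · -- then both cells are equal to `c`
          have hD1 : D < 1 := by
            have := S.one_le_A
            nlinarith
          have hz : ∀ g ∈ S.Leaves c H', g = c := by
            intro g hg
            obtain ⟨m, hm1, _, _⟩ := id hg
            have := hgD g hg m hm1
            have hm : m = 0 := by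
              by_contra h
              have : (1 : ℝ) ≤ m := by exact_mod_cast Nat.one_le_iff_ne_zero.mpr h
              linarith
            subst hm
            exact hm1
          rw [hz g hg.1, hz g' hg'.1, dist_self]
          exact S.rD_nonneg hD)
    refine h1.trans (le_of_eq ?_)
    rw [Real.exp_neg]
    field_simp
    ring
  -- far part
  have hfarN : ∀ g ∈ far, c₁ * exp (κ * (H - lam)) ≤ S.N g H := by
    intro g hg
    rw [hfar, Finset.mem_filter, hGdef, mem_lv] at hg
    obtain ⟨hg1, hg2⟩ := hg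
    have a1 := hgH g hg1
    obtain ⟨q, hq⟩ := S.leaves_nonempty g H
    have hqc := S.leaves_subset a1.2.2 hq
    have hqB := hleaf q hqc
    obtain ⟨m, hm1, hm2, hm3⟩ := id hq
    have hmD : (m : ℝ) ≤ D := by
      obtain ⟨k, hk⟩ := a1.2.2
      have := hdepth q hqc (m + k) (by rw [← parent_iter_add, hm1, hk.1])
      push_cast at this
      have : (0 : ℝ) ≤ k := by positivity
      linarith
    have hfarx : B < |S.xc q - S.xc g| := by
      have h3 : |S.xc g - xs| ≤ |S.xc g - S.xc q| + |S.xc q - xs| := abs_sub_le _ _ _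
      rw [abs_sub_comm (S.xc q)]
      linarith
    have hex : ∃ i < m, S.hc (parent^[i] q) ≤ lam := by
      by_contra hcon
      push Not at hcon
      have h4 := S.path_x q m lam (fun i hi => (hcon i hi).le)
      rw [hm1, hlam, Real.exp_neg, Real.exp_log (by positivity)] at h4
      have h5 : (m : ℝ) * S.A * (S.A * (D + 1) / B)⁻¹ ≤ B := by
        rw [inv_div]
        rw [mul_div_assoc', div_le_iff₀ (by positivity)]
        have h7 := mul_le_mul_of_nonneg_left (show (m : ℝ) ≤ D + 1 by linarith)
          (show 0 ≤ S.A * B by positivity)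
        linarith
      linarith
    obtain ⟨i, hi, hil⟩ := hex
    rcases Nat.eq_zero_or_pos i with h0 | h0
    · subst h0
      simp only [Function.iterate_zero, id_eq] at hil
      have h5 : c₁ * exp (κ * (H - lam)) ≤ 1 := by
        have h6 : exp (κ * (H - lam)) ≤ 1 := by
          rw [Real.exp_le_one_iff]
          exact mul_nonpos_of_nonneg_of_nonpos hκ (by linarith)
        have := hG.le_one
        calc c₁ * exp (κ * (H - lam)) ≤ 1 * 1 :=
              mul_le_mul this h6 (Real.exp_pos _).le zero_le_one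
          _ = 1 := one_mul 1
      refine h5.trans ?_
      exact_mod_cast S.one_le_N g H
    · have hb : parent^[i] q ∈ S.Block g H := by
        refine ⟨m - i, ?_, ?_⟩
        · rw [parent_iter_add, Nat.add_sub_cancel' hi.le, hm1]
        · intro j hj
          rw [parent_iter_add]
          exact hm3 _ (by omega) (by omega)
      have h6 := hG.apply hκ hc₁ (parent^[i] q) H lam hil (S.block_lt hb).le
      refine h6.trans ?_
      exact_mod_cast S.N_mono hb
  have hfarsum : ∑ g ∈ far, (S.N g H : ℝ) ≤ S.N c H := by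
    rw [← S.card_lv c H]
    apply S.sum_N_antichain_le far (S.lv c H) c H' H
    · intro g hg
      rw [hfar, Finset.mem_filter, hGdef, mem_lv] at hg
      exact hg.1
    · intro g hg
      rw [hfar, Finset.mem_filter, hGdef, mem_lv] at hg
      intro q hq
      have := S.leaves_subset (hgH g hg.1).2.2 hq
      simpa using this
  have hfarcard : (far.card : ℝ) ≤ S.N c H * (c₁⁻¹ * exp (-(κ * (H - lam)))) := by
    have h1 : (far.card : ℝ) * (c₁ * exp (κ * (H - lam))) ≤ S.N c H := by
      refine le_trans ?_ hfarsum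
      rw [← nsmul_eq_mul, ← Finset.sum_const]
      exact Finset.sum_le_sum hfarN
    have hpos : 0 < c₁ * exp (κ * (H - lam)) := by positivity
    rw [← le_div_iff₀ hpos] at h1
    refine h1.trans (le_of_eq ?_)
    rw [Real.exp_neg, div_eq_mul_inv, mul_inv]
  have hfin : (G.card : ℝ) = far.card + near.card := by exact_mod_cast hsplit.symm
  rw [hfin] at hcard
  linarith

end Data

end SolGeom
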